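import Pool.Agent.Lib.MP_adc574_ag_PC.N3
import Pool.Agent.Lib.MP_adc574_ag_OE.ED

/-!
# Even dimension, block B: definitions

`Pq r ι = Fin r → ι` are the coordinates of the tensors of degree `r`. A form of degree `m` on the tensors is an array `φ : (Fin m → Pq r ι) → R`, its value at
the tensor `P` is `evp P φ`. The minors of a frame `U` with `r` rows are the tensor `pl U`.

`S` is a symmetric matrix, `(u, w) = u ⬝ᵥ S *ᵥ w` the form on the rows. `rf S x` is the scaled reflection `u ↦ (x, x) u - 2 (u, x) x`, as a matrix which acts on the rows from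
the right, and `thF S E z` is the frame `E` transformed by the product of `r` pairs of scaled reflections with the coordinates `z`. `Vg S E` is the same frame for generic `z`.
-/

set_option autoImplicit false

namespace MPadcEP

open Polynomial Matrix MPadcGM MPadcOA

/-- The coordinates of the tensors of degree `r`. -/
abbrev Pq (r : ℕ) (ι : Type) := Fin r → ι

/-- The value of the form `φ` at the tensor `P`. -/
def evp {R : Type*} [CommRing R] {ι : Type} [Fintype ι] {r m : ℕ} (P : Pq r ι → R) (φ : (Fin m → Pq r ι) → R) : R :=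
  ∑ s, φ s * ∏ i, P (s i)

/-- The minors of a frame with `r` rows. -/
def pl {R : Type*} [CommRing R] {ι : Type} {r : ℕ} (U : Matrix (Fin r) ι R) : Pq r ι → R :=
  fun t => (Matrix.of fun i j => U i (t j)).det

/-- The action of the matrix `A` on the forms on the tensors. -/
def actP {R : Type*} [CommRing R] {ι : Type} [Fintype ι] {r m : ℕ} (A : Matrix ι ι R) (φ : (Fin m → Pq r ι) → R) :
    (Fin m → Pq r ι) → R :=
  fun s => ∑ i, ∑ j, ∑ c, A (s i j) c * φ (Function.update s i (Function.update (s i) j c))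

/-- The differential operator on the forms on the tensors. -/
noncomputable def opP {R : Type*} [CommRing R] {ι : Type} [Fintype ι] {r m : ℕ} (Δ : R[X]) (G : Matrix ι ι R[X])
    (φ : (Fin m → Pq r ι) → R[X]) : (Fin m → Pq r ι) → R[X] :=
  fun s => Δ * derivative (φ s) + actP G φ s

/-- The product of the form `φ` and the minor of the columns `t₀`. -/
def mulzP {R : Type*} [CommRing R] {ι : Type} [DecidableEq ι] {r m : ℕ} (t₀ : Pq r ι) (φ : (Fin m → Pq r ι) → R) :
    (Fin (m + 1) → Pq r ι) → R :=
  fun s => if s (Fin.last m) = t₀ then φ (fun i => s (Fin.castSucc i)) else 0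

/-- The auxiliary polynomial. -/
noncomputable def auxP {k : Type*} [Field k] {ι : Type} [Fintype ι] {r m B : ℕ} (q : ℕ) (P : Pq r ι → k[X])
    (Φ : Fin B → (Fin m → Pq r ι) → k[X]) : k[X] :=
  ∑ b : Fin B, X ^ (q * (b : ℕ)) * evp P (Φ b)

/-- The scaled reflection `u ↦ (x, x) u - 2 (u, x) x`, acting on the rows from the right. -/
def rf {R : Type*} [CommRing R] {ι : Type} [Fintype ι] [DecidableEq ι] (S : Matrix ι ι R) (x : ι → R) : Matrix ι ι R :=
  (x ⬝ᵥ S *ᵥ x) • (1 : Matrix ι ι R) - (2 : R) • vecMulVec (S *ᵥ x) x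

/-- The product of pairs of scaled reflections. -/
def pr {R : Type*} [CommRing R] {ι : Type} [Fintype ι] [DecidableEq ι] (S : Matrix ι ι R) (L : List ((ι → R) × (ι → R))) : Matrix ι ι R :=
  (L.map fun p => rf S p.1 * rf S p.2).prod

/-- The coordinates of `r` pairs of vectors. -/
abbrev Zc (r : ℕ) (ι : Type) := Bool × Fin r × ι

/-- The pairs of vectors with the coordinates `z`. -/
def lz {R : Type*} {ι : Type} {r : ℕ} (z : Zc r ι → R) : List ((ι → R) × (ι → R)) :=
  List.ofFn fun i : Fin r => (fun l => z (true, i, l), fun l => z (false, i, l))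

/-- The frame `E` transformed by `r` pairs of scaled reflections. -/
def thF {R : Type*} [CommRing R] {ι : Type} [Fintype ι] [DecidableEq ι] {r : ℕ} (S : Matrix ι ι R) (E : Matrix (Fin r) ι R)
    (z : Zc r ι → R) : Matrix (Fin r) ι R :=
  E * pr S (lz z)

/-- The polynomials in the parameter and the coordinates of `r` pairs of vectors. -/
abbrev GR (k : Type*) [Field k] (r : ℕ) (ι : Type) := (MvPolynomial (Zc r ι) k)[X]

/-- The inclusion of the polynomials in the parameter. -/
noncomputable def cg (k : Type*) [Field k] (r : ℕ) (ι : Type) : k[X] →+* GR k r ι := Polynomial.mapRingHom MvPolynomial.C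

/-- The generic frame. -/
noncomputable def Vg {k : Type*} [Field k] {ι : Type} [Fintype ι] [DecidableEq ι] {r : ℕ} (S : Matrix ι ι k[X]) (E : Matrix (Fin r) ι k[X]) :
    Matrix (Fin r) ι (GR k r ι) :=
  thF (Matrix.map S (cg k r ι)) (Matrix.map E (cg k r ι)) fun l => C (MvPolynomial.X l)

/-- The minors of the generic frame. -/
noncomputable def gp {k : Type*} [Field k] {ι : Type} [Fintype ι] [DecidableEq ι] {r : ℕ} (S : Matrix ι ι k[X]) (E : Matrix (Fin r) ι k[X]) :
    Pq r ι → GR k r ι := pl (Vg S E)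

/-- The value of a form at the minors of the generic frame. -/
noncomputable def evG {k : Type*} [Field k] {ι : Type} [Fintype ι] [DecidableEq ι] {r : ℕ} (S : Matrix ι ι k[X]) (E : Matrix (Fin r) ι k[X])
    (m : ℕ) : ((Fin m → Pq r ι) → k[X]) →ₗ[k] GR k r ι where
  toFun φ := evp (gp S E) fun s => cg k r ι (φ s)
  map_add' φ ψ := by
    simp only [evp, Pi.add_apply, map_add, add_mul, Finset.sum_add_distrib]
  map_smul' c φ := by
    have h : ∀ P : k[X], cg k r ι (c • P) = c • cg k r ι P := by
      intro P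
      rw [Polynomial.smul_eq_C_mul, map_mul, Algebra.smul_def]
      refine congrArg (· * _) ?_
      show Polynomial.map MvPolynomial.C (C c) = _
      rw [Polynomial.map_C]
      rfl
    simp only [evp, Pi.smul_apply, h, RingHom.id_apply, Finset.smul_sum, smul_mul_assoc]

theorem evG_apply {k : Type*} [Field k] {ι : Type} [Fintype ι] [DecidableEq ι] {r : ℕ} (S : Matrix ι ι k[X]) (E : Matrix (Fin r) ι k[X])
    (m : ℕ) (φ : (Fin m → Pq r ι) → k[X]) : evG S E m φ = evp (gp S E) fun s => cg k r ι (φ s) := rfl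

/-- The forms of degree `m` whose coefficients have degree at most `A`. -/
def DL (k : Type*) [Field k] (r : ℕ) (ι : Type) (m A : ℕ) : Submodule k ((Fin m → Pq r ι) → k[X]) where
  carrier := {φ | ∀ s, (φ s).natDegree ≤ A}
  add_mem' hφ hψ s := (natDegree_add_le _ _).trans (max_le (hφ s) (hψ s))
  zero_mem' s := by
    rw [Pi.zero_apply, natDegree_zero]
    exact Nat.zero_le _
  smul_mem' c φ hφ s := (natDegree_smul_le c (φ s)).trans (hφ s)

/-- The functions of degree `m` whose coefficients have degree at most `A`. -/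
noncomputable def SO {k : Type*} [Field k] {ι : Type} [Fintype ι] [DecidableEq ι] {r : ℕ} (S : Matrix ι ι k[X]) (E : Matrix (Fin r) ι k[X])
    (m A : ℕ) : Submodule k (GR k r ι) := (DL k r ι m A).map (evG S E m)

/-- Their dimension. -/
noncomputable def so {k : Type*} [Field k] {ι : Type} [Fintype ι] [DecidableEq ι] {r : ℕ} (S : Matrix ι ι k[X]) (E : Matrix (Fin r) ι k[X])
    (m A : ℕ) : ℕ := Module.finrank k (SO S E m A)

/-- The products of the minor of the columns `t₀` and these functions. -/
noncomputable def ZO {k : Type*} [Field k] {ι : Type} [Fintype ι] [DecidableEq ι] {r : ℕ} (S : Matrix ι ι k[X]) (E : Matrix (Fin r) ι k[X])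
    (t₀ : Pq r ι) (m A : ℕ) : Submodule k (GR k r ι) := (SO S E m A).map (LinearMap.mulLeft k (gp S E t₀))

/-- The form `φ` vanishes at all isotropic frames with `r` rows. -/
def VanI {F : Type*} [Field F] {ι : Type} [Fintype ι] {r m : ℕ} (S : Matrix ι ι F) (φ : (Fin m → Pq r ι) → F) : Prop :=
  ∀ V : Matrix (Fin r) ι F, V * S * Vᵀ = 0 → (LinearIndependent F fun i => V i) → evp (pl V) φ = 0

/-- A system in a quadratic space with an isotropic frame with `r` rows whose minors are horizontal, and an isotropic frame of small degree. -/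
structure FrR (r : ℕ) (ι : Type) (k : Type*) [Field k] where
  /-- the discriminant -/
  Δ : k[X]
  /-- the matrix of the system -/
  G : Matrix ι ι k[X]
  /-- the quadratic form on the rows -/
  S : Matrix ι ι k[X]
  /-- the frame -/
  U : Matrix (Fin r) ι k[X]
  /-- the frame of small degree -/
  E : Matrix (Fin r) ι k[X]

/-- The properties of the system. -/
structure FrR.Ok {r : ℕ} {ι : Type} [Fintype ι] [DecidableEq ι] {k : Type*} [Field k] (D : FrR r ι k) (c : ℕ) : Prop where
  ne : D.Δ ≠ 0
  degD : D.Δ.natDegree ≤ c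
  degG : ∀ i j, (D.G i j).natDegree ≤ c
  degS : ∀ i j, (D.S i j).natDegree ≤ c
  symm : D.Sᵀ = D.S
  detS : ∀ α : k, D.Δ.eval α ≠ 0 → (Matrix.map D.S (eval α)).det ≠ 0
  horU : ∀ t : Pq r ι, D.Δ * derivative (pl D.U t) = ∑ j, ∑ c, pl D.U (Function.update t j c) * D.G c (t j)
  isoU : D.U * D.S * D.Uᵀ = 0
  rkU : ∀ α : k, D.Δ.eval α ≠ 0 → LinearIndependent k fun i l => (D.U i l).eval α
  degE : ∀ i l, (D.E i l).natDegree ≤ c
  isoE : D.E * D.S * D.Eᵀ = 0
  rkE : ∀ α : k, D.Δ.eval α ≠ 0 → LinearIndependent k fun i l => (D.E i l).eval α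

/-- The rows of level at most `j`, numbered by `Fin r`, and the first rows of the frame of small degree. -/
def lowR {g : ℕ} {ι : Type} {k : Type*} [Field k] (D : MPadcEO.FrO g ι k) (E : Matrix (Fin g) ι k[X]) (lv : Fin g → ℕ) (j r : ℕ)
    (e : Fin r ≃ {a : Fin g // lv a ≤ j}) : FrR r ι k where
  Δ := D.Δ
  G := D.G
  S := D.S
  U := fun i => D.U (e i).1
  E := fun i => E (e i).1

/-- The module generated by the iterated derivatives of `Φ`. -/
noncomputable def WAO {F : Type} [Field F] {ι : Type} [Fintype ι] {r m : ℕ} (Δ : F[X]) (G : Matrix ι ι F[X])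
    (Φ : (Fin m → Pq r ι) → F[X]) : Submodule F[X] ((Fin m → Pq r ι) → F[X]) :=
  Submodule.span F[X] (Set.range fun e : ℕ => (opP Δ G)^[e] Φ)

/-- Its saturation. -/
noncomputable def WSO {F : Type} [Field F] {ι : Type} [Fintype ι] {r m : ℕ} (Δ : F[X]) (G : Matrix ι ι F[X])
    (Φ : (Fin m → Pq r ι) → F[X]) : Submodule F[X] ((Fin m → Pq r ι) → F[X]) where
  carrier := {x | ∃ d : F[X], d ≠ 0 ∧ d • x ∈ WAO Δ G Φ}
  add_mem' := by
    rintro x y ⟨d, hd, hx⟩ ⟨d', hd', hy⟩
    refine ⟨d * d', mul_ne_zero hd hd', ?_⟩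
    rw [smul_add]
    refine add_mem ?_ ?_
    · rw [mul_comm, mul_smul]
      exact Submodule.smul_mem _ _ hx
    · rw [mul_smul]
      exact Submodule.smul_mem _ _ hy
  zero_mem' := ⟨1, one_ne_zero, by rw [smul_zero]; exact zero_mem _⟩
  smul_mem' := by
    rintro c x ⟨d, hd, hx⟩
    refine ⟨d, hd, ?_⟩
    rw [smul_comm]
    exact Submodule.smul_mem _ _ hx

/-- The class of a family of matrices in the ultraproduct. -/
noncomputable def cm {k : ℕ → Type} [∀ n, Field (k n)] {α β : Type} (M : ∀ n, Matrix α β (k n)) : Matrix α β (LL k) :=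
  fun i j => cl fun n => M n i j

end MPadcEP
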