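import Pool.Agent.Lib.MP_adc574_ag_EP.M1
import Pool.Agent.Lib.MP_adc574_ag_EP.V1

/-!
# LEAF G1: the values of the generic frame (medium-, 4 statements)

* `map_evG`: `Polynomial.mapRingHom (MvPolynomial.eval z)` is a ring homomorphism `GR k r ι → k[X]`; by `evp_map`, `pl_map'`, `thF_map` the left side is `evp (pl (thF S' E' z')) φ'`, where
  `S' = S.map (cg ..)` mapped again: `(cg P).map (eval z) = P` (`Polynomial.map_map`, `MvPolynomial.eval_C`, `Polynomial.map_id`), and `C (X l)` goes to `C (z l)`.
* `eval_evT`: the same with `evalRingHom α`. (`Matrix.map S (eval α)` is `Matrix.map S (evalRingHom α)` by `rfl`, `Polynomial.coe_evalRingHom`.)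
* `evG_eq_zero`: every coefficient of `evG S E m φ` (a polynomial in the coordinates) vanishes at all `z`: `Polynomial.coeff_map`, `MvPolynomial.funext`.
* `natDegree_evT`: the entries of `rf S x` for constant `x` have degree `≤ c`, those of a product of `n` such matrices `≤ n c` (`Matrix.mul_apply`, `natDegree_sum_le_of_forall_le`, `natDegree_mul_le`; induction over
  the list `lz z` of length `r`: `pr S L` has entries of degree `≤ 2 * L.length * c`), those of `thF` `≤ (2 r + 1) c`; `natDegree_pl`, `natDegree_evp` (V1).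
-/

set_option autoImplicit false

namespace MPadcEP

open Polynomial Matrix MPadcGM MPadcOA

private theorem G1_cg {k : Type} [Field k] {ι : Type} {r : ℕ} (z : Zc r ι → k) (P : k[X]) :
    Polynomial.mapRingHom (MvPolynomial.eval z) (cg k r ι P) = P := by
  show Polynomial.map (MvPolynomial.eval z) (Polynomial.map MvPolynomial.C P) = P
  rw [Polynomial.map_map]
  have h : (MvPolynomial.eval z).comp MvPolynomial.C = RingHom.id k := by
    ext a
    simp
  rw [h, Polynomial.map_id]

private theorem G1_rf {k : Type} [Field k] {ι : Type} [Fintype ι] [DecidableEq ι] (S : Matrix ι ι k[X]) (c : ℕ)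
    (hS : ∀ i j, (S i j).natDegree ≤ c) (x : ι → k) (i j : ι) :
    (rf S (fun l => C (x l)) i j).natDegree ≤ c := by
  have h1 : ∀ i, ((S *ᵥ fun l => C (x l)) i).natDegree ≤ c := by
    intro i
    refine natDegree_sum_le_of_forall_le _ _ fun a _ => ?_
    exact (natDegree_mul_C_le _ _).trans (hS i a)
  have h2 : ((fun l => C (x l)) ⬝ᵥ S *ᵥ fun l => C (x l)).natDegree ≤ c := by
    refine natDegree_sum_le_of_forall_le _ _ fun a _ => ?_
    exact (natDegree_C_mul_le _ _).trans (h1 a)
  unfold rf
  rw [Matrix.sub_apply, Matrix.smul_apply, Matrix.smul_apply, vecMulVec_apply, smul_eq_mul, smul_eq_mul]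
  refine (natDegree_sub_le _ _).trans (max_le ?_ ?_)
  · rw [Matrix.one_apply]
    split_ifs
    · rw [mul_one]
      exact h2
    · rw [mul_zero, natDegree_zero]
      exact Nat.zero_le _
  · have e1 : (2 : k[X]) * ((S *ᵥ fun l => C (x l)) i * C (x j)) = C (2 * x j) * (S *ᵥ fun l => C (x l)) i := by
      rw [C_mul]
      have e2 : (C (2 : k) : k[X]) = 2 := by
        rw [map_ofNat]
      rw [e2]
      ring
    rw [e1]
    exact (natDegree_C_mul_le _ _).trans (h1 i)

private theorem G1_mul {k : Type} [Field k] {α β γ : Type} [Fintype β] (A : Matrix α β k[X]) (B : Matrix β γ k[X]) (a b : ℕ)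
    (hA : ∀ i j, (A i j).natDegree ≤ a) (hB : ∀ i j, (B i j).natDegree ≤ b) (i : α) (j : γ) :
    ((A * B) i j).natDegree ≤ a + b := by
  rw [Matrix.mul_apply]
  refine natDegree_sum_le_of_forall_le _ _ fun l _ => ?_
  exact natDegree_mul_le.trans (Nat.add_le_add (hA i l) (hB l j))

private theorem G1_pr {k : Type} [Field k] {ι : Type} [Fintype ι] [DecidableEq ι] (S : Matrix ι ι k[X]) (c : ℕ)
    (hS : ∀ i j, (S i j).natDegree ≤ c) (L : List ((ι → k[X]) × (ι → k[X])))
    (hL : ∀ p ∈ L, ∃ x y : ι → k, p = (fun l => C (x l), fun l => C (y l))) :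
    ∀ i j, (pr S L i j).natDegree ≤ 2 * L.length * c := by
  induction L with
  | nil =>
    intro i j
    show ((1 : Matrix ι ι k[X]) i j).natDegree ≤ _
    rw [Matrix.one_apply]
    split_ifs
    · rw [natDegree_one]
      exact Nat.zero_le _
    · rw [natDegree_zero]
      exact Nat.zero_le _
  | cons p L ih =>
    intro i j
    obtain ⟨x, y, rfl⟩ := hL _ List.mem_cons_self
    have e1 : pr S ((fun l => C (x l), fun l => C (y l)) :: L) =
        rf S (fun l => C (x l)) * rf S (fun l => C (y l)) * pr S L := by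
      unfold pr
      rw [List.map_cons, List.prod_cons]
    rw [e1]
    have h2 := G1_mul _ (pr S L) (c + c) (2 * L.length * c) (G1_mul _ _ c c (G1_rf S c hS x) (G1_rf S c hS y))
      (ih fun q hq => hL q (List.mem_cons_of_mem _ hq)) i j
    refine h2.trans (le_of_eq ?_)
    rw [List.length_cons]
    ring

theorem map_evG {k : Type} [Field k] {ι : Type} [Fintype ι] [DecidableEq ι] {r m : ℕ} (S : Matrix ι ι k[X]) (E : Matrix (Fin r) ι k[X])
    (z : Zc r ι → k) (φ : (Fin m → Pq r ι) → k[X]) :
    Polynomial.map (MvPolynomial.eval z) (evG S E m φ) = evp (pl (thF S E fun l => C (z l))) φ := by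
  have e0 : ∀ q : GR k r ι, Polynomial.map (MvPolynomial.eval z) q = Polynomial.mapRingHom (MvPolynomial.eval z) q :=
    fun q => rfl
  rw [evG_apply, e0, evp_map]
  have e1 : (fun t => Polynomial.mapRingHom (MvPolynomial.eval z) (gp S E t)) = pl (thF S E fun l => C (z l)) := by
    unfold gp
    rw [← pl_map', Vg, thF_map]
    have e2 : Matrix.map (Matrix.map S (cg k r ι)) (Polynomial.mapRingHom (MvPolynomial.eval z)) = S := by
      funext i j
      exact G1_cg z (S i j)
    have e3 : Matrix.map (Matrix.map E (cg k r ι)) (Polynomial.mapRingHom (MvPolynomial.eval z)) = E := by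
      funext i j
      exact G1_cg z (E i j)
    have e4 : (fun l => Polynomial.mapRingHom (MvPolynomial.eval z) (C (MvPolynomial.X l) : GR k r ι)) = fun l => C (z l) := by
      funext l
      show Polynomial.map (MvPolynomial.eval z) (C (MvPolynomial.X l)) = C (z l)
      rw [Polynomial.map_C, MvPolynomial.eval_X]
    rw [e2, e3, e4]
  have e5 : (fun s => Polynomial.mapRingHom (MvPolynomial.eval z) (cg k r ι (φ s))) = φ := by
    funext s
    exact G1_cg z (φ s)
  rw [e1, e5]

theorem eval_evT {k : Type} [Field k] {ι : Type} [Fintype ι] [DecidableEq ι] {r m : ℕ} (S : Matrix ι ι k[X]) (E : Matrix (Fin r) ι k[X])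
    (z : Zc r ι → k) (α : k) (φ : (Fin m → Pq r ι) → k[X]) :
    (evp (pl (thF S E fun l => C (z l))) φ).eval α =
      evp (pl (thF (Matrix.map S (eval α)) (Matrix.map E (eval α)) z)) fun s => (φ s).eval α := by
  have e0 : ∀ q : k[X], q.eval α = Polynomial.evalRingHom α q := fun q => rfl
  rw [e0, evp_map, ← pl_map', thF_map]
  have e4 : (fun l => Polynomial.evalRingHom α (C (z l))) = z := by
    funext l
    show (C (z l)).eval α = z l
    rw [Polynomial.eval_C]
  rw [e4]
  rfl

theorem evG_eq_zero {k : Type} [Field k] [Infinite k] {ι : Type} [Fintype ι] [DecidableEq ι] {r m : ℕ} (S : Matrix ι ι k[X])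
    (E : Matrix (Fin r) ι k[X]) (φ : (Fin m → Pq r ι) → k[X]) (h : ∀ z : Zc r ι → k, evp (pl (thF S E fun l => C (z l))) φ = 0) :
    evG S E m φ = 0 := by
  refine Polynomial.ext fun n => MvPolynomial.funext fun z => ?_
  have h1 := congrArg (fun q => Polynomial.coeff q n) ((map_evG S E z φ).trans (h z))
  simp only [Polynomial.coeff_map, Polynomial.coeff_zero] at h1
  rw [Polynomial.coeff_zero, map_zero]
  exact h1

theorem natDegree_evT {k : Type} [Field k] {ι : Type} [Fintype ι] [DecidableEq ι] {r m : ℕ} (S : Matrix ι ι k[X]) (E : Matrix (Fin r) ι k[X])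
    (c A : ℕ) (hS : ∀ i j, (S i j).natDegree ≤ c) (hE : ∀ i j, (E i j).natDegree ≤ c) (z : Zc r ι → k) (φ : (Fin m → Pq r ι) → k[X])
    (hφ : ∀ s, (φ s).natDegree ≤ A) : (evp (pl (thF S E fun l => C (z l))) φ).natDegree ≤ A + m * (r * ((2 * r + 1) * c)) := by
  have h1 : ∀ i j, (thF S E (fun l => C (z l)) i j).natDegree ≤ (2 * r + 1) * c := by
    intro i j
    have h2 := G1_pr S c hS (lz fun l : Zc r ι => C (z l)) (by
      intro p hp
      unfold lz at hp
      rw [List.mem_ofFn] at hp
      obtain ⟨i, rfl⟩ := hp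
      exact ⟨fun l => z (true, i, l), fun l => z (false, i, l), rfl⟩)
    have h3 : (lz fun l : Zc r ι => (C (z l) : k[X])).length = r := by
      unfold lz
      rw [List.length_ofFn]
    rw [h3] at h2
    refine (G1_mul E _ c (2 * r * c) hE h2 i j).trans (le_of_eq ?_)
    ring
  exact natDegree_evp _ (r * ((2 * r + 1) * c)) A (fun t => natDegree_pl _ _ h1 t) φ hφ

end MPadcEP
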