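import Pool.Agent.Lib.MP_adc574_ag_EP.V1

/-!
# LEAF G2: the spaces of functions (medium-, 9 short statements; model IP/Q8.lean)

* `mulzP_map`, `evp_mulzP`: copies from IP/Q8.lean. `evG_mulzP`: the two and `evG_apply`.
* `mem_SO`: `Submodule.mem_map`. `mulzP_DL`: each coefficient is a coefficient of `φ` or `0`.
* `so_fin`: the space `DL k r ι m A` is finite dimensional: it injects into `(Fin m → Pq r ι) → Fin (A + 1) → k` by the coefficients (`Module.Finite.of_injective`;
  a polynomial of degree `≤ A` with zero coefficients `0, .., A` is zero), and the image of a finite dimensional space is finite dimensional (`Module.Finite.map`).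
* `ZO_le`: `evG_mulzP`, `mulzP_DL`. `so_mono`: `DL` is monotone in `A`, `Submodule.map_mono`, `Submodule.finrank_mono` with `so_fin`.
* `finrank_ZO`: `LinearMap.mulLeft k (gp S E t₀)` is injective since `GR k r ι` is a domain; `Submodule.equivMapOfInjective`. `so_succ`: `finrank_ZO`, `ZO_le`, `Submodule.finrank_mono`.
* `so_pos`: `evG S E 0 (fun _ => 1) = 1 ≠ 0` is in `SO S E 0 0`: `Module.finrank_pos` (nontrivial, finite).
-/

set_option autoImplicit false

namespace MPadcEP

open Polynomial Matrix MPadcGM MPadcOA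

theorem mulzP_map {R S : Type*} [CommRing R] [CommRing S] {ι : Type} [DecidableEq ι] {r m : ℕ} (t₀ : Pq r ι) (f : R →+* S)
    (φ : (Fin m → Pq r ι) → R) (s : Fin (m + 1) → Pq r ι) : f (mulzP t₀ φ s) = mulzP t₀ (fun s => f (φ s)) s := by
  simp only [mulzP, apply_ite f, map_zero]

theorem evp_mulzP {R : Type*} [CommRing R] {ι : Type} [Fintype ι] [DecidableEq ι] {r m : ℕ} (t₀ : Pq r ι) (P : Pq r ι → R)
    (φ : (Fin m → Pq r ι) → R) : evp P (mulzP t₀ φ) = P t₀ * evp P φ := by
  unfold evp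
  rw [← (Fin.snocEquiv fun _ : Fin (m + 1) => Pq r ι).sum_comp, Fintype.sum_prod_type,
    Finset.sum_eq_single t₀, Finset.mul_sum]
  · refine Finset.sum_congr rfl fun s _ => ?_
    have h1 : (Fin.snocEquiv fun _ : Fin (m + 1) => Pq r ι) (t₀, s) = Fin.snoc (α := fun _ => Pq r ι) s t₀ := rfl
    rw [h1, Fin.prod_univ_castSucc]
    simp only [mulzP, Fin.snoc_last, Fin.snoc_castSucc, if_true]
    ring
  · intro t _ ht
    refine Finset.sum_eq_zero fun s _ => ?_
    have h1 : (Fin.snocEquiv fun _ : Fin (m + 1) => Pq r ι) (t, s) = Fin.snoc (α := fun _ => Pq r ι) s t := rfl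
    rw [h1]
    simp only [mulzP, Fin.snoc_last, if_neg ht, zero_mul]
  · intro ht
    exact absurd (Finset.mem_univ _) ht

theorem evG_mulzP {k : Type} [Field k] {ι : Type} [Fintype ι] [DecidableEq ι] {r m : ℕ} (S : Matrix ι ι k[X]) (E : Matrix (Fin r) ι k[X])
    (t₀ : Pq r ι) (φ : (Fin m → Pq r ι) → k[X]) : evG S E (m + 1) (mulzP t₀ φ) = gp S E t₀ * evG S E m φ := by
  have h1 : (fun s => cg k r ι (mulzP t₀ φ s)) = mulzP t₀ fun s => cg k r ι (φ s) := by
    funext s
    exact mulzP_map t₀ (cg k r ι) φ s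
  rw [evG_apply, h1, evp_mulzP]
  rfl

theorem mem_SO {k : Type} [Field k] {ι : Type} [Fintype ι] [DecidableEq ι] {r m A : ℕ} (S : Matrix ι ι k[X]) (E : Matrix (Fin r) ι k[X])
    (x : GR k r ι) : x ∈ SO S E m A ↔ ∃ φ : (Fin m → Pq r ι) → k[X], (∀ s, (φ s).natDegree ≤ A) ∧ evG S E m φ = x := by
  exact Submodule.mem_map

theorem mulzP_DL {k : Type} [Field k] {ι : Type} [DecidableEq ι] {r m A : ℕ} (t₀ : Pq r ι) (φ : (Fin m → Pq r ι) → k[X])
    (h : ∀ s, (φ s).natDegree ≤ A) : ∀ s, (mulzP t₀ φ s).natDegree ≤ A := by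
  intro s
  unfold mulzP
  split_ifs
  · exact h _
  · rw [natDegree_zero]
    exact Nat.zero_le _

/-- The space of the forms is finite dimensional. -/
private theorem G2_fin {k : Type} [Field k] {ι : Type} [Fintype ι] [DecidableEq ι] {r : ℕ} (m A : ℕ) :
    Module.Finite k (DL k r ι m A) := by
  let L : DL k r ι m A →ₗ[k] ((Fin m → Pq r ι) → Fin (A + 1) → k) :=
    { toFun := fun φ s i => (φ.1 s).coeff i
      map_add' := fun φ ψ => by
        funext s i
        exact coeff_add _ _ _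
      map_smul' := fun c φ => by
        funext s i
        exact coeff_smul c (φ.1 s) i }
  refine Module.Finite.of_injective L fun φ ψ h => ?_
  refine Subtype.ext (funext fun s => ?_)
  ext n
  by_cases hn : n ≤ A
  · exact congrFun (congrFun h s) ⟨n, Nat.lt_succ_of_le hn⟩
  · rw [coeff_eq_zero_of_natDegree_lt (lt_of_le_of_lt (φ.2 s) (not_le.1 hn)),
      coeff_eq_zero_of_natDegree_lt (lt_of_le_of_lt (ψ.2 s) (not_le.1 hn))]

theorem so_fin {k : Type} [Field k] {ι : Type} [Fintype ι] [DecidableEq ι] {r : ℕ} (S : Matrix ι ι k[X]) (E : Matrix (Fin r) ι k[X])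
    (m A : ℕ) : Module.Finite k (SO S E m A) := by
  have h1 : Module.Finite k (DL k r ι m A) := G2_fin m A
  unfold SO
  infer_instance

theorem ZO_le {k : Type} [Field k] {ι : Type} [Fintype ι] [DecidableEq ι] {r : ℕ} (S : Matrix ι ι k[X]) (E : Matrix (Fin r) ι k[X])
    (t₀ : Pq r ι) (m A : ℕ) : ZO S E t₀ m A ≤ SO S E (m + 1) A := by
  rintro _ ⟨_, ⟨φ, hφ, rfl⟩, rfl⟩
  exact ⟨mulzP t₀ φ, mulzP_DL t₀ φ hφ, evG_mulzP S E t₀ φ⟩

theorem so_mono {k : Type} [Field k] {ι : Type} [Fintype ι] [DecidableEq ι] {r : ℕ} (S : Matrix ι ι k[X]) (E : Matrix (Fin r) ι k[X])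
    (m A A' : ℕ) (h : A ≤ A') : so S E m A ≤ so S E m A' := by
  have : Module.Finite k (SO S E m A') := so_fin S E m A'
  exact Submodule.finrank_mono (Submodule.map_mono fun φ hφ s => (hφ s).trans h)

theorem finrank_ZO {k : Type} [Field k] {ι : Type} [Fintype ι] [DecidableEq ι] {r : ℕ} (S : Matrix ι ι k[X]) (E : Matrix (Fin r) ι k[X])
    (t₀ : Pq r ι) (h : gp S E t₀ ≠ 0) (m A : ℕ) : Module.finrank k (ZO S E t₀ m A) = so S E m A := by
  have hinj : Function.Injective (LinearMap.mulLeft k (gp S E t₀)) := by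
    intro x y h1
    exact mul_left_cancel₀ h h1
  exact (Submodule.equivMapOfInjective _ hinj (SO S E m A)).finrank_eq.symm

theorem so_succ {k : Type} [Field k] {ι : Type} [Fintype ι] [DecidableEq ι] {r : ℕ} (S : Matrix ι ι k[X]) (E : Matrix (Fin r) ι k[X])
    (t₀ : Pq r ι) (h : gp S E t₀ ≠ 0) (m A : ℕ) : so S E m A ≤ so S E (m + 1) A := by
  have : Module.Finite k (SO S E (m + 1) A) := so_fin S E (m + 1) A
  rw [← finrank_ZO S E t₀ h]
  exact Submodule.finrank_mono (ZO_le S E t₀ m A)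

theorem so_pos {k : Type} [Field k] {ι : Type} [Fintype ι] [DecidableEq ι] {r : ℕ} (S : Matrix ι ι k[X]) (E : Matrix (Fin r) ι k[X]) :
    0 < so S E 0 0 := by
  have : Module.Finite k (SO S E 0 0) := so_fin S E 0 0
  have h1 : evG S E 0 (fun _ => (1 : k[X])) = 1 := by
    rw [evG_apply, evp, Fintype.sum_unique, Finset.univ_eq_empty, Finset.prod_empty, mul_one, map_one]
  have h2 : (1 : GR k r ι) ∈ SO S E 0 0 := (mem_SO S E 1).2 ⟨fun _ => 1, fun _ => by rw [natDegree_one], h1⟩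
  have : Nontrivial (SO S E 0 0) := ⟨⟨1, h2⟩, 0, fun h3 => (one_ne_zero : (1 : GR k r ι) ≠ 0) (congrArg Subtype.val h3)⟩
  show 0 < Module.finrank k (SO S E 0 0)
  exact Module.finrank_pos_iff (R := k).2 this

end MPadcEP
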