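import Pool.Agent.Lib.MP_adc574_ag_EP.Defs

/-!
# LEAF G3: the dimension of the space of functions of degree `m` (medium-)

`evG S E m φ = ∑ s, cg (φ s) * ∏ i, gp S E (s i)`, and `∏ i, gp (s i) = ∏ t : Pq r ι, gp t ^ (n t)` with `n t = card {i | s i = t} ≤ m` (`Finset.prod_fiberwise`, `Finset.prod_comp`).
For `φ ∈ DL` it is a linear combination over `k` of the elements `cg (X ^ j) * ∏ t, gp t ^ (n t)`, `j : Fin (A + 1)`, `n : Pq r ι → Fin (m + 1)` (`Polynomial.as_sum_range'`, `evG` is linear:
or use `φ s = ∑ j ∈ range (A + 1), (coeff j) • X ^ j`). So `SO S E m A` is contained in the span of a family indexed by `Fin (A + 1) × (Pq r ι → Fin (m + 1))`, and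
`Submodule.finrank_mono` (the span of a finite family is finite dimensional: `Module.Finite.span_of_finite` / `FiniteDimensional.span_of_finite`), `finrank_range_le_card`.
-/

set_option autoImplicit false

namespace MPadcEP

open Polynomial Matrix MPadcGM MPadcOA

private theorem G3_cg_smul {k : Type} [Field k] {ι : Type} {r : ℕ} (c : k) (P : k[X]) :
    cg k r ι (c • P) = c • cg k r ι P := by
  rw [Polynomial.smul_eq_C_mul, map_mul, Algebra.smul_def]
  refine congrArg (· * _) ?_
  show Polynomial.map MvPolynomial.C (C c) = _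
  rw [Polynomial.map_C]
  rfl

private theorem G3_prod {R : Type*} [CommRing R] {m : ℕ} {τ : Type} [Fintype τ] [DecidableEq τ] (g : τ → R) (s : Fin m → τ) :
    ∏ i, g (s i) = ∏ t, g t ^ (Finset.univ.filter fun i => s i = t).card := by
  rw [← Finset.prod_fiberwise Finset.univ s fun i => g (s i)]
  refine Finset.prod_congr rfl fun t _ => ?_
  rw [← Finset.prod_const]
  refine Finset.prod_congr rfl fun i hi => ?_
  rw [(Finset.mem_filter.mp hi).2]

theorem so_le {k : Type} [Field k] {ι : Type} [Fintype ι] [DecidableEq ι] {r : ℕ} (S : Matrix ι ι k[X]) (E : Matrix (Fin r) ι k[X])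
    (m A : ℕ) : so S E m A ≤ (A + 1) * (m + 1) ^ Fintype.card (Pq r ι) := by
  classical
  let f : Fin (A + 1) × (Pq r ι → Fin (m + 1)) → GR k r ι := fun p =>
    cg k r ι (X ^ (p.1 : ℕ)) * ∏ t, gp S E t ^ ((p.2 t : Fin (m + 1)) : ℕ)
  have hle : SO S E m A ≤ Submodule.span k (Set.range f) := by
    rintro _ ⟨φ, hφ, rfl⟩
    have hφ' : ∀ s, (φ s).natDegree ≤ A := hφ
    rw [evG_apply]
    unfold evp
    refine Submodule.sum_mem _ fun s _ => ?_
    have hexp : φ s = ∑ j ∈ Finset.range (A + 1), (φ s).coeff j • (X : k[X]) ^ j := by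
      have h := Polynomial.as_sum_range' (φ s) (A + 1) (Nat.lt_succ_of_le (hφ' s))
      rw [h]
      refine Finset.sum_congr rfl fun j _ => ?_
      rw [← h, Polynomial.smul_eq_C_mul, Polynomial.C_mul_X_pow_eq_monomial]
    show cg k r ι (φ s) * ∏ i, gp S E (s i) ∈ Submodule.span k (Set.range f)
    rw [hexp, map_sum, Finset.sum_mul]
    refine Submodule.sum_mem _ fun j hj => ?_
    rw [G3_cg_smul, smul_mul_assoc]
    refine Submodule.smul_mem _ _ ?_
    rw [G3_prod (gp S E) s]
    have hcard : ∀ t, (Finset.univ.filter fun i => s i = t).card < m + 1 := fun t => by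
      have := Finset.card_le_univ (Finset.univ.filter fun i => s i = t)
      rw [Fintype.card_fin] at this
      exact Nat.lt_succ_of_le this
    refine Submodule.subset_span ⟨(⟨j, Finset.mem_range.mp hj⟩, fun t => ⟨_, hcard t⟩), rfl⟩
  have : Module.Finite k (Submodule.span k (Set.range f)) :=
    Module.Finite.span_of_finite k (Set.finite_range f)
  calc so S E m A = Module.finrank k (SO S E m A) := rfl
    _ ≤ Module.finrank k (Submodule.span k (Set.range f)) := Submodule.finrank_mono hle
    _ ≤ Fintype.card (Fin (A + 1) × (Pq r ι → Fin (m + 1))) := finrank_range_le_card f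
    _ = (A + 1) * (m + 1) ^ Fintype.card (Pq r ι) := by
      rw [Fintype.card_prod, Fintype.card_fin, Fintype.card_fun, Fintype.card_fin]

end MPadcEP
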