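import Pool.Agent.Lib.MP_adc574_ag_EP.M5

/-!
# LEAF M6: Witt's theorem with `r` pairs of reflections (medium-)

By induction on `n ≤ r`: there are `x y : Fin n → ι → E` with all `(x i, x i) ≠ 0`, `(y i, y i) ≠ 0`, and `μ ≠ 0`, `U'` with `U' * S * U'ᵀ = 0`, rows of `U'` independent, `U' j = V j` for all `j < n`, and
`U * pr S (List.ofFn fun i => (x i, y i)) = μ • U'`. Step: `witt_step` (M5) for `U'`, `V` and the row `n` gives `x`, `y`, `μ'`; `U'' = μ'⁻¹ • (U' * (rf S x * rf S y))`; isotropic by `pr_iso` (M1) (or `rf_iso`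
twice), independent rows because `rf S x * rf S y` is invertible (`pr_det` for the list `[(x, y)]`; `LinearIndependent.map'` for `Matrix.vecMulLinear`, or a right inverse).
`List.ofFn_succ'` with `Fin.snoc`, `List.concat_eq_append`, `pr S (L ++ [p]) = pr S L * (rf S p.1 * rf S p.2)`.
For `n = r`: `U' = V`; `z (b, i, l) = if b then x i l else y i l` (`cond b (x i l) (y i l)`), `lz z = List.ofFn fun i => (x i, y i)` by `rfl`-type computations (`thF S U z = U * pr S (lz z)`).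
-/

set_option autoImplicit false

namespace MPadcEP

open Polynomial Matrix MPadcGM MPadcOA

private theorem M6_li {E : Type*} [Field E] {ι : Type} [Fintype ι] [DecidableEq ι] {r : ℕ} (U : Matrix (Fin r) ι E)
    (A : Matrix ι ι E) (hA : A.det ≠ 0) (li : LinearIndependent E fun i => U i) :
    LinearIndependent E fun i => (U * A) i := by
  have hA' : IsUnit A.det := isUnit_iff_ne_zero.2 hA
  rw [Fintype.linearIndependent_iff] at li ⊢
  intro c hc
  refine li c ?_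
  have h1 : (∑ i, c i • U i) ᵥ* A = 0 := by
    rw [← hc, Matrix.sum_vecMul]
    refine Finset.sum_congr rfl fun i _ => ?_
    rw [Matrix.smul_vecMul, Matrix.mul_apply_eq_vecMul]
  have h2 : ((∑ i, c i • U i) ᵥ* A) ᵥ* A⁻¹ = 0 := by rw [h1, Matrix.zero_vecMul]
  rwa [Matrix.vecMul_vecMul, Matrix.mul_nonsing_inv A hA', Matrix.vecMul_one] at h2

private theorem M6_ind {E : Type*} [Field E] (h2 : (2 : E) ≠ 0) {ι : Type} [Fintype ι] [DecidableEq ι] {r : ℕ}
    (hr : 2 * r < Fintype.card ι) (S : Matrix ι ι E) (hS : Sᵀ = S) (hd : S.det ≠ 0) (U V : Matrix (Fin r) ι E)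
    (hU : U * S * Uᵀ = 0) (hV : V * S * Vᵀ = 0) (liU : LinearIndependent E fun i => U i)
    (liV : LinearIndependent E fun i => V i) (n : ℕ) (hn : n ≤ r) :
    ∃ L : List ((ι → E) × (ι → E)), L.length = n ∧ (∀ p ∈ L, p.1 ⬝ᵥ S *ᵥ p.1 ≠ 0 ∧ p.2 ⬝ᵥ S *ᵥ p.2 ≠ 0) ∧
      ∃ (μ : E) (U' : Matrix (Fin r) ι E), μ ≠ 0 ∧ U' * S * U'ᵀ = 0 ∧ (LinearIndependent E fun i => U' i) ∧
        (∀ j : Fin r, (j : ℕ) < n → U' j = V j) ∧ U * pr S L = μ • U' := by
  induction n with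
  | zero =>
    refine ⟨[], rfl, fun p hp => absurd hp List.not_mem_nil, 1, U, one_ne_zero, hU, liU,
      fun j hj => absurd hj (Nat.not_lt_zero _), ?_⟩
    show U * 1 = (1 : E) • U
    rw [Matrix.mul_one, one_smul]
  | succ n ih =>
    obtain ⟨L, hL, hL1, μ, U', hμ, hU', liU', hUV, hUL⟩ := ih (by omega)
    obtain ⟨x, y, hx, hy, μ', hμ', hxy⟩ := witt_step h2 hr S hS hd U' V hU' hV liU' liV ⟨n, by omega⟩
      fun j hj => hUV j hj
    have hp1 : pr S [(x, y)] = rf S x * rf S y := by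
      show (List.map (fun p : (ι → E) × (ι → E) => rf S p.1 * rf S p.2) [(x, y)]).prod = _
      rw [List.map_cons, List.map_nil, List.prod_singleton]
    have hL2 : ∀ p ∈ [(x, y)], p.1 ⬝ᵥ S *ᵥ p.1 ≠ 0 ∧ p.2 ⬝ᵥ S *ᵥ p.2 ≠ 0 := by
      intro p hp
      rw [List.mem_singleton.1 hp]
      exact ⟨hx, hy⟩
    have hdet := pr_det S [(x, y)] hL2
    obtain ⟨a, ha⟩ := pr_iso S hS [(x, y)]
    obtain ⟨A, hA⟩ : ∃ A : Matrix ι ι E, A = pr S [(x, y)] := ⟨_, rfl⟩
    rw [← hA] at hdet ha hp1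
    rw [← hp1] at hxy
    refine ⟨L ++ [(x, y)], by rw [List.length_append, hL, List.length_singleton], fun p hp => ?_, μ * μ',
      U' * (μ'⁻¹ • A), mul_ne_zero hμ hμ', ?_, ?_, fun j hj => ?_, ?_⟩
    · rcases List.mem_append.1 hp with h | h
      · exact hL1 p h
      · exact hL2 p h
    · have h1 : U' * (μ'⁻¹ • A) * S * (U' * (μ'⁻¹ • A))ᵀ = (μ'⁻¹ * μ'⁻¹ * a) • (U' * S * U'ᵀ) := by
        have h3 : U' * A * S * (Aᵀ * U'ᵀ) = U' * (A * S * Aᵀ) * U'ᵀ := by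
          simp only [Matrix.mul_assoc]
        rw [Matrix.mul_smul, Matrix.transpose_smul, Matrix.transpose_mul, Matrix.smul_mul, Matrix.smul_mul,
          Matrix.mul_smul, h3, ha, Matrix.mul_smul, Matrix.smul_mul, smul_smul, smul_smul, mul_assoc]
      rw [h1, hU', smul_zero]
    · refine M6_li U' _ ?_ liU'
      rw [Matrix.det_smul]
      exact mul_ne_zero (pow_ne_zero _ (inv_ne_zero hμ')) hdet
    · have h1 := hxy j (Nat.lt_succ_iff.1 hj)
      rw [Matrix.mul_smul]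
      show μ'⁻¹ • (U' * A) j = V j
      rw [h1, smul_smul, inv_mul_cancel₀ hμ', one_smul]
    · have h1 : pr S (L ++ [(x, y)]) = pr S L * A := by
        rw [hA]
        unfold pr
        rw [List.map_append, List.prod_append]
      rw [h1, ← Matrix.mul_assoc, hUL, Matrix.smul_mul, Matrix.mul_smul, smul_smul, mul_assoc,
        mul_inv_cancel₀ hμ', mul_one]

theorem witt {E : Type*} [Field E] (h2 : (2 : E) ≠ 0) {ι : Type} [Fintype ι] [DecidableEq ι] {r : ℕ} (hr : 2 * r < Fintype.card ι)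
    (S : Matrix ι ι E) (hS : Sᵀ = S) (hd : S.det ≠ 0) (U V : Matrix (Fin r) ι E) (hU : U * S * Uᵀ = 0) (hV : V * S * Vᵀ = 0)
    (liU : LinearIndependent E fun i => U i) (liV : LinearIndependent E fun i => V i) :
    ∃ z : Zc r ι → E, (∀ p ∈ lz z, p.1 ⬝ᵥ S *ᵥ p.1 ≠ 0 ∧ p.2 ⬝ᵥ S *ᵥ p.2 ≠ 0) ∧ ∃ μ : E, μ ≠ 0 ∧ thF S U z = μ • V := by
  obtain ⟨L, hL, hL1, μ, U', hμ, -, -, hUV, hUL⟩ := M6_ind h2 hr S hS hd U V hU hV liU liV r le_rfl
  obtain ⟨z, hz⟩ : ∃ z : Zc r ι → E, lz z = L := by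
    refine ⟨fun t => if t.1 = true then (L.get (Fin.cast hL.symm t.2.1)).1 t.2.2 else
      (L.get (Fin.cast hL.symm t.2.1)).2 t.2.2, ?_⟩
    unfold lz
    refine List.ext_getElem ?_ fun i h1 h2 => ?_
    · rw [List.length_ofFn, hL]
    · rw [List.getElem_ofFn]
      rfl
  have hV' : U' = V := funext fun j => hUV j j.2
  refine ⟨z, ?_, μ, hμ, ?_⟩
  · rw [hz]
    exact hL1
  · unfold thF
    rw [hz, hUL, hV']

end MPadcEP
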