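import Pool.Agent.Lib.MP_adc574_ag_EP.M1
import Pool.Agent.Lib.MP_adc574_ag_EP.V1

/-!
# LEAF M8: isotropic frames with a given nonzero minor (medium)

Write `(u, w) = u ⬝ᵥ S *ᵥ w`. For a frame `V` let `M i j = V i (t₀ j)`, `pl V t₀ = det M`, and let `K V = {c : Fin r → E | c ᵥ* M = 0}` be the left kernel. By strong induction on `finrank (K U)`: if it is `0` then
`det M ≠ 0` (`Matrix.exists_vecMul_eq_zero_iff`). Otherwise `r ≥ 1`, and there are `c ≠ 0` with `c ᵥ* M = 0` and `d ≠ 0` with `M *ᵥ d = 0` (`Matrix.exists_mulVec_eq_zero_iff`). There is a vector `x` with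
(1) `(c ᵥ* U) ⬝ᵥ S *ᵥ x ≠ 0`, (2) `∑ j, x (t₀ j) * d j ≠ 0`, (3) `(x, x) ≠ 0`: the three expressions are polynomials in the coordinates of `x`, none of them is zero as a function:
(1) `c ᵥ* U ≠ 0` by independence of the rows, and `S` is invertible; (2) `d ≠ 0`, `t₀` injective; (3) otherwise `(x, y) = 0` for all `x`, `y` (`2 ≠ 0`), but `det S ≠ 0` and `ι` is not empty; so their
product is a nonzero `MvPolynomial` over an infinite field and has a nonzero value (`MvPolynomial.funext`); or by hand on lines: if `f`, `g` are nonzero polynomials in one variable then so is `f g`.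
Let `U' = U * rf S x`, again isotropic (`rf_iso`) with independent rows (`rf S x * rf S x = (x, x) ^ 2 • 1`), `M' = (x, x) M - 2 a bᵀ`, `a i = (U i, x)`, `b j = x (t₀ j)` (`vecMul_rf` for each row).
`K U' < K U`: if `c' ᵥ* M' = 0` then `(x, x) c' ᵥ* M = 2 (c' ⬝ᵥ a) b`; the product with `d` gives `0 = 2 (c' ⬝ᵥ a) (b ⬝ᵥ d)`, so `c' ⬝ᵥ a = 0` by (2), so `c' ∈ K U`; and `c ∉ K U'` because `c ∈ K U`
and `c ⬝ᵥ a ≠ 0` by (1). `Submodule.finrank_lt_finrank_of_lt`.
-/

set_option autoImplicit false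

namespace MPadcEP

open Polynomial Matrix MPadcGM MPadcOA

private theorem M8_ex {E : Type*} [Field E] [Infinite E] (h2 : (2 : E) ≠ 0) {ι : Type} [Fintype ι] [DecidableEq ι] {r : ℕ}
    (S : Matrix ι ι E) (hS : Sᵀ = S) (hd : S.det ≠ 0) (t₀ : Fin r → ι) (ht : Function.Injective t₀) (a : ι → E) (ha : a ≠ 0)
    (d : Fin r → E) (hd' : d ≠ 0) : ∃ x : ι → E, a ⬝ᵥ x ≠ 0 ∧ ∑ j, x (t₀ j) * d j ≠ 0 ∧ x ⬝ᵥ S *ᵥ x ≠ 0 := by
  classical
  obtain ⟨l0, hl0⟩ := Function.ne_iff.1 ha
  obtain ⟨j0, hj0⟩ := Function.ne_iff.1 hd'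
  let p1 : MvPolynomial ι E := ∑ l, MvPolynomial.C (a l) * MvPolynomial.X l
  let p2 : MvPolynomial ι E := ∑ j, MvPolynomial.X (t₀ j) * MvPolynomial.C (d j)
  let p3 : MvPolynomial ι E := ∑ l, MvPolynomial.X l * ∑ l', MvPolynomial.C (S l l') * MvPolynomial.X l'
  have e1 : ∀ x : ι → E, MvPolynomial.eval x p1 = a ⬝ᵥ x := by
    intro x
    show MvPolynomial.eval x (∑ l, MvPolynomial.C (a l) * MvPolynomial.X l) = ∑ l, a l * x l
    rw [map_sum]
    refine Finset.sum_congr rfl fun l _ => ?_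
    rw [map_mul, MvPolynomial.eval_C, MvPolynomial.eval_X]
  have e2 : ∀ x : ι → E, MvPolynomial.eval x p2 = ∑ j, x (t₀ j) * d j := by
    intro x
    show MvPolynomial.eval x (∑ j, MvPolynomial.X (t₀ j) * MvPolynomial.C (d j)) = _
    rw [map_sum]
    refine Finset.sum_congr rfl fun l _ => ?_
    rw [map_mul, MvPolynomial.eval_C, MvPolynomial.eval_X]
  have e3 : ∀ x : ι → E, MvPolynomial.eval x p3 = x ⬝ᵥ S *ᵥ x := by
    intro x
    show MvPolynomial.eval x (∑ l, MvPolynomial.X l * ∑ l', MvPolynomial.C (S l l') * MvPolynomial.X l') =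
      ∑ l, x l * ∑ l', S l l' * x l'
    rw [map_sum]
    refine Finset.sum_congr rfl fun l _ => ?_
    rw [map_mul, MvPolynomial.eval_X, map_sum]
    refine congrArg (x l * ·) (Finset.sum_congr rfl fun l' _ => ?_)
    rw [map_mul, MvPolynomial.eval_C, MvPolynomial.eval_X]
  have n1 : p1 ≠ 0 := by
    intro h
    have h1 := e1 (Pi.single l0 1)
    rw [h, map_zero, dotProduct_single_one] at h1
    exact hl0 h1.symm
  have n2 : p2 ≠ 0 := by
    intro h
    have h1 := e2 (Pi.single (t₀ j0) 1)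
    rw [h, map_zero, Finset.sum_eq_single j0] at h1
    · rw [Pi.single_eq_same, one_mul] at h1
      exact hj0 h1.symm
    · intro j _ hj
      rw [Pi.single_eq_of_ne (fun h => hj (ht h)), zero_mul]
    · exact fun h => absurd (Finset.mem_univ _) h
  have n3 : p3 ≠ 0 := by
    intro h
    have hq : ∀ x : ι → E, x ⬝ᵥ S *ᵥ x = 0 := fun x => by rw [← e3, h, map_zero]
    have hsym : ∀ x y : ι → E, y ⬝ᵥ S *ᵥ x = x ⬝ᵥ S *ᵥ y := by
      intro x y
      rw [dotProduct_mulVec, dotProduct_comm, ← mulVec_transpose, hS]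
    have hB : ∀ x y : ι → E, x ⬝ᵥ S *ᵥ y = 0 := by
      intro x y
      have h1 := hq (x + y)
      rw [mulVec_add, dotProduct_add, add_dotProduct, add_dotProduct, hq x, hq y, hsym x y, zero_add, add_zero,
        ← two_mul] at h1
      exact (mul_eq_zero.1 h1).resolve_left h2
    have h3 : S = 0 := by
      ext i j
      have h4 := hB (Pi.single i 1) (Pi.single j 1)
      rw [mulVec_single_one, single_one_dotProduct] at h4
      exact h4
    have : Nonempty ι := ⟨l0⟩
    rw [h3, det_zero] at hd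
    exact hd rfl
  have n : p1 * p2 * p3 ≠ 0 := mul_ne_zero (mul_ne_zero n1 n2) n3
  by_contra hne
  push Not at hne
  apply n
  apply MvPolynomial.funext
  intro x
  rw [map_zero, map_mul, map_mul, e1, e2, e3]
  by_cases h1 : a ⬝ᵥ x = 0
  · rw [h1, zero_mul, zero_mul]
  · by_cases h3 : ∑ j, x (t₀ j) * d j = 0
    · rw [h3, mul_zero, zero_mul]
    · rw [hne x h1 h3, mul_zero]

private theorem M8_ind {E : Type*} [Field E] [Infinite E] (h2 : (2 : E) ≠ 0) {ι : Type} [Fintype ι] [DecidableEq ι] {r : ℕ}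
    (S : Matrix ι ι E) (hS : Sᵀ = S) (hd : S.det ≠ 0) (t₀ : Pq r ι) (ht : Function.Injective t₀) :
    ∀ (n : ℕ) (U : Matrix (Fin r) ι E), U * S * Uᵀ = 0 → (LinearIndependent E fun i => U i) →
      Module.finrank E (LinearMap.ker (Matrix.of fun i j => U i (t₀ j) : Matrix (Fin r) (Fin r) E).vecMulLinear) = n →
      ∃ V : Matrix (Fin r) ι E, V * S * Vᵀ = 0 ∧ (LinearIndependent E fun i => V i) ∧ pl V t₀ ≠ 0 := by
  classical
  intro n
  induction n using Nat.strong_induction_on with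
  | _ n ih =>
    intro U hU liU hn
    obtain ⟨M, hM⟩ : ∃ M : Matrix (Fin r) (Fin r) E, M = Matrix.of fun i j => U i (t₀ j) := ⟨_, rfl⟩
    have hMij : ∀ i j, M i j = U i (t₀ j) := fun i j => by rw [hM]; rfl
    by_cases hdet : pl U t₀ = 0
    swap
    · exact ⟨U, hU, liU, hdet⟩
    have hdM : M.det = 0 := by
      rw [hM]
      exact hdet
    obtain ⟨c, hc0, hc⟩ := Matrix.exists_vecMul_eq_zero_iff.2 hdM
    obtain ⟨d, hd0, hdv⟩ := Matrix.exists_mulVec_eq_zero_iff.2 hdM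
    have hcU : c ᵥ* U ≠ 0 := by
      intro h
      apply hc0
      rw [Fintype.linearIndependent_iff] at liU
      funext i
      refine liU c ?_ i
      funext l
      rw [Finset.sum_apply]
      exact congrFun h l
    have ha : (c ᵥ* U) ᵥ* S ≠ 0 := fun h => hcU (Matrix.eq_zero_of_vecMul_eq_zero hd h)
    obtain ⟨x, hx1, hx2, hx3⟩ := M8_ex h2 S hS hd t₀ ht _ ha d hd0
    obtain ⟨q, hq⟩ : ∃ q, q = x ⬝ᵥ S *ᵥ x := ⟨_, rfl⟩
    rw [← hq] at hx3
    obtain ⟨U', hU'⟩ : ∃ U', U' = U * rf S x := ⟨_, rfl⟩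
    have hrow : ∀ i l, U' i l = q * U i l - 2 * (U i ⬝ᵥ S *ᵥ x) * x l := by
      intro i l
      have h3 := congrFun (vecMul_rf S x (U i)) l
      rw [hU', hq]
      exact h3
    have hiso : U' * S * U'ᵀ = 0 := by
      have h3 : U' * S * U'ᵀ = U * (rf S x * S * (rf S x)ᵀ) * Uᵀ := by
        rw [hU', transpose_mul]
        simp only [Matrix.mul_assoc]
      rw [h3, rf_iso S hS, Matrix.mul_smul, Matrix.smul_mul, hU, smul_zero]
    have hli : LinearIndependent E fun i => U' i := by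
      rw [Fintype.linearIndependent_iff] at liU ⊢
      intro v hv
      have h3 : v ᵥ* U' = 0 := by
        funext l
        have h4 := congrFun hv l
        rw [Finset.sum_apply] at h4
        exact h4
      have h4 : (v ᵥ* U') ᵥ* rf S x = (q ^ 2) • (v ᵥ* U) := by
        rw [hU', vecMul_vecMul, Matrix.mul_assoc, rf_mul_self, ← hq, Matrix.mul_smul, Matrix.mul_one, vecMul_smul]
      rw [h3, zero_vecMul] at h4
      have h5 : v ᵥ* U = 0 := (smul_eq_zero.1 h4.symm).resolve_left (pow_ne_zero _ hx3)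
      refine liU v ?_
      funext l
      rw [Finset.sum_apply]
      exact congrFun h5 l
    obtain ⟨M', hM'⟩ : ∃ M' : Matrix (Fin r) (Fin r) E, M' = Matrix.of fun i j => U' i (t₀ j) := ⟨_, rfl⟩
    have hMij' : ∀ i j, M' i j = q * M i j - 2 * (U i ⬝ᵥ S *ᵥ x) * x (t₀ j) := fun i j => by
      rw [hM', hMij]
      exact hrow i (t₀ j)
    have hsum : ∀ (c' : Fin r → E) (j : Fin r), (c' ᵥ* M') j =
        q * (c' ᵥ* M) j - 2 * (∑ i, c' i * (U i ⬝ᵥ S *ᵥ x)) * x (t₀ j) := by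
      intro c' j
      show ∑ i, c' i * M' i j = q * ∑ i, c' i * M i j - _
      rw [Finset.mul_sum, Finset.mul_sum, Finset.sum_mul, ← Finset.sum_sub_distrib]
      refine Finset.sum_congr rfl fun i _ => ?_
      rw [hMij']
      ring
    have hs0 : ∀ c' : Fin r → E, c' ᵥ* M' = 0 → ∑ i, c' i * (U i ⬝ᵥ S *ᵥ x) = 0 := by
      intro c' hc'
      have h3 : ∑ j, (c' ᵥ* M') j * d j = 0 := by
        rw [hc']
        simp
      have h4 : ∑ j, (c' ᵥ* M') j * d j = q * ((c' ᵥ* M) ⬝ᵥ d) -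
          2 * (∑ i, c' i * (U i ⬝ᵥ S *ᵥ x)) * ∑ j, x (t₀ j) * d j := by
        rw [show (c' ᵥ* M) ⬝ᵥ d = ∑ j, (c' ᵥ* M) j * d j from rfl, Finset.mul_sum, Finset.mul_sum,
          ← Finset.sum_sub_distrib]
        refine Finset.sum_congr rfl fun j _ => ?_
        rw [hsum]
        ring
      rw [h3, ← dotProduct_mulVec, hdv, dotProduct_zero, mul_zero, zero_sub, eq_comm, neg_eq_zero] at h4
      exact (mul_eq_zero.1 ((mul_eq_zero.1 h4).resolve_right hx2)).resolve_left h2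
    have hlt : LinearMap.ker M'.vecMulLinear < LinearMap.ker M.vecMulLinear := by
      refine lt_of_le_of_ne (fun c' hc' => ?_) fun h => ?_
      · rw [LinearMap.mem_ker, Matrix.vecMulLinear_apply] at hc' ⊢
        have h3 := hs0 c' hc'
        funext j
        have h4 := hsum c' j
        rw [hc', h3, mul_zero, zero_mul, sub_zero] at h4
        exact (mul_eq_zero.1 h4.symm).resolve_left hx3
      · have h3 : c ∈ LinearMap.ker M.vecMulLinear := by
          rw [LinearMap.mem_ker, Matrix.vecMulLinear_apply]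
          exact hc
        rw [← h, LinearMap.mem_ker, Matrix.vecMulLinear_apply] at h3
        have h4 := hs0 c h3
        apply hx1
        rw [← dotProduct_mulVec, ← h4]
        show (c ᵥ* U) ⬝ᵥ S *ᵥ x = c ⬝ᵥ fun i => U i ⬝ᵥ S *ᵥ x
        rw [← dotProduct_mulVec]
        rfl
    have h5 := Submodule.finrank_lt_finrank_of_lt hlt
    rw [hM'] at h5
    exact ih _ (lt_of_lt_of_eq h5 (by rw [hM]; exact hn)) U' hiso hli rfl

theorem exists_minor {E : Type*} [Field E] [Infinite E] (h2 : (2 : E) ≠ 0) {ι : Type} [Fintype ι] [DecidableEq ι] {r : ℕ}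
    (S : Matrix ι ι E) (hS : Sᵀ = S) (hd : S.det ≠ 0) (t₀ : Pq r ι) (ht : Function.Injective t₀) (U : Matrix (Fin r) ι E)
    (hU : U * S * Uᵀ = 0) (liU : LinearIndependent E fun i => U i) :
    ∃ V : Matrix (Fin r) ι E, V * S * Vᵀ = 0 ∧ (LinearIndependent E fun i => V i) ∧ pl V t₀ ≠ 0 := by
  exact M8_ind h2 S hS hd t₀ ht _ U hU liU rfl

end MPadcEP
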