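import Pool.Agent.Lib.MP_adc574_ag_EP.G1
import Pool.Agent.Lib.MP_adc574_ag_EP.M6
import Pool.Agent.Lib.MP_adc574_ag_EP.M8

/-!
# LEAF G4: the minor of the generic frame is not zero (easy+)

Choose `α` with `Δ(α) ≠ 0` (`k` infinite: `Polynomial.funext`). Let `T = D.S.map (eval α)` (symmetric, `det ≠ 0`), `E₀ = D.E.map (eval α)` (isotropic: `congrArg (Matrix.map · (eval α))` of `hD.isoE` with
`Matrix.map_mul` for `evalRingHom α`; independent rows: `hD.rkE`). By `exists_minor` (M8) there is an isotropic frame `V` with independent rows and `pl V t₀ ≠ 0`, by `witt` (M6) there is `z` with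
`thF T E₀ z = μ • V`, `μ ≠ 0`. The value of `gp D.S D.E t₀` at `z` and `α` is `pl (thF T E₀ z) t₀ = μ ^ r * pl V t₀ ≠ 0`: use `map_evG`, `eval_evT` (G1) for the form
`φ : (Fin 1 → Pq r ι) → k[X]`, `φ s = if s 0 = t₀ then 1 else 0`, with `evp P φ = P t₀` (`Fin.prod_univ_one`, `Finset.sum_eq_single (fun _ => t₀)`), or `pl_map'`, `thF_map` directly.
-/

set_option autoImplicit false

namespace MPadcEP

open Polynomial Matrix MPadcGM MPadcOA

theorem gp_ne {k : Type} [Field k] [Infinite k] (h2 : (2 : k) ≠ 0) {ι : Type} [Fintype ι] [DecidableEq ι] {r c : ℕ}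
    (hr : 2 * r < Fintype.card ι) (D : FrR r ι k) (hD : D.Ok c) (t₀ : Pq r ι) (ht : Function.Injective t₀) : gp D.S D.E t₀ ≠ 0 := by
  intro h0
  obtain ⟨α, hα⟩ : ∃ α : k, D.Δ.eval α ≠ 0 := by
    by_contra hc
    push Not at hc
    apply hD.ne
    apply Polynomial.funext
    intro x
    rw [hc x, Polynomial.eval_zero]
  have hTs : (Matrix.map D.S (eval α))ᵀ = Matrix.map D.S (eval α) := by
    rw [← Matrix.transpose_map, hD.symm]
  have hdet : (Matrix.map D.S (eval α)).det ≠ 0 := hD.detS α hα
  have hiso : Matrix.map D.E (eval α) * Matrix.map D.S (eval α) * (Matrix.map D.E (eval α))ᵀ = 0 := by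
    have h1 := congrArg (fun M => Matrix.map M (evalRingHom α)) hD.isoE
    simp only [Matrix.map_mul] at h1
    rw [Matrix.map_zero _ (map_zero _)] at h1
    exact h1
  have hli : LinearIndependent k fun i => Matrix.map D.E (eval α) i := hD.rkE α hα
  obtain ⟨V, hV, liV, hpl⟩ := exists_minor h2 _ hTs hdet t₀ ht _ hiso hli
  obtain ⟨z, -, μ, hμ, hth⟩ := witt h2 hr _ hTs hdet _ V hiso hV hli liV
  have hfc : ∀ P : k[X], ((evalRingHom α).comp (Polynomial.mapRingHom (MvPolynomial.eval z)))
      (cg k r ι P) = P.eval α := by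
    intro P
    rw [RingHom.comp_apply, cg, Polynomial.coe_mapRingHom, Polynomial.coe_mapRingHom,
      Polynomial.map_map]
    have h3 : (MvPolynomial.eval z).comp MvPolynomial.C = RingHom.id k := by
      apply RingHom.ext
      intro a
      rw [RingHom.comp_apply, MvPolynomial.eval_C, RingHom.id_apply]
    rw [h3, Polynomial.map_id, Polynomial.coe_evalRingHom]
  have hfx : ∀ l, ((evalRingHom α).comp (Polynomial.mapRingHom (MvPolynomial.eval z)))
      (C (MvPolynomial.X l)) = z l := by
    intro l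
    rw [RingHom.comp_apply, Polynomial.coe_mapRingHom, Polynomial.map_C, MvPolynomial.eval_X,
      Polynomial.coe_evalRingHom, Polynomial.eval_C]
  have h1 : ((evalRingHom α).comp (Polynomial.mapRingHom (MvPolynomial.eval z))) (gp D.S D.E t₀) =
      pl (thF (Matrix.map D.S (eval α)) (Matrix.map D.E (eval α)) z) t₀ := by
    rw [gp, pl_map, Vg, thF_map, Matrix.map_map, Matrix.map_map]
    have e1 : (D.S.map (⇑((evalRingHom α).comp (Polynomial.mapRingHom (MvPolynomial.eval z))) ∘
        ⇑(cg k r ι))) = Matrix.map D.S (eval α) := by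
      ext i j
      exact hfc _
    have e2 : (D.E.map (⇑((evalRingHom α).comp (Polynomial.mapRingHom (MvPolynomial.eval z))) ∘
        ⇑(cg k r ι))) = Matrix.map D.E (eval α) := by
      ext i j
      exact hfc _
    rw [e1, e2]
    simp only [hfx]
  rw [h0, map_zero, hth, pl_smul, Pi.smul_apply, smul_eq_mul] at h1
  exact (mul_ne_zero (pow_ne_zero _ hμ) hpl) h1.symm

end MPadcEP
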