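import Pool.Agent.Lib.MP_adc574_ag_EP.Defs

/-!
# LEAF M1: scaled reflections (medium-, 7 short statements)

Write `(u, w) = u ⬝ᵥ S *ᵥ w` (symmetric for `hS`). `rf S x = (x, x) • 1 - 2 • vecMulVec (S *ᵥ x) x`.
* `vecMul_rf`: `Matrix.vecMul_sub`, `Matrix.vecMul_smul`, `Matrix.vecMul_one`, `u ᵥ* vecMulVec a x = (u ⬝ᵥ a) • x` (entrywise).
* `rf_mul_self`: the row `u` goes to `(x, x) [(x, x) u - 2 (u, x) x] - 2 [(x, x) (u, x) - 2 (u, x) (x, x)] x = (x, x) ^ 2 u`; or directly: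
  `vecMulVec a x * vecMulVec a x = (x ⬝ᵥ a) • vecMulVec a x` with `a = S *ᵥ x`, so the product is `q² - 4 q • vecMulVec a x + 4 q • vecMulVec a x`, `q = (x, x)`.
* `rf_iso`: with `a = S *ᵥ x`, `R = q - 2 a xᵀ`, `Rᵀ = q - 2 x aᵀ`: `R S Rᵀ = q² S - 2 q S x aᵀ - 2 q a xᵀ S + 4 a (xᵀ S x) aᵀ` and `S x = a`, `xᵀ S = aᵀ`, `xᵀ S x = q`:
  `q² S - 2 q a aᵀ - 2 q a aᵀ + 4 q a aᵀ = q² S`.
* `rf_map`, `pr_map`, `thF_map`: `Matrix.map_sub`, `RingHom.mapMatrix`, `map_list_prod`, `List.map_map`, `List.map_ofFn`.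
* `pr_iso`: induction over the list: `P = A P'`, `A = rf S x * rf S y`, `A P' S P'ᵀ Aᵀ = a' • A S Aᵀ`, and `rf_iso` twice. `thF_iso`: `E P S Pᵀ Eᵀ = a • E S Eᵀ = 0`.
* `pr_det`: if all vectors are not isotropic then `pr S L` has a right inverse up to a factor: from `rf_mul_self`, `det (rf S x) ^ 2 = (q ^ 2) ^ card ι ≠ 0`, so `det (rf S x) ≠ 0`; `Matrix.det_mul`.
-/

set_option autoImplicit false

namespace MPadcEP

open Polynomial Matrix MPadcGM MPadcOA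

private theorem M1_vm {R : Type*} [CommRing R] {ι : Type} [Fintype ι] (u a x : ι → R) :
    u ᵥ* vecMulVec a x = (u ⬝ᵥ a) • x := by
  ext j
  simp only [Matrix.vecMul, dotProduct, Matrix.vecMulVec_apply, Pi.smul_apply, smul_eq_mul, Finset.sum_mul, mul_assoc]

private theorem M1_vv {R : Type*} [CommRing R] {ι : Type} [Fintype ι] (a b c d : ι → R) :
    vecMulVec a b * vecMulVec c d = (b ⬝ᵥ c) • vecMulVec a d := by
  ext i j
  simp only [Matrix.mul_apply, Matrix.vecMulVec_apply, Matrix.smul_apply, dotProduct, smul_eq_mul, Finset.sum_mul]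
  exact Finset.sum_congr rfl fun l _ => by ring

theorem vecMul_rf {R : Type*} [CommRing R] {ι : Type} [Fintype ι] [DecidableEq ι] (S : Matrix ι ι R) (x u : ι → R) :
    u ᵥ* rf S x = (x ⬝ᵥ S *ᵥ x) • u - (2 * (u ⬝ᵥ S *ᵥ x)) • x := by
  unfold rf
  rw [Matrix.vecMul_sub, Matrix.vecMul_smul, Matrix.vecMul_one, Matrix.vecMul_smul, M1_vm, smul_smul]

theorem rf_mul_self {R : Type*} [CommRing R] {ι : Type} [Fintype ι] [DecidableEq ι] (S : Matrix ι ι R) (x : ι → R) :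
    rf S x * rf S x = ((x ⬝ᵥ S *ᵥ x) ^ 2) • (1 : Matrix ι ι R) := by
  have h1 : vecMulVec (S *ᵥ x) x * vecMulVec (S *ᵥ x) x = (x ⬝ᵥ S *ᵥ x) • vecMulVec (S *ᵥ x) x := M1_vv _ _ _ _
  unfold rf
  rw [sub_mul, mul_sub, mul_sub, Matrix.smul_mul, Matrix.smul_mul, Matrix.smul_mul, Matrix.smul_mul, Matrix.mul_smul,
    Matrix.mul_smul, Matrix.mul_smul, Matrix.mul_smul, Matrix.one_mul, Matrix.one_mul, Matrix.mul_one, h1]
  module

theorem rf_iso {R : Type*} [CommRing R] {ι : Type} [Fintype ι] [DecidableEq ι] (S : Matrix ι ι R) (hS : Sᵀ = S) (x : ι → R) :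
    rf S x * S * (rf S x)ᵀ = ((x ⬝ᵥ S *ᵥ x) ^ 2) • S := by
  have h1 : vecMulVec (S *ᵥ x) x * S = vecMulVec (S *ᵥ x) (S *ᵥ x) := by
    rw [Matrix.vecMulVec_mul, ← Matrix.mulVec_transpose, hS]
  have h2 : S * vecMulVec x (S *ᵥ x) = vecMulVec (S *ᵥ x) (S *ᵥ x) := by
    rw [Matrix.mul_vecMulVec]
  have h3 : vecMulVec (S *ᵥ x) (S *ᵥ x) * vecMulVec x (S *ᵥ x) = (x ⬝ᵥ S *ᵥ x) • vecMulVec (S *ᵥ x) (S *ᵥ x) := by
    rw [M1_vv, dotProduct_comm]
  have h4 : (rf S x)ᵀ = (x ⬝ᵥ S *ᵥ x) • (1 : Matrix ι ι R) - (2 : R) • vecMulVec x (S *ᵥ x) := by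
    unfold rf
    rw [Matrix.transpose_sub, Matrix.transpose_smul, Matrix.transpose_smul, Matrix.transpose_one,
      Matrix.transpose_vecMulVec]
  rw [h4]
  unfold rf
  rw [sub_mul, Matrix.smul_mul, Matrix.smul_mul, Matrix.one_mul, h1, mul_sub, sub_mul, sub_mul, Matrix.smul_mul,
    Matrix.smul_mul, Matrix.smul_mul, Matrix.smul_mul, Matrix.mul_smul, Matrix.mul_smul, Matrix.mul_smul,
    Matrix.mul_smul, Matrix.mul_one, Matrix.mul_one, h2, h3]
  module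

theorem rf_map {R R' : Type*} [CommRing R] [CommRing R'] {ι : Type} [Fintype ι] [DecidableEq ι] (f : R →+* R') (S : Matrix ι ι R)
    (x : ι → R) : Matrix.map (rf S x) f = rf (Matrix.map S f) fun l => f (x l) := by
  ext i j
  simp only [rf, Matrix.map_apply, Matrix.sub_apply, Matrix.smul_apply, Matrix.vecMulVec_apply, Matrix.mulVec,
    dotProduct, smul_eq_mul, map_sub, map_mul, map_sum, map_ofNat, Matrix.one_apply, apply_ite f, map_one, map_zero]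

theorem pr_map {R R' : Type*} [CommRing R] [CommRing R'] {ι : Type} [Fintype ι] [DecidableEq ι] (f : R →+* R') (S : Matrix ι ι R)
    (L : List ((ι → R) × (ι → R))) :
    Matrix.map (pr S L) f = pr (Matrix.map S f) (L.map fun p => (fun l => f (p.1 l), fun l => f (p.2 l))) := by
  induction L with
  | nil =>
    show Matrix.map (1 : Matrix ι ι R) f = 1
    exact Matrix.map_one f (map_zero f) (map_one f)
  | cons p L ih =>
    show Matrix.map (rf S p.1 * rf S p.2 * pr S L) f = _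
    rw [Matrix.map_mul, Matrix.map_mul, ih, rf_map, rf_map]
    rfl

theorem thF_map {R R' : Type*} [CommRing R] [CommRing R'] {ι : Type} [Fintype ι] [DecidableEq ι] {r : ℕ} (f : R →+* R') (S : Matrix ι ι R)
    (E : Matrix (Fin r) ι R) (z : Zc r ι → R) :
    Matrix.map (thF S E z) f = thF (Matrix.map S f) (Matrix.map E f) fun l => f (z l) := by
  unfold thF
  rw [Matrix.map_mul, pr_map]
  unfold lz
  rw [List.map_ofFn]
  rfl

theorem pr_iso {R : Type*} [CommRing R] {ι : Type} [Fintype ι] [DecidableEq ι] (S : Matrix ι ι R) (hS : Sᵀ = S)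
    (L : List ((ι → R) × (ι → R))) : ∃ a : R, pr S L * S * (pr S L)ᵀ = a • S := by
  induction L with
  | nil =>
    refine ⟨1, ?_⟩
    show (1 : Matrix ι ι R) * S * (1 : Matrix ι ι R)ᵀ = _
    rw [Matrix.transpose_one, Matrix.one_mul, Matrix.mul_one, one_smul]
  | cons p L ih =>
    obtain ⟨a, ha⟩ := ih
    refine ⟨a * (p.2 ⬝ᵥ S *ᵥ p.2) ^ 2 * (p.1 ⬝ᵥ S *ᵥ p.1) ^ 2, ?_⟩
    show rf S p.1 * rf S p.2 * pr S L * S * (rf S p.1 * rf S p.2 * pr S L)ᵀ = _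
    have h1 : rf S p.1 * rf S p.2 * pr S L * S * (rf S p.1 * rf S p.2 * pr S L)ᵀ =
        rf S p.1 * (rf S p.2 * (pr S L * S * (pr S L)ᵀ) * (rf S p.2)ᵀ) * (rf S p.1)ᵀ := by
      rw [Matrix.transpose_mul, Matrix.transpose_mul]
      simp only [Matrix.mul_assoc]
    rw [h1, ha, Matrix.mul_smul, Matrix.smul_mul, rf_iso S hS, Matrix.mul_smul, Matrix.mul_smul, Matrix.smul_mul,
      Matrix.smul_mul, rf_iso S hS, smul_smul, smul_smul]

theorem pr_det {F : Type*} [Field F] {ι : Type} [Fintype ι] [DecidableEq ι] (S : Matrix ι ι F) (L : List ((ι → F) × (ι → F)))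
    (hL : ∀ p ∈ L, p.1 ⬝ᵥ S *ᵥ p.1 ≠ 0 ∧ p.2 ⬝ᵥ S *ᵥ p.2 ≠ 0) : (pr S L).det ≠ 0 := by
  have h1 : ∀ x : ι → F, x ⬝ᵥ S *ᵥ x ≠ 0 → (rf S x).det ≠ 0 := by
    intro x hx h
    have h2 := congrArg Matrix.det (rf_mul_self S x)
    rw [Matrix.det_mul, h, zero_mul, Matrix.det_smul, Matrix.det_one, mul_one] at h2
    exact pow_ne_zero _ (pow_ne_zero 2 hx) h2.symm
  induction L with
  | nil =>
    show (1 : Matrix ι ι F).det ≠ 0
    rw [Matrix.det_one]
    exact one_ne_zero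
  | cons p L ih =>
    show (rf S p.1 * rf S p.2 * pr S L).det ≠ 0
    rw [Matrix.det_mul, Matrix.det_mul]
    exact mul_ne_zero (mul_ne_zero (h1 _ (hL p List.mem_cons_self).1) (h1 _ (hL p List.mem_cons_self).2))
      (ih fun p' hp' => hL p' (List.mem_cons_of_mem _ hp'))

theorem thF_iso {R : Type*} [CommRing R] {ι : Type} [Fintype ι] [DecidableEq ι] {r : ℕ} (S : Matrix ι ι R) (hS : Sᵀ = S)
    (E : Matrix (Fin r) ι R) (hE : E * S * Eᵀ = 0) (z : Zc r ι → R) : thF S E z * S * (thF S E z)ᵀ = 0 := by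
  obtain ⟨a, ha⟩ := pr_iso S hS (lz z)
  unfold thF
  have h1 : E * pr S (lz z) * S * (E * pr S (lz z))ᵀ = E * (pr S (lz z) * S * (pr S (lz z))ᵀ) * Eᵀ := by
    rw [Matrix.transpose_mul]
    simp only [Matrix.mul_assoc]
  rw [h1, ha, Matrix.mul_smul, Matrix.smul_mul, hE, smul_zero]

end MPadcEP
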