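import Pool.Agent.Lib.MP_adc574_ag_EP.Defs

/-!
# LEAF M2: the derivatives of the minors (medium, copy from IP/Q20.lean)

Let the rows satisfy `Δ * derivative (N i l) = (N * G) i l + (nu * N') i l`, where `N' : Matrix (Fin g) ι R[X]` and every row of `N'` with a non-zero coefficient in the row `i` of `nu` is a row
of `N` different from the row `i`. Then the minors are horizontal. This is the proof of `horU` in `low_ok` (IP/Q20.lean; its private lemmas `Q20_der`, `Q20_swap`, `Q20_colsum`, `Q20_rowsum` have to be
copied with names `M2_`; `Q20_der` for a commutative ring in place of the field). With `A i j = N i (t j)`, `pl N t = det A`: `derivative (det A) = ∑ j, det (A with the column j derived)`;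
`Δ * derivative (A i j) = ∑ c, N i c * G c (t j) + ∑ b, nu i b * N' b (t j)`; the second part gives `∑ i, ∑ b, nu i b * det (A with the row i replaced by N' b (t ·)) = 0` since
for `nu i b ≠ 0` the row `N' b` is the row `i' ≠ i` of `N` (`hnu`; `Matrix.det_zero_of_row_eq`).
`derivative_pl` is the case `nu = 0` (`g = 0`).
-/

set_option autoImplicit false

namespace MPadcEP

open Polynomial Matrix MPadcGM MPadcOA

private theorem M2_der {k : Type*} [CommRing k] {r : ℕ} (A : Matrix (Fin r) (Fin r) k[X]) :
    derivative A.det = ∑ j, (A.updateCol j fun i => derivative (A i j)).det := by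
  have h1 : ∀ j : Fin r, (A.updateCol j fun i => derivative (A i j)).det =
      ∑ σ : Equiv.Perm (Fin r), (((Equiv.Perm.sign σ : ℤ) : k[X]) *
        ((∏ i ∈ Finset.univ.erase j, A (σ i) i) * derivative (A (σ j) j))) := by
    intro j
    rw [Matrix.det_apply']
    refine Finset.sum_congr rfl fun σ _ => congrArg _ ?_
    rw [← Finset.prod_erase_mul _ _ (Finset.mem_univ j), updateCol_self]
    refine congrArg (· * derivative (A (σ j) j)) ?_
    exact Finset.prod_congr rfl fun i hi => updateCol_ne (Finset.ne_of_mem_erase hi)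
  rw [Matrix.det_apply', derivative_sum, Finset.sum_congr rfl fun j _ => h1 j, Finset.sum_comm]
  refine Finset.sum_congr rfl fun σ _ => ?_
  rw [← Finset.mul_sum, ← derivative_prod_finset, derivative_mul, derivative_intCast, zero_mul,
    zero_add]

private theorem M2_swap {S : Type*} [CommRing S] {r : ℕ} (A B : Matrix (Fin r) (Fin r) S) :
    ∑ j, (A.updateCol j fun i => B i j).det = ∑ i, (A.updateRow i (B i)).det := by
  have h1 : ∀ j, (A.updateCol j fun i => B i j).det = ∑ i, A.adjugate j i * B i j := by
    intro j
    rw [← cramer_apply, cramer_eq_adjugate_mulVec]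
    rfl
  have h2 : ∀ i, (A.updateRow i (B i)).det = ∑ j, A.adjugate j i * B i j := by
    intro i
    rw [← cramer_transpose_apply, cramer_eq_adjugate_mulVec, ← adjugate_transpose]
    rfl
  rw [Finset.sum_congr rfl fun j _ => h1 j, Finset.sum_congr rfl fun j _ => h2 j,
    Finset.sum_comm]

private theorem M2_colsum {S ι : Type*} [CommRing S] [Fintype ι] {r : ℕ}
    (A : Matrix (Fin r) (Fin r) S) (j : Fin r) (a : ι → S) (f : ι → Fin r → S) :
    (A.updateCol j fun i => ∑ c, a c * f c i).det = ∑ c, a c * (A.updateCol j (f c)).det := by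
  have h1 : (fun i => ∑ c, a c * f c i) = ∑ c, a c • f c := by
    funext i
    rw [Finset.sum_apply]
    rfl
  rw [← cramer_apply, h1, map_sum, Finset.sum_apply]
  refine Finset.sum_congr rfl fun c _ => ?_
  rw [map_smul, Pi.smul_apply, smul_eq_mul, cramer_apply]

private theorem M2_rowsum {S ι : Type*} [CommRing S] [Fintype ι] {r : ℕ}
    (A : Matrix (Fin r) (Fin r) S) (i : Fin r) (a : ι → S) (f : ι → Fin r → S) :
    (A.updateRow i fun j => ∑ c, a c * f c j).det = ∑ c, a c * (A.updateRow i (f c)).det := by
  have h1 : (fun j => ∑ c, a c * f c j) = ∑ c, a c • f c := by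
    funext j
    rw [Finset.sum_apply]
    rfl
  rw [← cramer_transpose_apply, h1, map_sum, Finset.sum_apply]
  refine Finset.sum_congr rfl fun c _ => ?_
  rw [map_smul, Pi.smul_apply, smul_eq_mul, cramer_transpose_apply]

theorem derivative_pl_nu {R : Type*} [CommRing R] {ι : Type} [Fintype ι] [DecidableEq ι] {r g : ℕ} (Δ : R[X]) (N : Matrix (Fin r) ι R[X])
    (G : Matrix ι ι R[X]) (nu : Matrix (Fin r) (Fin g) R[X]) (N' : Matrix (Fin g) ι R[X])
    (h : ∀ i l, Δ * derivative (N i l) = (N * G) i l + (nu * N') i l)
    (hnu : ∀ i b, nu i b ≠ 0 → ∃ i', i' ≠ i ∧ N i' = N' b) (t : Pq r ι) :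
    Δ * derivative (pl N t) = ∑ j, ∑ c, pl N (Function.update t j c) * G c (t j) := by
  set A : Matrix (Fin r) (Fin r) R[X] := Matrix.of fun i j => N i (t j) with hA
  set B : Matrix (Fin r) (Fin r) R[X] :=
    Matrix.of fun i j => ∑ b, nu i b * N' b (t j) with hB
  have h0 : pl N t = A.det := rfl
  have hzero : ∑ j, (A.updateCol j fun i => B i j).det = 0 := by
    rw [M2_swap]
    refine Finset.sum_eq_zero fun i _ => ?_
    have h1 := M2_rowsum A i (fun b => nu i b) (fun b j => N' b (t j))
    refine h1.trans (Finset.sum_eq_zero fun b _ => ?_)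
    by_cases hb : nu i b = 0
    · rw [hb, zero_mul]
    · obtain ⟨i', hne, h2⟩ := hnu i b hb
      rw [det_zero_of_row_eq hne, mul_zero]
      rw [updateRow_self, updateRow_ne hne]
      funext j
      show N i' (t j) = N' b (t j)
      rw [h2]
  have hcol : ∀ j, Δ * (A.updateCol j fun i => derivative (A i j)).det =
      ∑ c, pl N (Function.update t j c) * G c (t j) +
        (A.updateCol j fun i => B i j).det := by
    intro j
    have h1 : (Δ • fun i => derivative (A i j)) =
        (fun i => ∑ c, G c (t j) * N i c) + fun i => B i j := by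
      funext i
      show Δ * derivative (N i (t j)) = _
      rw [h]
      show (N * G) i (t j) + (nu * N') i (t j) =
        ∑ c, G c (t j) * N i c + ∑ b, nu i b * N' b (t j)
      rw [Matrix.mul_apply, Matrix.mul_apply]
      refine congrArg (· + _) (Finset.sum_congr rfl fun c _ => mul_comm _ _)
    rw [← det_updateCol_smul, h1, det_updateCol_add]
    refine congrArg (· + _) ?_
    refine (M2_colsum A j (fun c => G c (t j)) (fun c i => N i c)).trans ?_
    refine Finset.sum_congr rfl fun c _ => ?_
    rw [mul_comm]
    refine congrArg (· * _) (congrArg Matrix.det ?_)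
    ext1 i j'
    show _ = N i (Function.update t j c j')
    by_cases hj : j' = j
    · subst hj
      rw [updateCol_self, Function.update_self]
    · rw [updateCol_ne hj, Function.update_of_ne hj]
      rfl
  rw [h0, M2_der, Finset.mul_sum, Finset.sum_congr rfl fun j _ => hcol j,
    Finset.sum_add_distrib, hzero, add_zero]

theorem derivative_pl {R : Type*} [CommRing R] {ι : Type} [Fintype ι] [DecidableEq ι] {r : ℕ} (Δ : R[X]) (N : Matrix (Fin r) ι R[X])
    (G : Matrix ι ι R[X]) (h : ∀ i l, Δ * derivative (N i l) = (N * G) i l) (t : Pq r ι) :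
    Δ * derivative (pl N t) = ∑ j, ∑ c, pl N (Function.update t j c) * G c (t j) := by
  refine derivative_pl_nu Δ N G (0 : Matrix (Fin r) (Fin 0) R[X]) 0 (fun i l => ?_) (fun i b => b.elim0) t
  rw [h, Matrix.zero_mul, Matrix.zero_apply, add_zero]

end MPadcEP
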