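import Pool.Agent.Lib.MP_adc574_ag_EP.M1
import Pool.Agent.Lib.MP_adc574_ag_EP.M2
import Pool.Agent.Lib.MP_adc574_ag_EP.V1

/-!
# LEAF M3: a space of forms which is stable under the orthogonal Lie algebra and vanishes at `V` vanishes at `V` moved by a pair of reflections (HARD-, one path argument)

Write `(u, w) = u ⬝ᵥ S *ᵥ w`, `wd S u w = S * (vecMulVec w u - vecMulVec u w)` (OE/ED.lean).
Put `z = y - x` and, over `F[X]` (all matrices mapped by `C`), `x_s = C x + X • C z` (the vector `l ↦ C (x l) + X * C (z l)`), `N = C V * rf (C S) (C x) * rf (C S) x_s`.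
* At `X = 0`: `N = V * rf S x * rf S x = (x, x) ^ 2 • V` (`rf_mul_self`), at `X = 1`: `N = V * (rf S x * rf S y)` (`rf_map` for `evalRingHom 0`, `evalRingHom 1`).
* DERIVATIVE: let `a = (x_s, x_s)`, `b = (x_s, z) : F[X]`, `R = rf (C S) x_s = a - 2 (S x_s) x_sᵀ`. Entrywise the derivative of `R` is `R' = 2 b - 2 (S z) x_sᵀ - 2 (S x_s) zᵀ`
  (`derivative x_s = z`, `hS`), and `a R' = R * (2 b • 1 + 2 • wd S z x_s)` with `wd S z x_s = S (x_s zᵀ - z x_sᵀ)`. Indeed
  `R * (2 b + 2 S x_s zᵀ - 2 S z x_sᵀ) = 2 a b + 2 a S x_s zᵀ - 2 a S z x_sᵀ - 4 b (S x_s) x_sᵀ - 4 (S x_s) (x_sᵀ S x_s) zᵀ + 4 (S x_s) (x_sᵀ S z) x_sᵀ`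
  `= 2 a b - 2 a S x_s zᵀ - 2 a S z x_sᵀ = a R'`. Moreover `wd S z x_s = wd S z (C x)` because `wd S z z = 0`: it is the constant matrix `C (wd S z x)`.
  So `a * derivative (N i l) = (N * G) i l` with `G = 2 b • 1 + 2 • C (wd S z x)` and `derivative_pl` (M2), `derivative_evp` (V1; the form `C φ` is constant, `opP a G (C φ) = actP G (C φ)`)
  give for `f φ = evp (pl N) (C φ) : F[X]`: `a * derivative (f φ) = 2 b r m * f φ + 2 * f (actP (wd S z x) φ)` (`actP` of a scalar matrix `c` is `r m c`; `evp_add`, `evp_smul`).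
* For `φ ∈ W` also `ψ = actP (wd S z x) φ ∈ W` (`hW`). CLAIM: `X ^ n ∣ f φ` for all `φ ∈ W` and all `n`. For `n = 1`: `(f φ).eval 0 = evp (pl ((x, x) ^ 2 • V)) φ = 0` (`pl_smul`, `evp_scale`, `h0`).
  Step `n → n + 1`, `n ≥ 1`: `X ^ n ∣ a * derivative (f φ)` and `a.eval 0 = (x, x) ≠ 0`, so `X ^ n ∣ derivative (f φ)` (coprime); with `(f φ).eval 0 = 0` and characteristic zero `X ^ (n + 1) ∣ f φ`
  (`Polynomial.X_pow_dvd_iff`, `coeff_derivative`). So `f φ = 0` (its degree is finite), and its value at `1` is `evp (pl (V * (rf S x * rf S y))) φ = 0`.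
-/

set_option autoImplicit false

namespace MPadcEP

open Polynomial Matrix MPadcGM MPadcOA

private theorem M3_symm {A : Type*} [CommRing A] {ι : Type} [Fintype ι] (S : Matrix ι ι A) (hS : Sᵀ = S)
    (u v : ι → A) : v ⬝ᵥ S *ᵥ u = u ⬝ᵥ S *ᵥ v := by
  rw [Matrix.dotProduct_mulVec, ← Matrix.mulVec_transpose, hS, dotProduct_comm]

private theorem M3_key {A : Type*} [CommRing A] {ι : Type} [Fintype ι] [DecidableEq ι] (S : Matrix ι ι A)
    (u v : ι → A) : rf S u * ((2 * (u ⬝ᵥ S *ᵥ v)) • (1 : Matrix ι ι A) +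
      (2 : A) • (vecMulVec (S *ᵥ u) v - vecMulVec (S *ᵥ v) u)) =
      (u ⬝ᵥ S *ᵥ u) • ((2 * (u ⬝ᵥ S *ᵥ v)) • (1 : Matrix ι ι A) - (2 : A) • vecMulVec (S *ᵥ v) u -
        (2 : A) • vecMulVec (S *ᵥ u) v) := by
  obtain ⟨a, ha⟩ : ∃ a : A, u ⬝ᵥ S *ᵥ u = a := ⟨_, rfl⟩
  obtain ⟨b, hb⟩ : ∃ b : A, u ⬝ᵥ S *ᵥ v = b := ⟨_, rfl⟩
  have h1 : vecMulVec (S *ᵥ u) u * vecMulVec (S *ᵥ u) v = a • vecMulVec (S *ᵥ u) v := by
    rw [Matrix.vecMulVec_mul_vecMulVec, ha]
    ext i j
    simp only [vecMulVec_apply, Matrix.smul_apply, Pi.smul_apply, smul_eq_mul]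
    ring
  have h2 : vecMulVec (S *ᵥ u) u * vecMulVec (S *ᵥ v) u = b • vecMulVec (S *ᵥ u) u := by
    rw [Matrix.vecMulVec_mul_vecMulVec, hb]
    ext i j
    simp only [vecMulVec_apply, Matrix.smul_apply, Pi.smul_apply, smul_eq_mul]
    ring
  unfold rf
  rw [ha, hb, sub_mul, mul_add, mul_add, Matrix.smul_mul, Matrix.smul_mul, Matrix.smul_mul, Matrix.smul_mul,
    Matrix.one_mul, Matrix.one_mul, Matrix.mul_smul, Matrix.mul_smul, Matrix.mul_one, Matrix.mul_sub, h1, h2]
  ext i j
  simp only [Matrix.smul_apply, Matrix.sub_apply, Matrix.add_apply, smul_eq_mul]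
  ring

private theorem M3_dxs {F : Type*} [Field F] (p q : F) : derivative (C p + X * C q : F[X]) = C q := by
  rw [derivative_add, derivative_C, derivative_mul, derivative_X, derivative_C]
  ring

private theorem M3_dmul {F : Type*} [Field F] {ι : Type} [Fintype ι] (S : Matrix ι ι F) (x z : ι → F) (i : ι) :
    derivative ((Matrix.map S C *ᵥ fun l => (C (x l) + X * C (z l) : F[X])) i) =
      (Matrix.map S C *ᵥ fun l => (C (z l) : F[X])) i := by
  simp only [Matrix.mulVec, dotProduct, Matrix.map_apply, derivative_sum]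
  refine Finset.sum_congr rfl fun l _ => ?_
  rw [derivative_C_mul, M3_dxs]

private theorem M3_ddot {F : Type*} [Field F] {ι : Type} [Fintype ι] (S : Matrix ι ι F) (hS : Sᵀ = S)
    (x z : ι → F) :
    derivative ((fun l => (C (x l) + X * C (z l) : F[X])) ⬝ᵥ
        Matrix.map S C *ᵥ fun l => (C (x l) + X * C (z l) : F[X])) =
      2 * ((fun l => (C (x l) + X * C (z l) : F[X])) ⬝ᵥ Matrix.map S C *ᵥ fun l => (C (z l) : F[X])) := by
  have hS' : (Matrix.map S (C : F →+* F[X]))ᵀ = Matrix.map S C := by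
    rw [← Matrix.transpose_map, hS]
  have h1 : derivative ((fun l => (C (x l) + X * C (z l) : F[X])) ⬝ᵥ
        Matrix.map S C *ᵥ fun l => (C (x l) + X * C (z l) : F[X])) =
      (fun l => (C (z l) : F[X])) ⬝ᵥ (Matrix.map S C *ᵥ fun l => (C (x l) + X * C (z l) : F[X])) +
      (fun l => (C (x l) + X * C (z l) : F[X])) ⬝ᵥ Matrix.map S C *ᵥ fun l => (C (z l) : F[X]) := by
    rw [dotProduct, derivative_sum, dotProduct, dotProduct, ← Finset.sum_add_distrib]
    refine Finset.sum_congr rfl fun l _ => ?_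
    rw [derivative_mul, M3_dxs, M3_dmul]
  rw [h1, M3_symm _ hS', two_mul]

private theorem M3_drf {F : Type*} [Field F] {ι : Type} [Fintype ι] [DecidableEq ι] (S : Matrix ι ι F) (hS : Sᵀ = S)
    (x z : ι → F) (i j : ι) :
    derivative (rf (Matrix.map S C) (fun l => (C (x l) + X * C (z l) : F[X])) i j) =
      ((2 * ((fun l => (C (x l) + X * C (z l) : F[X])) ⬝ᵥ Matrix.map S C *ᵥ fun l => (C (z l) : F[X]))) •
          (1 : Matrix ι ι F[X]) -
        (2 : F[X]) • vecMulVec (Matrix.map S C *ᵥ fun l => (C (z l) : F[X]))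
          (fun l => (C (x l) + X * C (z l) : F[X])) -
        (2 : F[X]) • vecMulVec (Matrix.map S C *ᵥ fun l => (C (x l) + X * C (z l) : F[X]))
          (fun l => (C (z l) : F[X]))) i j := by
  have h1 : derivative ((1 : Matrix ι ι F[X]) i j) = 0 := by
    rw [Matrix.one_apply]
    split_ifs
    · exact derivative_one
    · exact derivative_zero
  have h2 : derivative (2 : F[X]) = 0 := by
    exact derivative_ofNat 2
  unfold rf
  simp only [Matrix.smul_apply, Matrix.sub_apply, smul_eq_mul, vecMulVec_apply, derivative_sub, derivative_mul,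
    h1, h2, M3_ddot S hS, M3_dxs, M3_dmul]
  ring

private theorem M3_wd {F : Type*} [Field F] {ι : Type} [Fintype ι] (S : Matrix ι ι F) (x z : ι → F) :
    vecMulVec (Matrix.map S C *ᵥ fun l => (C (x l) + X * C (z l) : F[X])) (fun l => (C (z l) : F[X])) -
      vecMulVec (Matrix.map S C *ᵥ fun l => (C (z l) : F[X])) (fun l => (C (x l) + X * C (z l) : F[X])) =
      Matrix.map (MPadcOE.wd S z x) C := by
  have h1 : (Matrix.map S C *ᵥ fun l => (C (x l) + X * C (z l) : F[X])) =
      fun i => C ((S *ᵥ x) i) + X * C ((S *ᵥ z) i) := by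
    funext i
    simp only [Matrix.mulVec, dotProduct, Matrix.map_apply, map_sum, Finset.mul_sum]
    rw [← Finset.sum_add_distrib]
    refine Finset.sum_congr rfl fun l _ => ?_
    rw [C_mul, C_mul]
    ring
  have h2 : (Matrix.map S C *ᵥ fun l => (C (z l) : F[X])) = fun i => C ((S *ᵥ z) i) := by
    funext i
    simp only [Matrix.mulVec, dotProduct, Matrix.map_apply, map_sum]
    refine Finset.sum_congr rfl fun l _ => ?_
    rw [C_mul]
  have h3 : MPadcOE.wd S z x = vecMulVec (S *ᵥ x) z - vecMulVec (S *ᵥ z) x := by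
    unfold MPadcOE.wd
    rw [Matrix.mul_sub, Matrix.mul_vecMulVec, Matrix.mul_vecMulVec]
  rw [h1, h2, h3]
  ext i j : 1
  simp only [Matrix.sub_apply, vecMulVec_apply, Matrix.map_apply]
  rw [C_sub, C_mul, C_mul]
  ring

private theorem M3_act {A : Type*} [CommRing A] {ι : Type} [Fintype ι] [DecidableEq ι] {r m : ℕ} (c : A)
    (w : Matrix ι ι A) (Φ : (Fin m → Pq r ι) → A) (s : Fin m → Pq r ι) :
    actP (c • (1 : Matrix ι ι A) + (2 : A) • w) Φ s = (m * r * c) * Φ s + 2 * actP w Φ s := by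
  have h1 : ∀ (i : Fin m) (j : Fin r), ∑ c' : ι, (c • (1 : Matrix ι ι A) + (2 : A) • w) (s i j) c' *
      Φ (Function.update s i (Function.update (s i) j c')) =
      c * Φ s + 2 * ∑ c' : ι, w (s i j) c' * Φ (Function.update s i (Function.update (s i) j c')) := by
    intro i j
    have h2 : ∀ c' : ι, (c • (1 : Matrix ι ι A) + (2 : A) • w) (s i j) c' *
        Φ (Function.update s i (Function.update (s i) j c')) =
        (if s i j = c' then c * Φ (Function.update s i (Function.update (s i) j c')) else 0) +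
        2 * (w (s i j) c' * Φ (Function.update s i (Function.update (s i) j c'))) := by
      intro c'
      rw [Matrix.add_apply, Matrix.smul_apply, Matrix.smul_apply, Matrix.one_apply, smul_eq_mul, smul_eq_mul]
      split_ifs
      · ring
      · ring
    rw [Finset.sum_congr rfl fun c' _ => h2 c', Finset.sum_add_distrib, ← Finset.mul_sum,
      Finset.sum_ite_eq Finset.univ (s i j), if_pos (Finset.mem_univ _), Function.update_eq_self,
      Function.update_eq_self]
  unfold actP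
  rw [Finset.sum_congr rfl fun i _ => Finset.sum_congr rfl fun j _ => h1 i j]
  simp only [Finset.sum_add_distrib, Finset.sum_const, Finset.card_univ, Fintype.card_fin, nsmul_eq_mul,
    ← Finset.mul_sum]
  ring

theorem path_van {F : Type*} [Field F] [CharZero F] {ι : Type} [Fintype ι] [DecidableEq ι] {r m : ℕ} (S : Matrix ι ι F) (hS : Sᵀ = S)
    (W : Submodule F ((Fin m → Pq r ι) → F)) (hW : ∀ u w : ι → F, ∀ φ ∈ W, actP (MPadcOE.wd S u w) φ ∈ W)
    (V : Matrix (Fin r) ι F) (h0 : ∀ φ ∈ W, evp (pl V) φ = 0) (x y : ι → F) (hx : x ⬝ᵥ S *ᵥ x ≠ 0) :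
    ∀ φ ∈ W, evp (pl (V * (rf S x * rf S y))) φ = 0 := by
  obtain ⟨z, hz⟩ : ∃ z : ι → F, z = fun l => y l - x l := ⟨_, rfl⟩
  obtain ⟨xs, hxs⟩ : ∃ xs : ι → F[X], xs = fun l => (C (x l) + X * C (z l) : F[X]) := ⟨_, rfl⟩
  obtain ⟨a, ha⟩ : ∃ a : F[X], a = xs ⬝ᵥ Matrix.map S C *ᵥ xs := ⟨_, rfl⟩
  obtain ⟨b, hb⟩ : ∃ b : F[X], b = xs ⬝ᵥ Matrix.map S C *ᵥ fun l => (C (z l) : F[X]) := ⟨_, rfl⟩
  obtain ⟨w, hw⟩ : ∃ w : Matrix ι ι F, w = MPadcOE.wd S z x := ⟨_, rfl⟩
  obtain ⟨G, hG⟩ : ∃ G : Matrix ι ι F[X], G = (2 * b) • (1 : Matrix ι ι F[X]) + (2 : F[X]) • Matrix.map w C :=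
    ⟨_, rfl⟩
  obtain ⟨N, hN⟩ : ∃ N : Matrix (Fin r) ι F[X], N = Matrix.map (V * rf S x) C * rf (Matrix.map S C) xs :=
    ⟨_, rfl⟩
  -- the derivative of the reflection
  have hR : ∀ i j, a * derivative (rf (Matrix.map S C) xs i j) = (rf (Matrix.map S C) xs * G) i j := by
    intro i j
    rw [hG, hw, ← M3_wd S x z, hb, ← hxs, M3_key, Matrix.smul_apply, smul_eq_mul, ha, hxs, M3_drf S hS x z i j]
  have hder : ∀ i l, a * derivative (N i l) = (N * G) i l := by
    intro i l
    rw [hN, Matrix.mul_assoc, Matrix.mul_apply, Matrix.mul_apply, derivative_sum, Finset.mul_sum]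
    refine Finset.sum_congr rfl fun c _ => ?_
    rw [Matrix.map_apply, derivative_C_mul, ← hR c l]
    ring
  have hP := derivative_pl a N G hder
  obtain ⟨f, hf⟩ : ∃ f : ((Fin m → Pq r ι) → F) → F[X], f = fun φ => evp (pl N) fun s => C (φ s) := ⟨_, rfl⟩
  have hfd : ∀ φ : (Fin m → Pq r ι) → F, a * derivative (f φ) =
      (m * r * (2 * b)) * f φ + 2 * f (actP w φ) := by
    intro φ
    have h1 := derivative_evp a G (pl N) hP (fun s => (C (φ s) : F[X]))
    have h2 : opP a G (fun s => (C (φ s) : F[X])) =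
        ((m : F[X]) * r * (2 * b)) • (fun s => (C (φ s) : F[X])) + (2 : F[X]) • fun s => (C (actP w φ s) : F[X]) := by
      funext s
      unfold opP
      rw [derivative_C, mul_zero, zero_add, hG, M3_act, Pi.add_apply, Pi.smul_apply, Pi.smul_apply,
        smul_eq_mul, smul_eq_mul, actP_map C w φ s]
    rw [h2, evp_add, evp_smul, evp_smul] at h1
    rw [hf]
    exact h1
  -- the values
  have hev : ∀ (t : F) (φ : (Fin m → Pq r ι) → F), (f φ).eval t =
      evp (pl (V * rf S x * rf S fun l => x l + t * z l)) φ := by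
    intro t φ
    have h1 := evp_map (evalRingHom t) (pl N) (fun s => (C (φ s) : F[X]))
    have h2 : Matrix.map N (evalRingHom t) = V * rf S x * rf S fun l => x l + t * z l := by
      have h3 : Matrix.map N (evalRingHom t) = Matrix.map (Matrix.map (V * rf S x) C) (evalRingHom t) *
          Matrix.map (rf (Matrix.map S C) xs) (evalRingHom t) := by
        rw [hN, Matrix.map_mul]
      have h4 : Matrix.map (Matrix.map (V * rf S x) C) (evalRingHom t) = V * rf S x := by
        ext i j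
        simp only [Matrix.map_apply, coe_evalRingHom, eval_C]
      have h5 : Matrix.map (Matrix.map S C) (evalRingHom t) = S := by
        ext i j
        simp only [Matrix.map_apply, coe_evalRingHom, eval_C]
      have h6 : (fun l => evalRingHom t (xs l)) = fun l => x l + t * z l := by
        funext l
        rw [hxs]
        simp only [coe_evalRingHom, eval_add, eval_mul, eval_C, eval_X]
      rw [h3, h4, rf_map, h5, h6]
    rw [← pl_map', h2] at h1
    have h7 : (fun s => evalRingHom t (C (φ s))) = φ := by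
      funext s
      simp only [coe_evalRingHom, eval_C]
    rw [h7] at h1
    rw [hf]
    exact h1
  have hev0 : ∀ φ ∈ W, (f φ).eval 0 = 0 := by
    intro φ hφ
    have h1 : (fun l => x l + 0 * z l) = x := by
      funext l
      rw [zero_mul, add_zero]
    rw [hev, h1, Matrix.mul_assoc, rf_mul_self, Matrix.mul_smul, Matrix.mul_one, pl_smul, evp_scale, h0 φ hφ,
      mul_zero]
  have ha0 : ¬ (X : F[X]) ∣ a := by
    rw [X_dvd_iff, coeff_zero_eq_eval_zero]
    have h1 : a.eval 0 = x ⬝ᵥ S *ᵥ x := by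
      rw [ha, hxs]
      simp only [Matrix.mulVec, dotProduct, Matrix.map_apply, eval_finsetSum, eval_mul, eval_add, eval_C,
        eval_X, zero_mul, add_zero]
    rw [h1]
    exact hx
  have hdvd : ∀ n : ℕ, ∀ φ ∈ W, (X : F[X]) ^ n ∣ f φ := by
    intro n
    induction n with
    | zero =>
      intro φ _
      rw [pow_zero]
      exact one_dvd _
    | succ n ih =>
      intro φ hφ
      have h1 : (X : F[X]) ^ n ∣ a * derivative (f φ) := by
        rw [hfd φ]
        refine dvd_add ((ih φ hφ).mul_left _) ((ih _ ?_).mul_left _)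
        rw [hw]
        exact hW z x φ hφ
      have h2 : (X : F[X]) ^ n ∣ derivative (f φ) := prime_X.pow_dvd_of_dvd_mul_left n ha0 h1
      rw [X_pow_dvd_iff] at h2 ⊢
      intro d hd
      rcases d with _ | e
      · rw [coeff_zero_eq_eval_zero]
        exact hev0 φ hφ
      · have h3 := h2 e (by omega)
        rw [coeff_derivative] at h3
        rcases mul_eq_zero.1 h3 with h4 | h4
        · exact h4
        · exfalso
          exact (Nat.cast_add_one_ne_zero e) h4
  intro φ hφ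
  have hzero : f φ = 0 := by
    ext d
    rw [coeff_zero]
    exact X_pow_dvd_iff.1 (hdvd (d + 1) φ hφ) d (Nat.lt_succ_self d)
  have h1 := hev 1 φ
  have h2 : (fun l => x l + 1 * z l) = y := by
    funext l
    rw [hz, one_mul]
    ring
  rw [hzero, eval_zero, h2, Matrix.mul_assoc] at h1
  exact h1.symm

end MPadcEP
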