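import Pool.Agent.Lib.MP_adc574_ag_EP.Defs

/-!
# LEAF M4: vectors orthogonal to a small frame (medium, linear algebra, 2 statements)

Write `(u, w) = u ⬝ᵥ S *ᵥ w`, symmetric and nondegenerate.
* `exists_perp_aniso`: let `T = {z | ∀ i, (V i, z) = 0}`, the kernel of a linear map to `Fin n → E`, so `finrank T ≥ card ι - n`. If all `z ∈ T` have `(z, z) = 0` then `(z, w) = 0` for all
  `z, w ∈ T` (polarization, `2 ≠ 0`), so `T ≤ T^⊥` and `finrank T^⊥ = card ι - finrank T` (nondegenerate: `z ↦ S *ᵥ z` is bijective, `T^⊥` is the annihilator of its image;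
  or `LinearMap.BilinForm.finrank_orthogonal` for `Matrix.toBilin' S`, `Matrix.Nondegenerate.toBilin'`); so `2 (card ι - n) ≤ card ι`, a contradiction to `2 n < card ι`.
* `exists_two`: there are linear forms `f`, `g` on `ι → E` which vanish on the span of the `V j` with `f u ≠ 0`, `g v ≠ 0` (`Submodule.exists_le_ker_of_notMem` or
  `Submodule.exists_dual_map_eq_bot_of_notMem`); one of `f`, `g`, `f + g` is nonzero at `u` and at `v`; it is `w ↦ w ⬝ᵥ a` (`a l = f (Pi.single l 1)`), and `z = S⁻¹ *ᵥ a`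
  (`Matrix.mulVec_mulVec`, `Matrix.mul_nonsing_inv`, `isUnit_iff_ne_zero`).
-/

set_option autoImplicit false

namespace MPadcEP

open Polynomial Matrix MPadcGM MPadcOA

theorem exists_perp_aniso {E : Type*} [Field E] (h2 : (2 : E) ≠ 0) {ι : Type} [Fintype ι] [DecidableEq ι] {n : ℕ} (hn : 2 * n < Fintype.card ι)
    (S : Matrix ι ι E) (hS : Sᵀ = S) (hd : S.det ≠ 0) (V : Fin n → ι → E) :
    ∃ z : ι → E, (∀ i, V i ⬝ᵥ S *ᵥ z = 0) ∧ z ⬝ᵥ S *ᵥ z ≠ 0 := by
  classical
  by_contra hcon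
  push Not at hcon
  have hsym : ∀ z w : ι → E, w ⬝ᵥ S *ᵥ z = z ⬝ᵥ S *ᵥ w := by
    intro z w
    rw [Matrix.dotProduct_mulVec, ← Matrix.mulVec_transpose, hS, dotProduct_comm]
  let L : (ι → E) →ₗ[E] (Fin n → E) := (Matrix.of V * S).mulVecLin
  have hL : ∀ z, L z = fun i => V i ⬝ᵥ S *ᵥ z := by
    intro z
    funext i
    simp only [L, Matrix.mulVecLin_apply, ← Matrix.mulVec_mulVec]
    rfl
  have hker : ∀ z, z ∈ LinearMap.ker L ↔ ∀ i, V i ⬝ᵥ S *ᵥ z = 0 := by
    intro z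
    rw [LinearMap.mem_ker, hL, funext_iff]
    rfl
  have hT : ∀ z ∈ LinearMap.ker L, ∀ w ∈ LinearMap.ker L, z ⬝ᵥ S *ᵥ w = 0 := by
    intro z hz w hw
    have h1 := hcon z ((hker z).1 hz)
    have h3 := hcon w ((hker w).1 hw)
    have h4 := hcon (z + w) ((hker _).1 (Submodule.add_mem _ hz hw))
    rw [Matrix.mulVec_add, dotProduct_add, add_dotProduct, add_dotProduct, h1, h3, hsym z w, zero_add, add_zero,
      ← two_mul] at h4
    exact (mul_eq_zero.1 h4).resolve_left h2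
  let B : LinearMap.BilinForm E (ι → E) := Matrix.toBilin' S
  have hB : ∀ z w, B z w = z ⬝ᵥ S *ᵥ w := fun z w => Matrix.toBilin'_apply' S z w
  have hnd : B.Nondegenerate := LinearMap.BilinForm.nondegenerate_toBilin'_of_det_ne_zero' S hd
  have hle : LinearMap.ker L ≤ B.orthogonal (LinearMap.ker L) := by
    intro w hw
    rw [LinearMap.BilinForm.mem_orthogonal_iff]
    intro z hz
    rw [hB]
    exact hT z hz w hw
  have h5 := Submodule.finrank_mono hle
  have h6 := LinearMap.BilinForm.finrank_orthogonal hnd (LinearMap.ker L)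
  have h7 := LinearMap.finrank_range_add_finrank_ker L
  have h8 : Module.finrank E (LinearMap.range L) ≤ n := by
    have := Submodule.finrank_le (LinearMap.range L)
    rwa [Module.finrank_pi, Fintype.card_fin] at this
  rw [Module.finrank_pi] at h6 h7
  omega

theorem exists_two {E : Type*} [Field E] {ι : Type} [Fintype ι] [DecidableEq ι] {β : Type*} (S : Matrix ι ι E) (hd : S.det ≠ 0)
    (V : β → ι → E) (u v : ι → E) (hu : u ∉ Submodule.span E (Set.range V)) (hv : v ∉ Submodule.span E (Set.range V)) :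
    ∃ z : ι → E, (∀ i, V i ⬝ᵥ S *ᵥ z = 0) ∧ u ⬝ᵥ S *ᵥ z ≠ 0 ∧ v ⬝ᵥ S *ᵥ z ≠ 0 := by
  classical
  obtain ⟨f, hfu, hf⟩ := Submodule.exists_le_ker_of_notMem hu
  obtain ⟨g, hgv, hg⟩ := Submodule.exists_le_ker_of_notMem hv
  have hh : ∃ h : (ι → E) →ₗ[E] E, (∀ i, h (V i) = 0) ∧ h u ≠ 0 ∧ h v ≠ 0 := by
    have hf' : ∀ i, f (V i) = 0 := fun i => hf (Submodule.subset_span ⟨i, rfl⟩)
    have hg' : ∀ i, g (V i) = 0 := fun i => hg (Submodule.subset_span ⟨i, rfl⟩)
    by_cases h1 : f v = 0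
    · by_cases h3 : g u = 0
      · refine ⟨f + g, fun i => ?_, ?_, ?_⟩
        · rw [LinearMap.add_apply, hf', hg', add_zero]
        · rw [LinearMap.add_apply, h3, add_zero]
          exact hfu
        · rw [LinearMap.add_apply, h1, zero_add]
          exact hgv
      · exact ⟨g, hg', h3, hgv⟩
    · exact ⟨f, hf', hfu, h1⟩
  obtain ⟨h, hV, hhu, hhv⟩ := hh
  have hdot : ∀ w : ι → E, h w = w ⬝ᵥ (fun l => h (Pi.single l 1)) := by
    intro w
    have hw : w = ∑ l, w l • (Pi.single l (1 : E) : ι → E) := by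
      funext l
      simp [Finset.sum_apply, Pi.single_apply]
    conv_lhs => rw [hw]
    rw [map_sum]
    exact Finset.sum_congr rfl fun l _ => by rw [map_smul, smul_eq_mul]
  have hz : S *ᵥ (S⁻¹ *ᵥ (fun l => h (Pi.single l 1))) = fun l => h (Pi.single l 1) := by
    rw [Matrix.mulVec_mulVec, Matrix.mul_nonsing_inv S (isUnit_iff_ne_zero.2 hd), Matrix.one_mulVec]
  refine ⟨S⁻¹ *ᵥ (fun l => h (Pi.single l 1)), fun i => ?_, ?_, ?_⟩
  · rw [hz, ← hdot]
    exact hV i
  · rw [hz, ← hdot]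
    exact hhu
  · rw [hz, ← hdot]
    exact hhv

end MPadcEP
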