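import Pool.Agent.Lib.MP_adc574_ag_EP.M1
import Pool.Agent.Lib.MP_adc574_ag_EP.M4

/-!
# LEAF M5: one row of Witt's theorem with two reflections (medium)

Write `(u, w) = u ⬝ᵥ S *ᵥ w`, symmetric (`hS`). Let `u = U i`, `v = V i`; `(u, u) = (v, v) = 0`, `(V j, u) = (U j, U i) = 0` and `(V j, v) = 0` for `j < i` (entries of `hU`, `hV`), and `u`, `v` are not in
the span of the `V j = U j`, `j < i` (independence of the rows: `LinearIndependent.notMem_span_image` or `linearIndependent_iff'`).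
Row `j` of `U * (rf S x * rf S y)` is `(U j ᵥ* rf S x) ᵥ* rf S y`, `w ᵥ* rf S x = (x, x) • w - (2 (w, x)) • x` (`vecMul_rf`).
* CASE `(u, v) ≠ 0`. Put `x = u - v`, `(x, x) = - 2 (u, v) ≠ 0`; `u ᵥ* rf S x = (x, x) u - 2 (- (u, v)) (u - v) = (x, x) v`; `V j ᵥ* rf S x = (x, x) V j` as `(V j, x) = 0`. Let `y` be orthogonal to
  `V j`, `j ≤ i`, with `(y, y) ≠ 0` (`exists_perp_aniso` (M4) with `n = i + 1 ≤ r`, the frame `fun j : Fin (i + 1) => V ⟨j, _⟩`); `V j ᵥ* rf S y = (y, y) V j` for `j ≤ i`. `μ = (x, x) (y, y)`.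
* CASE `(u, v) = 0`. `exists_two` (M4) with the family `V j`, `j : {j // j < i}`: `z` with `(V j, z) = 0`, `(u, z) ≠ 0`, `(v, z) ≠ 0`. `w = z - ((z, z) / (2 (u, z))) • u`: `(w, w) = 0`, `(V j, w) = 0`,
  `(u, w) = (u, z)`, `(v, w) = (v, z)`. Put `x = u - w`, `y = w - v`, `(x, x) = - 2 (u, w) ≠ 0`, `(y, y) = - 2 (w, v) ≠ 0`; `u ᵥ* rf S x = (x, x) w`, `w ᵥ* rf S y = (y, y) v`, and
  `V j ᵥ* rf S x = (x, x) V j`, `V j ᵥ* rf S y = (y, y) V j` for `j < i`. `μ = (x, x) (y, y)`.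
-/

set_option autoImplicit false

namespace MPadcEP

open Polynomial Matrix MPadcGM MPadcOA

private theorem M5_symm {E : Type*} [Field E] {ι : Type} [Fintype ι] (S : Matrix ι ι E) (hS : Sᵀ = S) (u w : ι → E) :
    u ⬝ᵥ S *ᵥ w = w ⬝ᵥ S *ᵥ u := by
  rw [dotProduct_mulVec, ← mulVec_transpose, hS, dotProduct_comm]

private theorem M5_entry {E : Type*} [Field E] {ι : Type} [Fintype ι] {r : ℕ} (U : Matrix (Fin r) ι E) (S : Matrix ι ι E) (i j : Fin r) :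
    (U * S * Uᵀ) i j = U i ⬝ᵥ S *ᵥ U j := by
  rw [Matrix.mul_assoc, Matrix.mul_apply]
  rfl

private theorem M5_row {E : Type*} [Field E] {ι : Type} [Fintype ι] {r : ℕ} (U : Matrix (Fin r) ι E) (A B : Matrix ι ι E) (j : Fin r) :
    (U * (A * B)) j = (U j ᵥ* A) ᵥ* B := by
  rw [vecMul_vecMul]
  rfl

private theorem M5_fix {E : Type*} [Field E] {ι : Type} [Fintype ι] [DecidableEq ι] (S : Matrix ι ι E) (x w : ι → E)
    (h : w ⬝ᵥ S *ᵥ x = 0) : w ᵥ* rf S x = (x ⬝ᵥ S *ᵥ x) • w := by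
  rw [vecMul_rf, h, mul_zero, zero_smul, sub_zero]

private theorem M5_q {E : Type*} [Field E] {ι : Type} [Fintype ι] [DecidableEq ι] (S : Matrix ι ι E) (hS : Sᵀ = S) (u v : ι → E)
    (hu : u ⬝ᵥ S *ᵥ u = 0) (hv : v ⬝ᵥ S *ᵥ v = 0) : (u - v) ⬝ᵥ S *ᵥ (u - v) = -(2 * (u ⬝ᵥ S *ᵥ v)) := by
  rw [mulVec_sub, sub_dotProduct, dotProduct_sub, dotProduct_sub, hu, hv, M5_symm S hS v u]
  ring

private theorem M5_move {E : Type*} [Field E] {ι : Type} [Fintype ι] [DecidableEq ι] (S : Matrix ι ι E) (hS : Sᵀ = S) (u v : ι → E)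
    (hu : u ⬝ᵥ S *ᵥ u = 0) (hv : v ⬝ᵥ S *ᵥ v = 0) : u ᵥ* rf S (u - v) = ((u - v) ⬝ᵥ S *ᵥ (u - v)) • v := by
  have h1 : u ⬝ᵥ S *ᵥ (u - v) = -(u ⬝ᵥ S *ᵥ v) := by
    rw [mulVec_sub, dotProduct_sub, hu, zero_sub]
  rw [vecMul_rf, M5_q S hS u v hu hv, h1]
  funext l
  simp only [Pi.sub_apply, Pi.smul_apply, smul_eq_mul]
  ring

theorem witt_step {E : Type*} [Field E] (h2 : (2 : E) ≠ 0) {ι : Type} [Fintype ι] [DecidableEq ι] {r : ℕ} (hr : 2 * r < Fintype.card ι)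
    (S : Matrix ι ι E) (hS : Sᵀ = S) (hd : S.det ≠ 0) (U V : Matrix (Fin r) ι E) (hU : U * S * Uᵀ = 0) (hV : V * S * Vᵀ = 0)
    (liU : LinearIndependent E fun i => U i) (liV : LinearIndependent E fun i => V i) (i : Fin r) (hj : ∀ j < i, U j = V j) :
    ∃ x y : ι → E, x ⬝ᵥ S *ᵥ x ≠ 0 ∧ y ⬝ᵥ S *ᵥ y ≠ 0 ∧ ∃ μ : E, μ ≠ 0 ∧ ∀ j ≤ i, (U * (rf S x * rf S y)) j = μ • V j := by
  classical
  have hUU : ∀ a b, U a ⬝ᵥ S *ᵥ U b = 0 := fun a b => by rw [← M5_entry, hU, Matrix.zero_apply]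
  have hVV : ∀ a b, V a ⬝ᵥ S *ᵥ V b = 0 := fun a b => by rw [← M5_entry, hV, Matrix.zero_apply]
  have hVU : ∀ j < i, V j ⬝ᵥ S *ᵥ U i = 0 := fun j hji => by rw [← hj j hji]; exact hUU j i
  by_cases huv : U i ⬝ᵥ S *ᵥ V i = 0
  · -- a third isotropic vector
    let Vs : {j : Fin r // j < i} → ι → E := fun j => V j.1
    have hnu : U i ∉ Submodule.span E (Set.range Vs) := by
      have h1 : Set.range Vs = (fun j => U j) '' {j | j < i} := by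
        ext w
        constructor
        · rintro ⟨j, rfl⟩
          exact ⟨j.1, j.2, hj j.1 j.2⟩
        · rintro ⟨j, hji, rfl⟩
          exact ⟨⟨j, hji⟩, (hj j hji).symm⟩
      rw [h1]
      exact liU.notMem_span_image (by simp)
    have hnv : V i ∉ Submodule.span E (Set.range Vs) := by
      have h1 : Set.range Vs = (fun j => V j) '' {j | j < i} := by
        ext w
        constructor
        · rintro ⟨j, rfl⟩
          exact ⟨j.1, j.2, rfl⟩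
        · rintro ⟨j, hji, rfl⟩
          exact ⟨⟨j, hji⟩, rfl⟩
      rw [h1]
      exact liV.notMem_span_image (by simp)
    obtain ⟨z, hz, hz1, hz2⟩ := exists_two S hd Vs (U i) (V i) hnu hnv
    obtain ⟨w, hw⟩ : ∃ w : ι → E, w = z - ((z ⬝ᵥ S *ᵥ z) / (2 * (U i ⬝ᵥ S *ᵥ z))) • U i := ⟨_, rfl⟩
    have hUw : ∀ a : ι → E, a ⬝ᵥ S *ᵥ U i = 0 → a ⬝ᵥ S *ᵥ w = a ⬝ᵥ S *ᵥ z := by
      intro a ha
      rw [hw, mulVec_sub, mulVec_smul, dotProduct_sub, dotProduct_smul, ha, smul_zero, sub_zero]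
    have huw : U i ⬝ᵥ S *ᵥ w = U i ⬝ᵥ S *ᵥ z := hUw _ (hUU i i)
    have hvw : V i ⬝ᵥ S *ᵥ w = V i ⬝ᵥ S *ᵥ z := hUw _ (by rw [M5_symm S hS]; exact huv)
    have hww : w ⬝ᵥ S *ᵥ w = 0 := by
      have e1 : w ⬝ᵥ S *ᵥ w = w ⬝ᵥ S *ᵥ z - ((z ⬝ᵥ S *ᵥ z) / (2 * (U i ⬝ᵥ S *ᵥ z))) * (w ⬝ᵥ S *ᵥ U i) := by
        conv_lhs => rw [hw, mulVec_sub, mulVec_smul, dotProduct_sub, dotProduct_smul, ← hw, smul_eq_mul]
      have e2 : w ⬝ᵥ S *ᵥ z = z ⬝ᵥ S *ᵥ z - ((z ⬝ᵥ S *ᵥ z) / (2 * (U i ⬝ᵥ S *ᵥ z))) * (U i ⬝ᵥ S *ᵥ z) := by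
        rw [hw, sub_dotProduct, smul_dotProduct, smul_eq_mul]
      rw [e1, e2, M5_symm S hS w (U i), huw]
      field_simp
      ring
    have hjw : ∀ j < i, V j ⬝ᵥ S *ᵥ w = 0 := fun j hji => by
      rw [hUw _ (hVU j hji)]
      exact hz ⟨j, hji⟩
    have hq1 := M5_q S hS (U i) w (hUU i i) hww
    have hq2 := M5_q S hS w (V i) hww (hVV i i)
    have hn1 : (U i - w) ⬝ᵥ S *ᵥ (U i - w) ≠ 0 := by
      rw [hq1, huw]
      exact neg_ne_zero.2 (mul_ne_zero h2 hz1)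
    have hn2 : (w - V i) ⬝ᵥ S *ᵥ (w - V i) ≠ 0 := by
      rw [hq2, M5_symm S hS, hvw]
      exact neg_ne_zero.2 (mul_ne_zero h2 hz2)
    refine ⟨U i - w, w - V i, hn1, hn2, _, mul_ne_zero hn1 hn2, fun j hji => ?_⟩
    rw [M5_row]
    rcases eq_or_lt_of_le hji with h | h
    · subst h
      rw [M5_move S hS (U j) w (hUU j j) hww, smul_vecMul, M5_move S hS w (V j) hww (hVV j j), smul_smul]
    · have h1 : U j ⬝ᵥ S *ᵥ (U i - w) = 0 := by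
        rw [mulVec_sub, dotProduct_sub, hUU, hj j h, hjw j h, sub_zero]
      have h3 : V j ⬝ᵥ S *ᵥ (w - V i) = 0 := by
        rw [mulVec_sub, dotProduct_sub, hVV, hjw j h, sub_zero]
      rw [M5_fix S _ _ h1, smul_vecMul, hj j h, M5_fix S _ _ h3, smul_smul]
  · -- one reflection
    have hi : i.1 + 1 ≤ r := i.2
    obtain ⟨y, hy, hy'⟩ := exists_perp_aniso h2 (n := i.1 + 1) (by omega) S hS hd
      (fun j : Fin (i.1 + 1) => V ⟨j.1, by omega⟩)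
    have hq1 := M5_q S hS (U i) (V i) (hUU i i) (hVV i i)
    have hn1 : (U i - V i) ⬝ᵥ S *ᵥ (U i - V i) ≠ 0 := by
      rw [hq1]
      exact neg_ne_zero.2 (mul_ne_zero h2 huv)
    have hyj : ∀ j ≤ i, V j ⬝ᵥ S *ᵥ y = 0 := fun j hji => hy ⟨j.1, by
      have : j.1 ≤ i.1 := hji
      omega⟩
    refine ⟨U i - V i, y, hn1, hy', _, mul_ne_zero hn1 hy', fun j hji => ?_⟩
    rw [M5_row]
    rcases eq_or_lt_of_le hji with h | h
    · subst h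
      rw [M5_move S hS (U j) (V j) (hUU j j) (hVV j j), smul_vecMul, M5_fix S _ _ (hyj j le_rfl), smul_smul]
    · have h1 : U j ⬝ᵥ S *ᵥ (U i - V i) = 0 := by
        rw [mulVec_sub, dotProduct_sub, hUU, hj j h, hVV, sub_zero]
      rw [M5_fix S _ _ h1, smul_vecMul, hj j h, M5_fix S _ _ (hyj j hji), smul_smul]

end MPadcEP
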