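import Pool.Agent.Lib.MP_adc574_ag_EP.M3
import Pool.Agent.Lib.MP_adc574_ag_EP.M6

/-!
# LEAF M7: a stable space of forms which vanishes at one isotropic frame vanishes at all (easy+)

Let `V` be isotropic with independent rows. `witt` (M6): `U * pr S (lz z) = μ • V`, all vectors of the list `lz z` are not isotropic. By induction on the list `L` (generalizing the frame `N`):
if all `φ ∈ W` vanish at `N` and the vectors of `L` are not isotropic then all `φ ∈ W` vanish at `N * pr S L` (`pr S (p :: L) = (rf S p.1 * rf S p.2) * pr S L`, `Matrix.mul_assoc`, `path_van` (M3)).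
So `evp (pl (μ • V)) φ = 0`, and `pl (μ • V) = μ ^ r • pl V` (`pl_smul`), `evp (μ ^ r • pl V) φ = (μ ^ r) ^ m * evp (pl V) φ` (`evp_scale`).
-/

set_option autoImplicit false

namespace MPadcEP

open Polynomial Matrix MPadcGM MPadcOA

private theorem M7_list {F : Type*} [Field F] [CharZero F] {ι : Type} [Fintype ι] [DecidableEq ι] {r m : ℕ}
    (S : Matrix ι ι F) (hS : Sᵀ = S) (W : Submodule F ((Fin m → Pq r ι) → F))
    (hW : ∀ u w : ι → F, ∀ φ ∈ W, actP (MPadcOE.wd S u w) φ ∈ W) (L : List ((ι → F) × (ι → F))) :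
    ∀ N : Matrix (Fin r) ι F, (∀ φ ∈ W, evp (pl N) φ = 0) → (∀ p ∈ L, p.1 ⬝ᵥ S *ᵥ p.1 ≠ 0) →
      ∀ φ ∈ W, evp (pl (N * pr S L)) φ = 0 := by
  induction L with
  | nil =>
    intro N h0 _ φ hφ
    have h1 : pr S ([] : List ((ι → F) × (ι → F))) = 1 := rfl
    rw [h1, Matrix.mul_one]
    exact h0 φ hφ
  | cons p L ih =>
    intro N h0 hL φ hφ
    have h1 : pr S (p :: L) = (rf S p.1 * rf S p.2) * pr S L := by
      simp only [pr, List.map_cons, List.prod_cons]
    rw [h1, ← Matrix.mul_assoc]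
    exact ih (N * (rf S p.1 * rf S p.2)) (path_van S hS W hW N h0 p.1 p.2 (hL p List.mem_cons_self))
      (fun q hq => hL q (List.mem_cons_of_mem _ hq)) φ hφ

theorem van_all {F : Type*} [Field F] [CharZero F] {ι : Type} [Fintype ι] [DecidableEq ι] {r m : ℕ} (hr : 2 * r < Fintype.card ι)
    (S : Matrix ι ι F) (hS : Sᵀ = S) (hd : S.det ≠ 0) (W : Submodule F ((Fin m → Pq r ι) → F))
    (hW : ∀ u w : ι → F, ∀ φ ∈ W, actP (MPadcOE.wd S u w) φ ∈ W) (U : Matrix (Fin r) ι F) (hU : U * S * Uᵀ = 0)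
    (liU : LinearIndependent F fun i => U i) (h0 : ∀ φ ∈ W, evp (pl U) φ = 0) : ∀ φ ∈ W, VanI S φ := by
  intro φ hφ V hV liV
  obtain ⟨z, hz, μ, hμ, hzV⟩ := witt (two_ne_zero) hr S hS hd U V hU hV liU liV
  have h1 : evp (pl (U * pr S (lz z))) φ = 0 :=
    M7_list S hS W hW (lz z) U h0 (fun p hp => (hz p hp).1) φ hφ
  have h2 : U * pr S (lz z) = μ • V := hzV
  rw [h2, pl_smul, evp_scale] at h1
  exact (mul_eq_zero.mp h1).resolve_left (pow_ne_zero _ (pow_ne_zero _ hμ))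

end MPadcEP
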