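import Pool.Agent.Lib.MP_adc574_ag_EP.G2

/-!
# LEAF T1: the auxiliary forms (medium, simplified copy of IP/Q9.lean)

Everything is linear over `k`. Let `E₁` be the restriction of `evG S E (m + 1)` to the finite dimensional space `V = DL k r ι (m + 1) A` (see the proof of `so_fin` in G2), its range has dimension
`so S E (m + 1) A`. Let `C ≤ V` be a complement of its kernel (`Q9_compl` in IP/Q9.lean), `finrank C = so S E (m + 1) A`, `E₁` injective on `C`. The map
`L : (Fin B → C) → (Fin M → SO S E (m + 1) (A + a) ⧸ (ZO S E t₀ m (A + a)).submoduleOf _)`, `L Φ e = [evG (fun s => ∑ b, Q b * (opP Δ G)^[e] (Φ b) s)]`: well defined because the coefficients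
have degree `≤ B + A + c * e ≤ A + a` (`natDegree_opP_iterate` (V1), `hQ`, `ha`). The dimension of the source is `B * so S E (m + 1) A`, that of the target
`M * (so S E (m + 1) (A + a) - so S E m (A + a))` (`ZO_le`, `finrank_ZO`, `so_fin`; `Q9_quot`), so `L` has a nonzero element `Φ` in its kernel (`LinearMap.ker_ne_bot_of_finrank_lt`); some `Φ b ≠ 0`, so
`evG (Φ b) ≠ 0`. The private lemmas `Q9_nab` (the operator as a `k`-linear map), `Q9_nab_pow`, `Q9_compl`, `Q9_quot`, `Q9_cond` (simpler: without `Fin (A + 1)`, `Fin N`) can be copied with names `T1_`.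
-/

set_option autoImplicit false

namespace MPadcEP

open Polynomial Matrix MPadcGM MPadcOA

/-- `opP` as a linear map. -/
private noncomputable def T1_nab {k : Type} [Field k] {ι : Type} [Fintype ι] {r m : ℕ} (Δ : k[X]) (G : Matrix ι ι k[X]) :
    ((Fin m → Pq r ι) → k[X]) →ₗ[k] ((Fin m → Pq r ι) → k[X]) where
  toFun := opP Δ G
  map_add' Φ Ψ := by
    funext s
    simp only [opP, actP, Pi.add_apply, derivative_add, mul_add, Finset.sum_add_distrib]
    ring
  map_smul' c Φ := by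
    funext s
    simp only [opP, actP, Pi.smul_apply, derivative_smul, mul_smul_comm, RingHom.id_apply, smul_add,
      Finset.smul_sum]

private theorem T1_nab_pow {k : Type} [Field k] {ι : Type} [Fintype ι] {r m : ℕ} (Δ : k[X]) (G : Matrix ι ι k[X])
    (e : ℕ) (Φ : (Fin m → Pq r ι) → k[X]) : (T1_nab Δ G ^ e) Φ = (opP Δ G)^[e] Φ := by
  rw [Module.End.pow_apply]
  rfl

/-- The dimension of the quotient. -/
private theorem T1_quot {k V : Type*} [Field k] [AddCommGroup V] [Module k V] (Z S : Submodule k V)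
    [FiniteDimensional k S] (h : Z ≤ S) : Module.finrank k (S ⧸ Z.submoduleOf S) =
      Module.finrank k S - Module.finrank k Z := by
  have h1 := Submodule.finrank_quotient_add_finrank (Z.submoduleOf S)
  have h2 := (Submodule.submoduleOfEquivOfLe h).finrank_eq
  omega

/-- Finitely many linear conditions. -/
private theorem T1_cond {k V : Type*} [Field k] [AddCommGroup V] [Module k V] (S₁ S₂ Z : Submodule k V)
    [FiniteDimensional k S₁] [FiniteDimensional k S₂] (hZ : Z ≤ S₂) (B M : ℕ)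
    (L : Fin M → ((Fin B → S₁) →ₗ[k] V)) (hL : ∀ e x, L e x ∈ S₂)
    (h : M * (Module.finrank k S₂ - Module.finrank k Z) < B * Module.finrank k S₁) :
    ∃ c : Fin B → S₁, c ≠ 0 ∧ ∀ e, L e c ∈ Z := by
  obtain ⟨T, hT⟩ : ∃ T : (Fin B → S₁) →ₗ[k] (Fin M → (S₂ ⧸ Z.submoduleOf S₂)),
      T = LinearMap.pi fun e => (Z.submoduleOf S₂).mkQ ∘ₗ LinearMap.codRestrict S₂ (L e) (hL e) := ⟨_, rfl⟩
  have h1 : Module.finrank k (Fin M → (S₂ ⧸ Z.submoduleOf S₂)) < Module.finrank k (Fin B → S₁) := by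
    rw [Module.finrank_pi_fintype, Module.finrank_pi_fintype]
    simp only [Finset.sum_const, Finset.card_univ, Fintype.card_fin, smul_eq_mul]
    rw [T1_quot Z S₂ hZ]
    exact h
  have h2 := LinearMap.ker_ne_bot_of_finrank_lt (f := T) h1
  obtain ⟨c, hc, hc0⟩ := (Submodule.ne_bot_iff _).1 h2
  refine ⟨c, hc0, fun e => ?_⟩
  rw [LinearMap.mem_ker, hT] at hc
  have h3 := congrFun hc e
  have h4 : (Z.submoduleOf S₂).mkQ (LinearMap.codRestrict S₂ (L e) (hL e) c) = 0 := h3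
  rw [Submodule.mkQ_apply, Submodule.Quotient.mk_eq_zero] at h4
  exact h4

/-- A linear section. -/
private theorem T1_secV {k V W : Type*} [Field k] [AddCommGroup V] [Module k V] [AddCommGroup W] [Module k W]
    (D : Submodule k V) (f : V →ₗ[k] W) : ∃ σ : D.map f →ₗ[k] V, (∀ x, σ x ∈ D) ∧ ∀ x, f (σ x) = (x : W) := by
  obtain ⟨σ, hσ⟩ := (f.submoduleMap D).exists_rightInverse_of_surjective
    (LinearMap.range_eq_top.2 (LinearMap.submoduleMap_surjective _ _))
  refine ⟨D.subtype ∘ₗ σ, fun x => (σ x).2, fun x => ?_⟩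
  exact congrArg Subtype.val (LinearMap.congr_fun hσ x)

/-- A linear section of the evaluation. -/
private theorem T1_sec {k : Type} [Field k] {ι : Type} [Fintype ι] [DecidableEq ι] {r : ℕ} (S : Matrix ι ι k[X])
    (E : Matrix (Fin r) ι k[X]) (m A : ℕ) : ∃ pol : SO S E m A →ₗ[k] ((Fin m → Pq r ι) → k[X]),
      (∀ x s, (pol x s).natDegree ≤ A) ∧ ∀ x, evG S E m (pol x) = (x : GR k r ι) := by
  obtain ⟨σ, h1, h2⟩ := T1_secV (DL k r ι m A) (evG S E m)
  exact ⟨σ, fun x s => h1 x s, h2⟩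

theorem exists_formsO {k : Type} [Field k] {ι : Type} [Fintype ι] [DecidableEq ι] {r : ℕ} (S : Matrix ι ι k[X]) (E : Matrix (Fin r) ι k[X])
    (t₀ : Pq r ι) (h0 : gp S E t₀ ≠ 0) (m B A M c a : ℕ) (Q : Fin B → k[X]) (hQ : ∀ b, (Q b).natDegree ≤ B)
    (Δ : k[X]) (G : Matrix ι ι k[X]) (hΔ : Δ.natDegree ≤ c) (hG : ∀ i j, (G i j).natDegree ≤ c) (ha : B + c * M ≤ a)
    (hdim : M * (so S E (m + 1) (A + a) - so S E m (A + a)) < B * so S E (m + 1) A) :
    ∃ Φ : Fin B → (Fin (m + 1) → Pq r ι) → k[X], (∀ b s, (Φ b s).natDegree ≤ A) ∧ (∃ b, evG S E (m + 1) (Φ b) ≠ 0) ∧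
      ∀ e < M, evG S E (m + 1) (fun s => ∑ b : Fin B, Q b * (opP Δ G)^[e] (Φ b) s) ∈ ZO S E t₀ m (A + a) := by
  have hf1 : FiniteDimensional k (SO S E (m + 1) A) := so_fin S E (m + 1) A
  have hf2 : FiniteDimensional k (SO S E (m + 1) (A + a)) := so_fin S E (m + 1) (A + a)
  obtain ⟨pol, hdeg, hev⟩ := T1_sec S E (m + 1) A
  -- the derivatives of the auxiliary form
  obtain ⟨W, hW⟩ : ∃ W : Fin M → ((Fin B → SO S E (m + 1) A) →ₗ[k] ((Fin (m + 1) → Pq r ι) → k[X])),
      ∀ e x s, W e x s = ∑ b : Fin B, Q b * (opP Δ G)^[(e : ℕ)] (pol (x b)) s := by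
    refine ⟨fun e => LinearMap.pi fun s => ∑ b : Fin B,
      (LinearMap.mulLeft k (Q b)) ∘ₗ (LinearMap.proj s) ∘ₗ (T1_nab Δ G ^ (e : ℕ)) ∘ₗ pol ∘ₗ (LinearMap.proj b),
      fun e x s => ?_⟩
    rw [LinearMap.pi_apply, LinearMap.sum_apply]
    refine Finset.sum_congr rfl fun b _ => ?_
    rw [← T1_nab_pow]
    rfl
  have hWdeg : ∀ e x s, (W e x s).natDegree ≤ A + a := by
    intro e x s
    rw [hW]
    refine natDegree_sum_le_of_forall_le _ _ fun b _ => ?_
    refine natDegree_mul_le.trans ?_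
    have h2 := natDegree_opP_iterate Δ G c A hΔ hG (pol (x b)) (hdeg (x b)) e s
    have h3 := hQ b
    have h4 : c * e ≤ c * M := Nat.mul_le_mul_left _ e.2.le
    omega
  have hfin : M * (Module.finrank k (SO S E (m + 1) (A + a)) - Module.finrank k (ZO S E t₀ m (A + a))) <
      B * Module.finrank k (SO S E (m + 1) A) := by
    rw [finrank_ZO S E t₀ h0]
    exact hdim
  obtain ⟨x, hx0, hx⟩ := T1_cond (SO S E (m + 1) A) (SO S E (m + 1) (A + a)) (ZO S E t₀ m (A + a))
    (ZO_le S E t₀ m (A + a)) B M (fun e => evG S E (m + 1) ∘ₗ W e) (fun e x => (mem_SO S E _).2 ⟨W e x, hWdeg e x, rfl⟩) hfin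
  refine ⟨fun b => pol (x b), fun b s => hdeg (x b) s, ?_, fun e he => ?_⟩
  · obtain ⟨b, hb⟩ : ∃ b, x b ≠ 0 := by
      by_contra hcon
      push Not at hcon
      exact hx0 (funext fun b => hcon b)
    refine ⟨b, fun hh => hb ?_⟩
    rw [hev] at hh
    exact Subtype.ext hh
  · have h1 := hx ⟨e, he⟩
    have h2 : evG S E (m + 1) (W ⟨e, he⟩ x) ∈ ZO S E t₀ m (A + a) := h1
    have h3 : W ⟨e, he⟩ x = fun s => ∑ b : Fin B, Q b * (opP Δ G)^[e] (pol (x b)) s := funext fun s => hW ⟨e, he⟩ x s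
    rw [h3] at h2
    exact h2

end MPadcEP
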