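import Pool.Agent.Lib.MP_adc574_ag_EP.G1
import Pool.Agent.Lib.MP_adc574_ag_EP.G2
import Pool.Agent.Lib.MP_adc574_ag_EP.M6

/-!
# LEAF T2: the derivatives of the auxiliary polynomial at the zeros of the minor (medium, model IP/Q10.lean)

* `natDegree_auxP`: copy from IP/Q10.lean.
* `dd_auxP_eval`: as in IP/Q10.lean (the private lemmas `Q10_dd_sum`, `Q10_dd_pow`, `Q10_iter` have to be copied, names `T2_`): `(dd Δ)^[e] (auxP q (pl U) Φ) = ∑ b, X ^ (q b) * evp (pl U) ((opP Δ G)^[e] (Φ b))`, and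
  up to the factor `(1 + γ τ) ^ B ≠ 0` its value at `τ` is the value of `evp (pl U) Ψ`, `Ψ s = ∑ b, tw B γ b * (opP Δ G)^[e] (Φ b) s` (`dd_iterate_evp`, `evp_sum`). It remains to show `(evp (pl U) Ψ).eval τ = 0`:
  Let `T = D.S.map (eval τ)`, `E₀ = D.E.map (eval τ)`, `V = D.U.map (eval τ)`: `T` symmetric with `det ≠ 0`, `E₀`, `V` isotropic (`evalRingHom τ` of `hD.isoE`, `hD.isoU`) with independent rows. `witt` (M6) gives `z`,
  `μ ≠ 0` with `thF T E₀ z = μ • V`. By `hΦ` and `mem_SO`, `ZO`, `evG_mulzP`: `evG D.S D.E (m + 1) Ψ = gp D.S D.E t₀ * evG D.S D.E m ψ = evG D.S D.E (m + 1) (mulzP t₀ ψ)` for some `ψ`; apply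
  `Polynomial.map (MvPolynomial.eval z)` and `eval τ` (`map_evG`, `eval_evT`): `evp (pl (μ • V)) (Ψ(τ)) = evp (pl (μ • V)) (mulzP t₀ ψ(τ)) = pl (μ • V) t₀ * .. = μ ^ r * pl V t₀ * .. = 0` (`mulzP_map`, `evp_mulzP`,
  `pl_smul`, `hτ`), and `evp (pl (μ • V)) Ψ(τ) = (μ ^ r) ^ (m + 1) * evp (pl V) Ψ(τ)` (`evp_scale`), so `evp (pl V) Ψ(τ) = 0`, and this is `(evp (pl U) Ψ).eval τ` (`evp_map`, `pl_map'`).
-/

set_option autoImplicit false

namespace MPadcEP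

open Polynomial Matrix MPadcGM MPadcOA

private theorem T2_dd_sum {k : Type} [Field k] {B : ℕ} (Δ : k[X]) (P : Fin B → k[X]) :
    dd Δ (∑ b, P b) = ∑ b, dd Δ (P b) := by
  unfold dd
  rw [Polynomial.derivative_sum, Finset.mul_sum]

private theorem T2_dd_pow {k : Type} [Field k] {p : ℕ} [CharP k p] (q : ℕ) (hq : p ∣ q) (Δ : k[X]) (n : ℕ)
    (P : k[X]) : dd Δ (X ^ (q * n) * P) = X ^ (q * n) * dd Δ P := by
  have h1 : ((q * n : ℕ) : k) = 0 := (CharP.cast_eq_zero_iff k p (q * n)).2 (hq.mul_right n)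
  unfold dd
  rw [Polynomial.derivative_mul, Polynomial.derivative_X_pow, h1, C_0, zero_mul, zero_mul, zero_add]
  ring

private theorem T2_iter {k : Type} [Field k] {p : ℕ} [CharP k p] (q : ℕ) (hq : p ∣ q) {B : ℕ} (Δ : k[X])
    (e : ℕ) (P : Fin B → k[X]) :
    (dd Δ)^[e] (∑ b : Fin B, X ^ (q * (b : ℕ)) * P b) =
      ∑ b : Fin B, X ^ (q * (b : ℕ)) * (dd Δ)^[e] (P b) := by
  induction e with
  | zero => rfl
  | succ e ih =>
    rw [Function.iterate_succ_apply', ih, T2_dd_sum]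
    refine Finset.sum_congr rfl fun b _ => ?_
    rw [T2_dd_pow (p := p) q hq, Function.iterate_succ_apply']

private theorem T2_iso {k : Type} [Field k] {ι : Type} [Fintype ι] {r : ℕ} (U : Matrix (Fin r) ι k[X]) (S : Matrix ι ι k[X])
    (h : U * S * Uᵀ = 0) (τ : k) :
    Matrix.map U (eval τ) * Matrix.map S (eval τ) * (Matrix.map U (eval τ))ᵀ = 0 := by
  have h1 : Matrix.map (U * S * Uᵀ) (evalRingHom τ) = Matrix.map (0 : Matrix (Fin r) (Fin r) k[X]) (evalRingHom τ) :=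
    congrArg (fun M : Matrix (Fin r) (Fin r) k[X] => Matrix.map M (evalRingHom τ)) h
  rw [Matrix.map_mul, Matrix.map_mul] at h1
  show Matrix.map U (evalRingHom τ) * Matrix.map S (evalRingHom τ) * (Matrix.map U (evalRingHom τ))ᵀ = 0
  rw [← Matrix.transpose_map, h1]
  ext i j
  simp only [Matrix.map_apply, Matrix.zero_apply, map_zero]

private theorem T2_key {k : Type} [Field k] (h2 : (2 : k) ≠ 0) {ι : Type} [Fintype ι] [DecidableEq ι]
    {r m c : ℕ} (hr : 2 * r < Fintype.card ι) (t₀ : Pq r ι) (D : FrR r ι k) (hD : D.Ok c)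
    (Ψ : (Fin (m + 1) → Pq r ι) → k[X]) (A' : ℕ) (hΨ : evG D.S D.E (m + 1) Ψ ∈ ZO D.S D.E t₀ m A')
    (τ : k) (hΔ : D.Δ.eval τ ≠ 0) (hτ : pl (Matrix.map D.U (eval τ)) t₀ = 0) :
    (evp (pl D.U) Ψ).eval τ = 0 := by
  have isoV := T2_iso D.U D.S hD.isoU τ
  have isoE := T2_iso D.E D.S hD.isoE τ
  have symT : (Matrix.map D.S (eval τ))ᵀ = Matrix.map D.S (eval τ) := by
    rw [← Matrix.transpose_map, hD.symm]
  obtain ⟨z, -, μ, hμ, hz⟩ := witt h2 hr (Matrix.map D.S (eval τ)) symT (hD.detS τ hΔ)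
    (Matrix.map D.E (eval τ)) (Matrix.map D.U (eval τ)) isoE isoV (hD.rkE τ hΔ) (hD.rkU τ hΔ)
  obtain ⟨y, hy, hy2⟩ := Submodule.mem_map.1 hΨ
  obtain ⟨ψ, -, rfl⟩ := (mem_SO D.S D.E y).1 hy
  have e1 : evG D.S D.E (m + 1) Ψ = evG D.S D.E (m + 1) (mulzP t₀ ψ) := by
    rw [evG_mulzP, ← hy2]
    rfl
  have e2 := congrArg (Polynomial.map (MvPolynomial.eval z)) e1
  rw [map_evG, map_evG] at e2
  have e3 := congrArg (eval τ) e2
  rw [eval_evT, eval_evT, hz, pl_smul] at e3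
  have e4 : (fun s => (mulzP t₀ ψ s).eval τ) = mulzP t₀ (fun s => (ψ s).eval τ) := by
    funext s
    exact mulzP_map t₀ (evalRingHom τ) ψ s
  rw [e4, evp_scale, evp_scale, evp_mulzP, hτ, zero_mul, mul_zero] at e3
  have e5 := (mul_eq_zero.1 e3).resolve_left (pow_ne_zero _ (pow_ne_zero _ hμ))
  rw [← e5]
  have e6 := evp_map (evalRingHom τ) (pl D.U) Ψ
  have e7 := pl_map' (evalRingHom τ) D.U
  rw [Polynomial.coe_evalRingHom] at e6 e7
  rw [e6, e7]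

theorem natDegree_auxP {k : Type} [Field k] {ι : Type} [Fintype ι] {r m B : ℕ} (q d A : ℕ) (P : Pq r ι → k[X]) (hP : ∀ t, (P t).natDegree ≤ d)
    (Φ : Fin B → (Fin m → Pq r ι) → k[X]) (hΦ : ∀ b s, (Φ b s).natDegree ≤ A) :
    (auxP q P Φ).natDegree ≤ q * B + A + m * d := by
  unfold auxP
  refine Polynomial.natDegree_sum_le_of_forall_le _ _ fun b _ => ?_
  refine (Polynomial.natDegree_mul_le).trans ?_
  have h1 : (X ^ (q * (b : ℕ)) : k[X]).natDegree ≤ q * (b : ℕ) := Polynomial.natDegree_X_pow_le _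
  have h2 := natDegree_evp P d A hP (Φ b) (hΦ b)
  have h3 : q * (b : ℕ) ≤ q * B := Nat.mul_le_mul_left q b.isLt.le
  omega

theorem dd_auxP_eval {k : Type} [Field k] (h2 : (2 : k) ≠ 0) {p : ℕ} [Fact p.Prime] [CharP k p] {ι : Type} [Fintype ι] [DecidableEq ι]
    {r m B c : ℕ} (hr : 2 * r < Fintype.card ι) (t₀ : Pq r ι) (q : ℕ) (hq : p ∣ q) (D : FrR r ι k) (hD : D.Ok c)
    (Φ : Fin B → (Fin (m + 1) → Pq r ι) → k[X]) (e A' : ℕ) (γ : k)
    (hΦ : evG D.S D.E (m + 1) (fun s => ∑ b : Fin B, tw B γ b * (opP D.Δ D.G)^[e] (Φ b) s) ∈ ZO D.S D.E t₀ m A')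
    (τ : k) (hΔ : D.Δ.eval τ ≠ 0) (hτq : τ ^ q * (1 + γ * τ) = τ) (hτ : pl (Matrix.map D.U (eval τ)) t₀ = 0) :
    ((dd D.Δ)^[e] (auxP q (pl D.U) Φ)).eval τ = 0 := by
  have h1 : (dd D.Δ)^[e] (auxP q (pl D.U) Φ) =
      ∑ b : Fin B, X ^ (q * (b : ℕ)) * evp (pl D.U) ((opP D.Δ D.G)^[e] (Φ b)) := by
    unfold auxP
    rw [T2_iter (p := p) q hq]
    refine Finset.sum_congr rfl fun b _ => ?_
    rw [dd_iterate_evp D.Δ D.G (pl D.U) hD.horU]
  have hv : 1 + γ * τ ≠ 0 := by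
    intro h
    rw [h, mul_zero] at hτq
    rw [← hτq, mul_zero, add_zero] at h
    exact one_ne_zero h
  have h3 : eval τ (∑ b : Fin B, tw B γ b * evp (pl D.U) ((opP D.Δ D.G)^[e] (Φ b))) =
      (1 + γ * τ) ^ B * eval τ (∑ b : Fin B, X ^ (q * (b : ℕ)) * evp (pl D.U) ((opP D.Δ D.G)^[e] (Φ b))) := by
    rw [Polynomial.eval_finsetSum, Polynomial.eval_finsetSum, Finset.mul_sum]
    refine Finset.sum_congr rfl fun b _ => ?_
    have h3 : eval τ (tw B γ b) = (1 + γ * τ) ^ B * τ ^ (q * (b : ℕ)) := by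
      unfold tw
      rw [Polynomial.eval_mul, Polynomial.eval_pow, Polynomial.eval_pow, Polynomial.eval_X,
        Polynomial.eval_add, Polynomial.eval_one, Polynomial.eval_mul, Polynomial.eval_C, Polynomial.eval_X]
      calc τ ^ (b : ℕ) * (1 + γ * τ) ^ (B - (b : ℕ)) =
          (τ ^ q * (1 + γ * τ)) ^ (b : ℕ) * (1 + γ * τ) ^ (B - (b : ℕ)) := by rw [hτq]
        _ = ((1 + γ * τ) ^ (b : ℕ) * (1 + γ * τ) ^ (B - (b : ℕ))) * τ ^ (q * (b : ℕ)) := by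
          rw [mul_pow, ← pow_mul]
          ring
        _ = (1 + γ * τ) ^ B * τ ^ (q * (b : ℕ)) := by
          rw [← pow_add, Nat.add_sub_cancel' b.isLt.le]
    rw [Polynomial.eval_mul, h3, Polynomial.eval_mul, Polynomial.eval_pow, Polynomial.eval_X, mul_assoc]
  have h4 := T2_key h2 hr t₀ D hD (fun s => ∑ b : Fin B, tw B γ b * (opP D.Δ D.G)^[e] (Φ b) s) A' hΦ τ hΔ hτ
  rw [evp_sum, h3] at h4
  rw [h1]
  exact (mul_eq_zero.1 h4).resolve_left (pow_ne_zero _ hv)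

end MPadcEP
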