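import Pool.Agent.Lib.MP_adc574_ag_EP.G1

/-!
# LEAF T3: the auxiliary polynomial is not zero (medium)

Suppose `∑ b, X ^ (q b) * evp (pl U) (Φ b) = 0`, `q = p ^ n`, `n > 0`. Let `α` with `Δ(α) ≠ 0` and `Ψ s = ∑ b, C (α ^ (q b)) * Φ b s`, of degree `≤ A`.
`evp (pl U) Ψ = ∑ b, C (α ^ (q b)) * evp (pl U) (Φ b) = - ∑ b, (X ^ (q b) - C (α ^ (q b))) * evp (pl U) (Φ b)` and `X ^ (q b) - C α ^ (q b) = (X ^ b - C α ^ b) ^ (p ^ n)` (`sub_pow_char_pow`) is divisible by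
`(X - C α) ^ (p ^ n)` (`sub_dvd_pow_sub_pow`, `pow_dvd_pow_of_dvd`), so by `(X - C α) ^ p` (`p ≤ p ^ n`) (model: `auxP_ne_zero` in IP/Q11.lean). By `Hnv` `evp (pl V) Ψ(α) = 0` for all isotropic `V` with independent rows.
Let `z : Zc r ι → k` and `V = thF T E₀ z`, `T = S(α)`, `E₀ = E(α)`: `V` is isotropic (`thF_iso`, M1); if its rows are dependent then `pl V = 0` (`pl_zero_of_dep`) and the value is zero too (`evp_zero_of_pl`,
the degree of the forms is `m + 1`). So (`eval_evT`) the polynomial `H_z = ∑ b, X ^ (q b) * P b`, `P b = evp (pl (thF S E (C ∘ z))) (Φ b)` vanishes at all `α` with `Δ(α) ≠ 0`: `H_z * Δ` vanishes at all points of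
the infinite field `k`, so `H_z = 0`. The degree of `P b` is `< q` (`natDegree_evT`, `hq`), so all `P b = 0`: the coefficient of `X ^ (q b + i)`, `i < q`, in `H_z` is the coefficient `i` of `P b`
(`coeff_X_pow_mul'`, `finsetSum_coeff`; only the summand `b` contributes: for `b' < b` the degree of `X ^ (q b') P b'` is `< q b' + q ≤ q b + i`, for `b' > b` it is divisible by `X ^ (q b')`, `q b' ≥ q b + q > q b + i`).
This holds for all `z`, so `evG S E (m + 1) (Φ b) = 0` for all `b` (`evG_eq_zero`, G1), a contradiction to `hne`.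
-/

set_option autoImplicit false

namespace MPadcEP

open Polynomial Matrix MPadcGM MPadcOA

private theorem T3_zero {k : Type} [Field k] [Infinite k] (H Δ : k[X]) (hΔ : Δ ≠ 0)
    (h : ∀ α : k, Δ.eval α ≠ 0 → H.eval α = 0) : H = 0 := by
  have h1 : H * Δ = 0 := by
    refine Polynomial.funext fun α => ?_
    rw [eval_mul, eval_zero]
    by_cases h2 : Δ.eval α = 0
    · rw [h2, mul_zero]
    · rw [h α h2, zero_mul]
  exact (mul_eq_zero.1 h1).resolve_right hΔ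

private theorem T3_digits {k : Type} [Field k] {B q : ℕ} (P : Fin B → k[X]) (hP : ∀ b, (P b).natDegree < q)
    (h : ∑ b : Fin B, X ^ (q * (b : ℕ)) * P b = 0) (b₀ : Fin B) : P b₀ = 0 := by
  ext i
  rw [coeff_zero]
  by_cases hi : i < q
  · have h1 := congrArg (fun Q : k[X] => Q.coeff (q * (b₀ : ℕ) + i)) h
    simp only [finsetSum_coeff, coeff_X_pow_mul', coeff_zero] at h1
    rw [Finset.sum_eq_single b₀] at h1
    · rw [if_pos (Nat.le_add_right _ _), Nat.add_sub_cancel_left] at h1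
      exact h1
    · intro b _ hb
      rcases lt_or_gt_of_ne (fun h2 : (b : ℕ) = (b₀ : ℕ) => hb (Fin.ext h2)) with h2 | h2
      · have h3 : q * (b : ℕ) + q ≤ q * (b₀ : ℕ) := by
          rw [← Nat.mul_succ]
          exact Nat.mul_le_mul_left q h2
        rw [if_pos (by omega)]
        refine coeff_eq_zero_of_natDegree_lt (lt_of_lt_of_le (hP b) ?_)
        omega
      · have h3 : q * (b₀ : ℕ) + q ≤ q * (b : ℕ) := by
          rw [← Nat.mul_succ]
          exact Nat.mul_le_mul_left q h2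
        rw [if_neg (by omega)]
    · intro h2
      exact absurd (Finset.mem_univ _) h2
  · exact coeff_eq_zero_of_natDegree_lt (lt_of_lt_of_le (hP b₀) (not_lt.1 hi))

theorem auxP_ne_zero {k : Type} [Field k] [Infinite k] {p : ℕ} [Fact p.Prime] [CharP k p] {ι : Type} [Fintype ι] [DecidableEq ι]
    {r m B c : ℕ} (D : FrR r ι k) (hD : D.Ok c) (n : ℕ) (hn : 0 < n) (A : ℕ) (Φ : Fin B → (Fin (m + 1) → Pq r ι) → k[X])
    (hΦ : ∀ b s, (Φ b s).natDegree ≤ A) (hne : ∃ b, evG D.S D.E (m + 1) (Φ b) ≠ 0)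
    (hq : A + (m + 1) * (r * ((2 * r + 1) * c)) < p ^ n)
    (Hnv : ∀ Ψ : (Fin (m + 1) → Pq r ι) → k[X], (∀ s, (Ψ s).natDegree ≤ A) → ∀ α : k, D.Δ.eval α ≠ 0 →
      (X - C α) ^ p ∣ evp (pl D.U) Ψ → VanI (Matrix.map D.S (eval α)) fun s => (Ψ s).eval α) :
    auxP (p ^ n) (pl D.U) Φ ≠ 0 := by
  classical
  intro haux
  obtain ⟨b₀, hb₀⟩ := hne
  refine hb₀ (evG_eq_zero D.S D.E (Φ b₀) fun z => ?_)
  obtain ⟨P, hP⟩ : ∃ P : Fin B → k[X], ∀ b, P b = evp (pl (thF D.S D.E fun l => C (z l))) (Φ b) :=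
    ⟨_, fun _ => rfl⟩
  rw [← hP]
  have hPd : ∀ b, (P b).natDegree < p ^ n := by
    intro b
    rw [hP]
    exact lt_of_le_of_lt (natDegree_evT D.S D.E c A hD.degS hD.degE z (Φ b) (hΦ b)) hq
  refine T3_digits P hPd (T3_zero _ D.Δ hD.ne fun α hα => ?_) b₀
  obtain ⟨Ψ, hΨ⟩ : ∃ Ψ : (Fin (m + 1) → Pq r ι) → k[X], ∀ s, Ψ s = ∑ b : Fin B, C (α ^ (p ^ n * (b : ℕ))) * Φ b s :=
    ⟨_, fun _ => rfl⟩
  have hev : evp (pl D.U) Ψ = ∑ b : Fin B, C (α ^ (p ^ n * (b : ℕ))) * evp (pl D.U) (Φ b) := by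
    rw [show Ψ = fun s => ∑ b : Fin B, C (α ^ (p ^ n * (b : ℕ))) * Φ b s from funext hΨ]
    exact evp_sum Finset.univ (pl D.U) (fun b : Fin B => C (α ^ (p ^ n * (b : ℕ)))) Φ
  have hev2 : evp (pl D.U) Ψ = ∑ b : Fin B, (C (α ^ (p ^ n * (b : ℕ))) - X ^ (p ^ n * (b : ℕ))) *
      evp (pl D.U) (Φ b) := by
    simp only [sub_mul, Finset.sum_sub_distrib]
    unfold auxP at haux
    rw [haux, sub_zero, hev]
  have hdv : (X - C α) ^ p ∣ evp (pl D.U) Ψ := by
    rw [hev2]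
    refine Finset.dvd_sum fun b _ => Dvd.dvd.mul_right ?_ _
    have h1 : (X - C α) ^ p ∣ (X - C α : k[X]) ^ p ^ n :=
      pow_dvd_pow _ (Nat.le_self_pow hn.ne' p)
    have h2 : (X - C α : k[X]) ^ p ^ n = X ^ p ^ n - C α ^ p ^ n := sub_pow_char_pow _ _ n
    have h3 : (C α ^ p ^ n - X ^ p ^ n : k[X]) ∣ (C α ^ p ^ n) ^ (b : ℕ) - (X ^ p ^ n) ^ (b : ℕ) :=
      sub_dvd_pow_sub_pow _ _ _
    have h4 : (X - C α : k[X]) ^ p ^ n ∣ C α ^ p ^ n - X ^ p ^ n := by
      rw [h2, ← neg_sub]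
      exact neg_dvd.2 dvd_rfl
    have h5 : C (α ^ (p ^ n * (b : ℕ))) - X ^ (p ^ n * (b : ℕ)) =
        (C α ^ p ^ n) ^ (b : ℕ) - (X ^ p ^ n : k[X]) ^ (b : ℕ) := by
      rw [← pow_mul, ← pow_mul, C_pow]
    rw [h5]
    exact h1.trans (h4.trans h3)
  have hdeg : ∀ s, (Ψ s).natDegree ≤ A := by
    intro s
    rw [hΨ]
    refine natDegree_sum_le_of_forall_le _ _ fun b _ => ?_
    exact (natDegree_C_mul_le _ _).trans (hΦ b s)
  have hvan := Hnv Ψ hdeg α hα hdv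
  have hSα : (Matrix.map D.S (eval α))ᵀ = Matrix.map D.S (eval α) := by
    rw [← Matrix.transpose_map, hD.symm]
  have hEα : Matrix.map D.E (eval α) * Matrix.map D.S (eval α) * (Matrix.map D.E (eval α))ᵀ = 0 := by
    have h1 := congrArg (fun M : Matrix (Fin r) (Fin r) k[X] => M.map (evalRingHom α)) hD.isoE
    simp only [Matrix.map_mul] at h1
    have h2 : (0 : Matrix (Fin r) (Fin r) k[X]).map (evalRingHom α) = 0 := by
      ext i j
      exact map_zero (evalRingHom α)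
    rw [h2] at h1
    exact h1
  obtain ⟨V, hV⟩ : ∃ V : Matrix (Fin r) ι k, V = thF (Matrix.map D.S (eval α)) (Matrix.map D.E (eval α)) z :=
    ⟨_, rfl⟩
  have hVi : V * Matrix.map D.S (eval α) * Vᵀ = 0 := by
    rw [hV]
    exact thF_iso _ hSα _ hEα z
  have hV0 : evp (pl V) (fun s => (Ψ s).eval α) = 0 := by
    by_cases hl : LinearIndependent k fun i => V i
    · exact hvan V hVi hl
    · rw [pl_zero_of_dep V hl]
      exact evp_zero_of_pl _
  have hsum : (fun s => (Ψ s).eval α) =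
      fun s => ∑ b ∈ (Finset.univ : Finset (Fin B)), α ^ (p ^ n * (b : ℕ)) * (Φ b s).eval α := by
    funext s
    rw [hΨ, eval_finsetSum]
    refine Finset.sum_congr rfl fun b _ => ?_
    rw [eval_mul, eval_C]
  rw [hsum, evp_sum Finset.univ (pl V) (fun b : Fin B => α ^ (p ^ n * (b : ℕ))) fun b s => (Φ b s).eval α] at hV0
  rw [eval_finsetSum, ← hV0]
  refine Finset.sum_congr rfl fun b _ => ?_
  rw [eval_mul, eval_pow, eval_X, hP, eval_evT, hV]

end MPadcEP
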