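import Mathlib

/-!
# LEAF T4: small relative increments (medium-, MATHLIB ONLY, copy of OA/S7.lean)

Copy of `exists_inc` (OA/S7.lean) with the bound `(L * (J + 1) * j + 1) * (j + 1) ^ K`: for `j = J` it is at most `(L + 1) * (J + 1) ^ (K + 2)`, and an exponential beats a polynomial
(`tendsto_pow_const_div_const_pow_of_one_lt`; `(J + 1) ^ (K + 2) ≤ (2 J) ^ (K + 2)` for `J ≥ 1`).
With `0 < e < 1`, `e ≤ δ`: if `σ (j + 1) - σ j > δ σ (j + 1)` for all `j < J` then `σ (j + 1) ≥ σ j / (1 - e)`, so `σ J ≥ (1 / (1 - e)) ^ J`.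
-/

set_option autoImplicit false

namespace MPadcEP

private theorem T4_large (K L : ℕ) (r : ℝ) (hr : 1 < r) :
    ∃ J : ℕ, (((L : ℝ) * ((J : ℝ) + 1) * J + 1) * ((J : ℝ) + 1) ^ K : ℝ) < r ^ J := by
  have h1 := tendsto_pow_const_div_const_pow_of_one_lt (K + 2) hr
  have hc : (0 : ℝ) < 1 / (((L : ℝ) + 1) * 2 ^ (K + 2)) := by positivity
  have h2 := h1.eventually (gt_mem_nhds hc)
  obtain ⟨J, hJ, hJ1⟩ := (h2.and (Filter.eventually_ge_atTop 1)).exists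
  refine ⟨J, ?_⟩
  have hr0 : (0 : ℝ) < r ^ J := pow_pos (by linarith) J
  have hJ2 : (1 : ℝ) ≤ J := by exact_mod_cast hJ1
  have hL : (0 : ℝ) ≤ L := Nat.cast_nonneg L
  rw [div_lt_div_iff₀ hr0 (by positivity), one_mul] at hJ
  refine lt_of_le_of_lt ?_ hJ
  have h3 : (L : ℝ) * ((J : ℝ) + 1) * J + 1 ≤ ((L : ℝ) + 1) * ((J : ℝ) + 1) ^ 2 := by
    nlinarith [mul_nonneg hL (by linarith : (0 : ℝ) ≤ (J : ℝ)), mul_nonneg hL (mul_self_nonneg (J : ℝ))]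
  have h4 : ((J : ℝ) + 1) ^ (K + 2) ≤ (2 * (J : ℝ)) ^ (K + 2) :=
    pow_le_pow_left₀ (by positivity) (by linarith) _
  calc ((L : ℝ) * ((J : ℝ) + 1) * J + 1) * ((J : ℝ) + 1) ^ K
      ≤ (((L : ℝ) + 1) * ((J : ℝ) + 1) ^ 2) * ((J : ℝ) + 1) ^ K := mul_le_mul_of_nonneg_right h3 (by positivity)
    _ = ((L : ℝ) + 1) * ((J : ℝ) + 1) ^ (K + 2) := by ring
    _ ≤ ((L : ℝ) + 1) * (2 * (J : ℝ)) ^ (K + 2) := mul_le_mul_of_nonneg_left h4 (by positivity)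
    _ = (J : ℝ) ^ (K + 2) * (((L : ℝ) + 1) * 2 ^ (K + 2)) := by
      rw [mul_pow]
      ring

theorem exists_incO (K L : ℕ) (δ : ℝ) (hδ : 0 < δ) : ∃ J : ℕ, ∀ σ : ℕ → ℕ, 0 < σ 0 →
    (∀ j ≤ J, σ j ≤ (L * (J + 1) * j + 1) * (j + 1) ^ K) →
    ∃ j, j < J ∧ (σ (j + 1) : ℝ) - σ j ≤ δ * σ (j + 1) := by
  obtain ⟨e, he0, he1, heδ⟩ : ∃ e : ℝ, 0 < e ∧ e < 1 ∧ e ≤ δ :=
    ⟨min δ (1 / 2), lt_min hδ (by norm_num), lt_of_le_of_lt (min_le_right _ _) (by norm_num), min_le_left _ _⟩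
  have h1e : 0 < 1 - e := by linarith
  have hr : 1 < 1 / (1 - e) := by
    rw [lt_div_iff₀ h1e]
    linarith
  obtain ⟨J, hJ⟩ := T4_large K L (1 / (1 - e)) hr
  refine ⟨J, fun σ h0 hσ => ?_⟩
  by_contra hcon
  push Not at hcon
  have hind : ∀ j, j ≤ J → (1 / (1 - e)) ^ j ≤ (σ j : ℝ) := by
    intro j
    induction j with
    | zero =>
      intro _
      rw [pow_zero]
      exact_mod_cast h0
    | succ j ih =>
      intro hj
      have h1 := ih (by omega)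
      have h2 := hcon j (by omega)
      have h3 : e * (σ (j + 1) : ℝ) ≤ δ * σ (j + 1) := mul_le_mul_of_nonneg_right heδ (Nat.cast_nonneg _)
      have h4 : (σ j : ℝ) ≤ (1 - e) * σ (j + 1) := by linarith
      rw [pow_succ]
      calc (1 / (1 - e)) ^ j * (1 / (1 - e)) ≤ (σ j : ℝ) * (1 / (1 - e)) :=
            mul_le_mul_of_nonneg_right h1 (by positivity)
        _ ≤ ((1 - e) * σ (j + 1)) * (1 / (1 - e)) := mul_le_mul_of_nonneg_right h4 (by positivity)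
        _ = (σ (j + 1) : ℝ) := by field_simp
  have h5 := hind J le_rfl
  have h6 : (σ J : ℝ) ≤ (((L : ℝ) * ((J : ℝ) + 1) * J + 1) * ((J : ℝ) + 1) ^ K : ℝ) := by
    have := hσ J le_rfl
    exact_mod_cast this
  linarith

end MPadcEP
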