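import Pool.Agent.Lib.MP_adc574_ag_EP.G3
import Pool.Agent.Lib.MP_adc574_ag_EP.G4
import Pool.Agent.Lib.MP_adc574_ag_EP.T1
import Pool.Agent.Lib.MP_adc574_ag_EP.T2
import Pool.Agent.Lib.MP_adc574_ag_EP.T3
import Pool.Agent.Lib.MP_adc574_ag_EP.T4

/-!
# LEAF T5: Stepanov's method for one system (medium+, assembly; model `countP1` in IP/Q22.lean)

Constants: `δ = min (ε / 16) (1 / 8)`, `K = card (Pq r ι)`, `L = (C₀ + 1) * (1 + c * ⌈1 / (4 δ)⌉₊)` (any `L` with `B + c * M ≤ L * (J + 1)` below), `J` from `exists_incO K L δ` (T4), `B = J * C₀ + 1`, `M = ⌊B / (4 δ)⌋₊`,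
`a = B + c * M ≤ L * (J + 1)`, `N = a * (J + 1) + M + J + (J + 1) * (r * ((2 * r + 1) * c)) + 3`.
Let `σ j = so D.S D.E j (a * j)`: `σ 0 > 0` (`so_pos`), `σ j ≤ (a * j + 1) * (j + 1) ^ K ≤ (L * (J + 1) * j + 1) * (j + 1) ^ K` (`so_le`, G3). So there is `m < J` with `σ (m + 1) - σ m ≤ δ σ (m + 1)`. Let `A = a * m`, `A + a = a * (m + 1)`.
`so (m + 1) (A + a) = σ (m + 1)`, `so m (A + a) ≥ σ m` (`so_mono`), `so (m + 1) A ≥ so m A = σ m` (`so_succ`, `gp_ne`), `σ m ≤ σ (m + 1)` (`so_succ`, `so_mono`), all `> 0`.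
`hdim` of T1: `M * (so (m+1) (A+a) - so m (A+a)) ≤ M * (σ (m+1) - σ m) ≤ M * 2 δ * σ m ≤ (B / 2) σ m < B * so (m+1) A` (from `σ (m+1) - σ m ≤ δ σ (m+1)`, `δ ≤ 1/2`: `σ (m+1) - σ m ≤ 2 δ σ m`).
So `exists_formsO` (T1) with `Q b = tw B γ b` (`natDegree_tw` in OA/S12.lean) gives `Φ`; `auxP (p ^ n) (pl D.U) Φ ≠ 0` (T3; `Hnv` from the hypothesis for `m + 1`), all `τ ∈ Z` are zeros of order `≥ M`
(`pow_dvd_of_dd` in OA/S3.lean, `dd_auxP_eval` (T2)), `card_mul_le` (OA/S3.lean): `Z.card * M ≤ p ^ n * B + A + (m + 1) * (C₀ * p) ≤ 2 B p ^ n` as in `countP1`; `M ≥ B / (8 δ)` since `B / (8 δ) ≥ 1`;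
`Z.card ≤ 16 δ p ^ n ≤ ε p ^ n`. (`2 ≠ 0` in `k` because `p ≥ 3`: `CharP.cast_eq_zero_iff`, `Nat.le_of_dvd`.)
-/

set_option autoImplicit false

namespace MPadcEP

open Polynomial Matrix MPadcGM MPadcOA

private theorem T5_dim (B M s0 s1 s0' s2 : ℕ) (δ : ℝ) (hδ : 0 < δ) (hδ2 : δ ≤ 1 / 2) (hs : 0 < s0) (hB : 0 < B)
    (hM : (M : ℝ) ≤ B / (4 * δ)) (h01 : s0 ≤ s1) (hinc : (s1 : ℝ) - s0 ≤ δ * s1) (h0 : s0 ≤ s0') (h2 : s0 ≤ s2) :
    M * (s1 - s0') < B * s2 := by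
  have hs' : (0 : ℝ) < s0 := by exact_mod_cast hs
  have hB' : (0 : ℝ) < B := by exact_mod_cast hB
  have h3 : (s1 : ℝ) ≤ 2 * s0 := by
    have h4 : δ * (s1 : ℝ) ≤ 1 / 2 * s1 := mul_le_mul_of_nonneg_right hδ2 (Nat.cast_nonneg _)
    linarith
  have h5 : (s1 : ℝ) - s0 ≤ 2 * δ * s0 := by
    have h4 : δ * (s1 : ℝ) ≤ δ * (2 * s0) := mul_le_mul_of_nonneg_left h3 hδ.le
    linarith
  have h6 : (M : ℝ) * ((s1 : ℝ) - s0) ≤ B / 2 * s0 := by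
    calc (M : ℝ) * ((s1 : ℝ) - s0) ≤ M * (2 * δ * s0) := mul_le_mul_of_nonneg_left h5 (Nat.cast_nonneg M)
      _ ≤ B / (4 * δ) * (2 * δ * s0) := mul_le_mul_of_nonneg_right hM (by positivity)
      _ = B / 2 * s0 := by
          field_simp
          ring
  have h7 : ((M * (s1 - s0) : ℕ) : ℝ) < ((B * s0 : ℕ) : ℝ) := by
    push_cast [Nat.cast_sub h01]
    have h8 : (0 : ℝ) < B / 2 * s0 := by positivity
    have h9 : (B : ℝ) * s0 = B / 2 * s0 + B / 2 * s0 := by ring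
    linarith
  have h10 : M * (s1 - s0) < B * s0 := by exact_mod_cast h7
  calc M * (s1 - s0') ≤ M * (s1 - s0) := Nat.mul_le_mul_left _ (Nat.sub_le_sub_left h0 _)
    _ < B * s0 := h10
    _ ≤ B * s2 := Nat.mul_le_mul_left _ h2

theorem countO1 {ι : Type} [Fintype ι] [DecidableEq ι] {r : ℕ} (hr : 2 * r < Fintype.card ι) (t₀ : Pq r ι) (ht : Function.Injective t₀)
    (c C₀ : ℕ) (ε : ℝ) (hε : 0 < ε) :
    ∃ N : ℕ, ∀ p : ℕ, p.Prime → N ≤ p → ∀ (k : Type) [Field k] [CharP k p] [Infinite k] (D : FrR r ι k), D.Ok c →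
    (∀ t, (pl D.U t).natDegree ≤ C₀ * p) →
    (∀ m ≤ N, ∀ Φ : (Fin m → Pq r ι) → k[X], (∀ s, (Φ s).natDegree ≤ N) → ∀ α : k, D.Δ.eval α ≠ 0 →
      (X - C α) ^ p ∣ evp (pl D.U) Φ → VanI (Matrix.map D.S (eval α)) fun s => (Φ s).eval α) →
    ∀ n : ℕ, 0 < n → ∀ (γ : k) (Z : Finset k),
    (∀ τ ∈ Z, τ ^ p ^ n * (1 + γ * τ) = τ ∧ D.Δ.eval τ ≠ 0 ∧ pl (Matrix.map D.U (eval τ)) t₀ = 0) →
    (Z.card : ℝ) ≤ ε * (p : ℝ) ^ n := by
  obtain ⟨δ, hδdef⟩ : ∃ δ : ℝ, δ = min (ε / 16) (1 / 8) := ⟨_, rfl⟩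
  have hδ : 0 < δ := by rw [hδdef]; exact lt_min (by positivity) (by norm_num)
  have hδε : 16 * δ ≤ ε := by
    have := min_le_left (ε / 16) (1 / 8 : ℝ)
    rw [← hδdef] at this
    linarith
  have hδ8 : δ ≤ 1 / 8 := by rw [hδdef]; exact min_le_right _ _
  obtain ⟨u, hu⟩ : ∃ u : ℕ, u = ⌈1 / (4 * δ)⌉₊ := ⟨_, rfl⟩
  have hule : 1 / (4 * δ) ≤ (u : ℝ) := by rw [hu]; exact Nat.le_ceil _
  obtain ⟨L, hL⟩ : ∃ L : ℕ, L = (C₀ + 1) * (1 + c * u) := ⟨_, rfl⟩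
  obtain ⟨J, hJ⟩ := exists_incO (Fintype.card (Pq r ι)) L δ hδ
  obtain ⟨B, hBdef⟩ : ∃ B : ℕ, B = J * C₀ + 1 := ⟨_, rfl⟩
  obtain ⟨M, hMdef⟩ : ∃ M : ℕ, M = ⌊(B : ℝ) / (4 * δ)⌋₊ := ⟨_, rfl⟩
  obtain ⟨a, hadef⟩ : ∃ a : ℕ, a = B + c * M := ⟨_, rfl⟩
  obtain ⟨w, hw⟩ : ∃ w : ℕ, w = r * ((2 * r + 1) * c) := ⟨_, rfl⟩
  have hB0 : 0 < B := by omega
  have hB1 : (1 : ℝ) ≤ B := by exact_mod_cast hB0
  have hMle : (M : ℝ) ≤ B / (4 * δ) := by
    rw [hMdef]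
    exact Nat.floor_le (by positivity)
  have hMu : M ≤ B * u := by
    have h1 : (M : ℝ) ≤ ((B * u : ℕ) : ℝ) := by
      push_cast
      calc (M : ℝ) ≤ B / (4 * δ) := hMle
        _ = B * (1 / (4 * δ)) := by ring
        _ ≤ B * u := mul_le_mul_of_nonneg_left hule (Nat.cast_nonneg _)
    exact_mod_cast h1
  have haL : a ≤ L * (J + 1) := by
    have h1 : c * M ≤ c * (B * u) := Nat.mul_le_mul_left _ hMu
    have h2 : B ≤ (C₀ + 1) * (J + 1) := by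
      rw [hBdef]
      nlinarith
    calc a ≤ B + c * (B * u) := by omega
      _ = B * (1 + c * u) := by ring
      _ ≤ (C₀ + 1) * (J + 1) * (1 + c * u) := Nat.mul_le_mul_right _ h2
      _ = L * (J + 1) := by rw [hL]; ring
  refine ⟨a * (J + 1) + M + J + (J + 1) * w + 3, fun p hp hp₀ k _ _ _ D hD hU hnv n hn γ Z hZ => ?_⟩
  have : Fact p.Prime := ⟨hp⟩
  have h2 : (2 : k) ≠ 0 := by
    intro h
    have h1 : ((2 : ℕ) : k) = 0 := by exact_mod_cast h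
    have h3 := Nat.le_of_dvd (by norm_num) ((CharP.cast_eq_zero_iff k p 2).1 h1)
    omega
  have hgp := gp_ne h2 hr D hD t₀ ht
  -- the degree
  obtain ⟨m, hj, hinc'⟩ := hJ (fun j => so D.S D.E j (a * j)) (by
      show 0 < so D.S D.E 0 (a * 0)
      rw [mul_zero]
      exact so_pos D.S D.E) (fun j _ => by
      refine (so_le D.S D.E j (a * j)).trans (Nat.mul_le_mul_right _ ?_)
      have := Nat.mul_le_mul_right j haL
      omega)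
  have hmono : ∀ j, so D.S D.E j (a * j) ≤ so D.S D.E (j + 1) (a * (j + 1)) := fun j =>
    (so_succ D.S D.E t₀ hgp j (a * j)).trans (so_mono D.S D.E (j + 1) _ _ (Nat.mul_le_mul_left _ (Nat.le_succ j)))
  have hpos : 0 < so D.S D.E m (a * m) := by
    have h1 : ∀ i : ℕ, 0 < so D.S D.E i (a * i) := by
      intro i
      induction i with
      | zero =>
        rw [mul_zero]
        exact so_pos D.S D.E
      | succ i ih => exact ih.trans_le (hmono i)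
    exact h1 m
  obtain ⟨A, hAdef⟩ : ∃ A : ℕ, A = a * m := ⟨_, rfl⟩
  have hAa : a * (m + 1) = A + a := by rw [hAdef, mul_add, mul_one]
  have hmn := hmono m
  rw [hAa, ← hAdef] at hmn
  simp only [hAa] at hinc'
  rw [← hAdef] at hinc' hpos
  have hdim := T5_dim B M (so D.S D.E m A) (so D.S D.E (m + 1) (A + a)) (so D.S D.E m (A + a)) (so D.S D.E (m + 1) A) δ hδ
    (by linarith) hpos hB0 hMle hmn hinc' (so_mono D.S D.E m _ _ (Nat.le_add_right _ _)) (so_succ D.S D.E t₀ hgp m A)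
  obtain ⟨Φ, hΦ1, hΦ2, hΦ3⟩ := exists_formsO D.S D.E t₀ hgp m B A M c a (fun b => tw B γ b)
    (fun b => natDegree_tw B γ b b.isLt.le) D.Δ D.G hD.degD hD.degG hadef.ge hdim
  have hmJ : m + 1 ≤ J := hj
  have hAJ : A ≤ a * (J + 1) := by
    rw [hAdef]
    exact Nat.mul_le_mul_left _ (by omega)
  have hwJ : (m + 1) * w ≤ (J + 1) * w := Nat.mul_le_mul_right _ (by omega)
  have hpq : p ≤ p ^ n := Nat.le_self_pow hn.ne' p
  -- the auxiliary polynomial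
  have hne : auxP (p ^ n) (pl D.U) Φ ≠ 0 :=
    auxP_ne_zero (p := p) D hD n hn A Φ hΦ1 hΦ2 (by rw [← hw]; omega) fun Ψ h1 α h2 h3 =>
      hnv (m + 1) (by omega) Ψ (fun s => (h1 s).trans (by omega)) α h2 h3
  have hq : p ∣ p ^ n := dvd_pow_self p hn.ne'
  have hdvd : ∀ τ ∈ Z, (X - C τ) ^ M ∣ auxP (p ^ n) (pl D.U) Φ := by
    intro τ hτ
    obtain ⟨h3, h4, h5⟩ := hZ τ hτ
    refine pow_dvd_of_dd (p := p) D.Δ _ τ h4 M (by omega) fun e he => ?_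
    exact dd_auxP_eval h2 hr t₀ (p ^ n) hq D hD Φ e (A + a) γ (hΦ3 e he) τ h4 h3 h5
  have hcard := card_mul_le _ hne Z M hdvd
  have hdeg := natDegree_auxP (p ^ n) (C₀ * p) A (pl D.U) hU Φ hΦ1
  -- the inequality
  have h1 : Z.card * M ≤ 2 * B * p ^ n := by
    have h2 : (m + 1) * (C₀ * p) ≤ J * C₀ * p ^ n := by
      rw [mul_assoc J]
      exact Nat.mul_le_mul hmJ (Nat.mul_le_mul_left _ hpq)
    have h3 : A ≤ p ^ n := by omega
    calc Z.card * M ≤ p ^ n * B + A + (m + 1) * (C₀ * p) := hcard.trans hdeg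
      _ ≤ p ^ n * B + p ^ n + J * C₀ * p ^ n := by omega
      _ = 2 * B * p ^ n := by rw [hBdef]; ring
  have hM1 : (B : ℝ) / (8 * δ) ≤ M := by
    have h2 : (B : ℝ) / (4 * δ) < M + 1 := by
      rw [hMdef]
      exact Nat.lt_floor_add_one _
    have h3 : (1 : ℝ) ≤ B / (8 * δ) := by
      rw [le_div_iff₀ (by positivity)]
      linarith
    have h4 : (B : ℝ) / (4 * δ) = B / (8 * δ) + B / (8 * δ) := by
      field_simp
      ring
    linarith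
  have h5 : (Z.card : ℝ) * M ≤ 2 * B * (p : ℝ) ^ n := by exact_mod_cast h1
  have h6 : (Z.card : ℝ) * (B / (8 * δ)) ≤ 2 * B * (p : ℝ) ^ n :=
    (mul_le_mul_of_nonneg_left hM1 (Nat.cast_nonneg _)).trans h5
  have hB' : (0 : ℝ) < B := by linarith
  have h7 : (Z.card : ℝ) ≤ 16 * δ * (p : ℝ) ^ n := by
    have h8 : (Z.card : ℝ) * (B / (8 * δ)) * (8 * δ / B) = Z.card := by
      field_simp
    rw [← h8]
    calc (Z.card : ℝ) * (B / (8 * δ)) * (8 * δ / B) ≤ 2 * B * (p : ℝ) ^ n * (8 * δ / B) :=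
          mul_le_mul_of_nonneg_right h6 (by positivity)
      _ = 16 * δ * (p : ℝ) ^ n := by
          field_simp
          ring
  exact h7.trans (mul_le_mul_of_nonneg_right hδε (by positivity))

end MPadcEP
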