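import Pool.Agent.Lib.MP_adc574_ag_EP.V1

/-!
# LEAF V2: the saturated module generated by the derivatives of a form (easy+, copy of IP/Q12.lean and IP/Q13.lean)

* `opP_add`, `opP_smul`: copies from IP/Q12.lean. `WSO_opP`, `WSO_sat`, `WSO_self`, `WSO_induction`: copies of `WSP_opP`, `WSP_sat`, `WSP_self`, `WSP_induction` (IP/Q13.lean) without the kernel of `evgp`
  (`WAO` is only the span of the iterates, no `Submodule.mem_sup`).
-/

set_option autoImplicit false

namespace MPadcEP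

open Polynomial Matrix MPadcGM MPadcOA

theorem opP_add {R : Type} [CommRing R] {ι : Type} [Fintype ι] {r m : ℕ} (Δ : R[X]) (G : Matrix ι ι R[X])
    (φ ψ : (Fin m → Pq r ι) → R[X]) : opP Δ G (φ + ψ) = opP Δ G φ + opP Δ G ψ := by
  funext s
  simp only [opP, actP, Pi.add_apply, derivative_add, mul_add, Finset.sum_add_distrib]
  ring

theorem opP_smul {R : Type} [CommRing R] {ι : Type} [Fintype ι] {r m : ℕ} (Δ : R[X]) (G : Matrix ι ι R[X]) (a : R[X])
    (φ : (Fin m → Pq r ι) → R[X]) : opP Δ G (a • φ) = (Δ * derivative a) • φ + a • opP Δ G φ := by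
  funext s
  have h1 : actP G (a • φ) s = a * actP G φ s := by
    simp only [actP, Pi.smul_apply, smul_eq_mul, Finset.mul_sum]
    refine Finset.sum_congr rfl fun i _ => Finset.sum_congr rfl fun j _ => Finset.sum_congr rfl fun c _ => ?_
    ring
  simp only [opP, Pi.add_apply, Pi.smul_apply, smul_eq_mul, derivative_mul, h1]
  ring

theorem WSO_opP {F : Type} [Field F] {ι : Type} [Fintype ι] {r m : ℕ} {Δ : F[X]} {G : Matrix ι ι F[X]}
    {Φ : (Fin m → Pq r ι) → F[X]} {x : (Fin m → Pq r ι) → F[X]} (hx : x ∈ WSO Δ G Φ) : opP Δ G x ∈ WSO Δ G Φ := by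
  have h0 : opP Δ G (0 : (Fin m → Pq r ι) → F[X]) = 0 := by
    have h1 := opP_add Δ G (0 : (Fin m → Pq r ι) → F[X]) 0
    rw [add_zero] at h1
    exact left_eq_add.1 h1
  have hWA : ∀ y ∈ WAO Δ G Φ, opP Δ G y ∈ WAO Δ G Φ := by
    intro y hy
    induction hy using Submodule.span_induction with
    | mem z hz =>
      obtain ⟨e, rfl⟩ := hz
      refine Submodule.subset_span ⟨e + 1, ?_⟩
      exact Function.iterate_succ_apply' _ _ _
    | zero =>
      rw [h0]
      exact zero_mem _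
    | add z z' hz hz' ih ih' =>
      rw [opP_add]
      exact add_mem ih ih'
    | smul a z hz ih =>
      rw [opP_smul]
      exact add_mem (Submodule.smul_mem _ _ hz) (Submodule.smul_mem _ _ ih)
  obtain ⟨d, hd, h2⟩ := hx
  refine ⟨d * d, mul_ne_zero hd hd, ?_⟩
  have h1 : (d * d) • opP Δ G x = d • opP Δ G (d • x) - (Δ * derivative d) • (d • x) := by
    rw [opP_smul, smul_add, mul_smul, smul_comm d (Δ * derivative d) x, add_sub_cancel_left]
  rw [h1]
  exact sub_mem (Submodule.smul_mem _ _ (hWA _ h2)) (Submodule.smul_mem _ _ h2)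

theorem WSO_sat {F : Type} [Field F] {ι : Type} [Fintype ι] {r m : ℕ} {Δ : F[X]} {G : Matrix ι ι F[X]}
    {Φ : (Fin m → Pq r ι) → F[X]} (d : F[X]) (hd : d ≠ 0) (x : (Fin m → Pq r ι) → F[X]) (hx : d • x ∈ WSO Δ G Φ) :
    x ∈ WSO Δ G Φ := by
  obtain ⟨d', hd', h'⟩ := hx
  refine ⟨d' * d, mul_ne_zero hd' hd, ?_⟩
  rw [mul_smul]
  exact h'

theorem WSO_self {F : Type} [Field F] {ι : Type} [Fintype ι] {r m : ℕ} {Δ : F[X]} {G : Matrix ι ι F[X]}
    {Φ : (Fin m → Pq r ι) → F[X]} : Φ ∈ WSO Δ G Φ := by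
  refine ⟨1, one_ne_zero, ?_⟩
  rw [one_smul]
  exact Submodule.subset_span ⟨0, rfl⟩

theorem WSO_induction {F : Type} [Field F] {ι : Type} [Fintype ι] {r m : ℕ} {Δ : F[X]} {G : Matrix ι ι F[X]}
    {Φ : (Fin m → Pq r ι) → F[X]} (Z : ((Fin m → Pq r ι) → F[X]) → Prop) (hΦ : Z Φ) (h0 : Z 0)
    (hadd : ∀ x y, Z x → Z y → Z (x + y)) (hsmul : ∀ (a : F[X]) x, Z x → Z (a • x)) (hop : ∀ x, Z x → Z (opP Δ G x))
    (hdiv : ∀ (d : F[X]) x, d ≠ 0 → Z (d • x) → Z x) (x : (Fin m → Pq r ι) → F[X]) (hx : x ∈ WSO Δ G Φ) : Z x := by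
  obtain ⟨d, hd, h2⟩ := hx
  refine hdiv d x hd ?_
  generalize d • x = y at h2
  induction h2 using Submodule.span_induction with
  | mem z hz =>
    obtain ⟨e, rfl⟩ := hz
    show Z ((opP Δ G)^[e] Φ)
    induction e with
    | zero => exact hΦ
    | succ e ih =>
      rw [Function.iterate_succ_apply']
      exact hop _ ih
  | zero => exact h0
  | add z z' _ _ ih ih' => exact hadd _ _ ih ih'
  | smul a z _ ih => exact hsmul a z ih

end MPadcEP
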