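import Pool.Agent.Lib.MP_adc574_ag_EP.V2

/-!
# LEAF V3: forms which vanish to high order (medium-, 2, copies from IP/Q15.lean and IP/Q16.lean)

* `rp_opP`: copy from IP/Q15.lean (`rp_opP` and its private lemmas there; `mq G n` of EO/Defs.lean in place of `mr G n`, the same function).
* `vanish_ordO`: copy of `vanish_ordP` (IP/Q16.lean) with `WSO_induction` (the case of the forms which vanish is replaced by the zero form: `rp 0 n = 0` for almost all `n`, or directly
  from the case `a • x` with `a = 0`, or `rp_zero`-type lemma in OA/N_U2.lean); the hypotheses hold for almost all `n` only (`filter_upwards` with `hD`, `hdvd`).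
-/

set_option autoImplicit false

namespace MPadcEP

open Polynomial Matrix MPadcGM MPadcOA MPadcEO

private theorem V3_sum {k : ℕ → Type} [∀ n, Field (k n)] {ι : Type} [Fintype ι] (A B : ι → (LL k)[X]) :
    ∀ᶠ n in HF, rp (∑ l, A l * B l) n = ∑ l, rp (A l) n * rp (B l) n := by
  have h2 : ∀ᶠ n in HF, ∀ l, rp (A l * B l) n = rp (A l) n * rp (B l) n :=
    Filter.eventually_all.2 fun l => rp_mul _ _
  filter_upwards [rp_sum Finset.univ (fun l => A l * B l), h2] with n e1 e2
  rw [e1]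
  exact Finset.sum_congr rfl fun l _ => e2 l

private theorem V3_act {k : ℕ → Type} [∀ n, Field (k n)] {ι : Type} [Fintype ι] {r m : ℕ} (G : Matrix ι ι (LL k)[X])
    (φ : (Fin m → Pq r ι) → (LL k)[X]) (s : Fin m → Pq r ι) :
    ∀ᶠ n in HF, rp (actP G φ s) n = actP (mq G n) (fun s => rp (φ s) n) s := by
  have a1 := rp_sum (k := k) Finset.univ (fun i : Fin m => ∑ j : Fin r, ∑ c : ι,
    G (s i j) c * φ (Function.update s i (Function.update (s i) j c)))
  have a2 : ∀ᶠ n in HF, ∀ i : Fin m, rp (∑ j : Fin r, ∑ c : ι,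
      G (s i j) c * φ (Function.update s i (Function.update (s i) j c))) n =
        ∑ j : Fin r, ∑ c : ι, rp (G (s i j) c) n *
          rp (φ (Function.update s i (Function.update (s i) j c))) n := by
    refine Filter.eventually_all.2 fun i => ?_
    have b1 := rp_sum (k := k) Finset.univ (fun j : Fin r => ∑ c : ι,
      G (s i j) c * φ (Function.update s i (Function.update (s i) j c)))
    have b2 : ∀ᶠ n in HF, ∀ j : Fin r, rp (∑ c : ι,
        G (s i j) c * φ (Function.update s i (Function.update (s i) j c))) n =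
          ∑ c : ι, rp (G (s i j) c) n *
            rp (φ (Function.update s i (Function.update (s i) j c))) n :=
      Filter.eventually_all.2 fun j => V3_sum _ _
    filter_upwards [b1, b2] with n e1 e2
    exact e1.trans (Finset.sum_congr rfl fun j _ => e2 j)
  filter_upwards [a1, a2] with n e1 e2
  exact e1.trans (Finset.sum_congr rfl fun i _ => e2 i)

theorem rp_opP {k : ℕ → Type} [∀ n, Field (k n)] {ι : Type} [Fintype ι] {r m : ℕ} (Δ : (LL k)[X]) (G : Matrix ι ι (LL k)[X])
    (φ : (Fin m → Pq r ι) → (LL k)[X]) :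
    ∀ᶠ n in HF, (fun s => rp (opP Δ G φ s) n) = opP (rp Δ n) (mq G n) fun s => rp (φ s) n := by
  have h : ∀ᶠ n in HF, ∀ s, rp (opP Δ G φ s) n = opP (rp Δ n) (mq G n) (fun s => rp (φ s) n) s := by
    refine Filter.eventually_all.2 fun s => ?_
    filter_upwards [rp_add (Δ * derivative (φ s)) (actP G φ s), rp_mul Δ (derivative (φ s)),
      rp_derivative (φ s), V3_act G φ s] with n e1 e2 e3 e4
    calc rp (opP Δ G φ s) n = rp (Δ * derivative (φ s) + actP G φ s) n := rfl
      _ = rp Δ n * derivative (rp (φ s) n) + actP (mq G n) (fun s => rp (φ s) n) s := by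
          rw [e1, e2, e3, e4]
      _ = opP (rp Δ n) (mq G n) (fun s => rp (φ s) n) s := rfl
  filter_upwards [h] with n hn
  exact funext hn

theorem vanish_ordO {k : ℕ → Type} [∀ n, Field (k n)] {ι : Type} [Fintype ι] [DecidableEq ι] {r m c : ℕ} (p : ℕ → ℕ)
    (D : ∀ n, FrR r ι (k n)) (hD : ∀ᶠ n in HF, (D n).Ok c) (Φ : ∀ n, (Fin m → Pq r ι) → (k n)[X]) (α : ∀ n, k n)
    (hdvd : ∀ᶠ n in HF, (X - C (α n)) ^ p n ∣ evp (pl (D n).U) (Φ n)) (Δ' : (LL k)[X]) (G' : Matrix ι ι (LL k)[X])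
    (Φ' : (Fin m → Pq r ι) → (LL k)[X]) (hΔ : ∀ᶠ n in HF, rp Δ' n = (D n).Δ) (hG : ∀ᶠ n in HF, mq G' n = (D n).G)
    (hΦ : ∀ᶠ n in HF, (fun s => rp (Φ' s) n) = Φ n) (ξ : (Fin m → Pq r ι) → (LL k)[X]) (hξ : ξ ∈ WSO Δ' G' Φ') :
    ∃ e : ℕ, ∀ᶠ n in HF, (X - C (α n)) ^ (p n - e) ∣ evp (pl (D n).U) (fun s => rp (ξ s) n) := by
  have key : ∀ ξ : (Fin m → Pq r ι) → (LL k)[X], ξ ∈ WSO Δ' G' Φ' →
      (fun ξ : (Fin m → Pq r ι) → (LL k)[X] => ∃ e : ℕ, ∀ᶠ n in HF,
        (X - C (α n)) ^ (p n - e) ∣ evp (pl (D n).U) (fun s => rp (ξ s) n)) ξ := by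
    apply WSO_induction
    · refine ⟨0, ?_⟩
      filter_upwards [hΦ, hdvd] with n hn hn'
      rw [hn, Nat.sub_zero]
      exact hn'
    · refine ⟨0, ?_⟩
      have h0 : ∀ᶠ n in HF, rp (0 : (LL k)[X]) n = 0 := rp_zero
      filter_upwards [h0] with n hn
      have h1 : (fun s : Fin m → Pq r ι => rp ((0 : (Fin m → Pq r ι) → (LL k)[X]) s) n) = (0 : (k n)[X]) • fun _ => 0 := by
        funext s
        rw [Pi.smul_apply, smul_zero]
        exact hn
      rw [h1, evp_smul, zero_mul]
      exact dvd_zero _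
    · rintro x y ⟨e, h1⟩ ⟨e', h1'⟩
      refine ⟨max e e', ?_⟩
      have h0 : ∀ᶠ n in HF, ∀ s, rp (x s + y s) n = rp (x s) n + rp (y s) n :=
        Filter.eventually_all.2 fun s => rp_add (x s) (y s)
      filter_upwards [h1, h1', h0] with n h1 h2 h3
      have h4 : (fun s => rp ((x + y) s) n) = (fun s => rp (x s) n) + fun s => rp (y s) n :=
        funext h3
      rw [h4, evp_add]
      exact dvd_add ((pow_dvd_pow _ (Nat.sub_le_sub_left (le_max_left e e') _)).trans h1)
        ((pow_dvd_pow _ (Nat.sub_le_sub_left (le_max_right e e') _)).trans h2)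
    · rintro a x ⟨e, h1⟩
      refine ⟨e, ?_⟩
      have h0 : ∀ᶠ n in HF, ∀ s, rp (a * x s) n = rp a n * rp (x s) n :=
        Filter.eventually_all.2 fun s => rp_mul a (x s)
      filter_upwards [h1, h0] with n h1 h3
      have h4 : (fun s => rp ((a • x) s) n) = rp a n • fun s => rp (x s) n := by
        funext s
        exact h3 s
      rw [h4, evp_smul]
      exact dvd_mul_of_dvd_right h1 _
    · rintro x ⟨e, h1⟩
      refine ⟨e + 1, ?_⟩
      have h0 := rp_opP Δ' G' x
      filter_upwards [h1, h0, hΔ, hG, hD] with n h1 h2 h3 h4 h5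
      rw [h2, h3, h4, ← derivative_evp (D n).Δ (D n).G (pl (D n).U) h5.horU, ← Nat.sub_sub]
      exact dvd_mul_of_dvd_right (pow_dvd_der (α n) _ _ h1) _
    · rintro d x hd ⟨e, h1⟩
      refine ⟨e + d.natDegree, ?_⟩
      have h0 : ∀ᶠ n in HF, ∀ s, rp (d * x s) n = rp d n * rp (x s) n :=
        Filter.eventually_all.2 fun s => rp_mul d (x s)
      have h0' : ∀ᶠ n in HF, rp d n ≠ 0 := rp_ne_zero hd
      filter_upwards [h1, h0, h0'] with n h1 h3 h5
      have h4 : (fun s => rp ((d • x) s) n) = rp d n • fun s => rp (x s) n := by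
        funext s
        exact h3 s
      rw [h4, evp_smul] at h1
      rw [← Nat.sub_sub]
      exact pow_dvd_of_mul (α n) (p n - e) d.natDegree (rp d n) _ h5 (rp_natDegree d n) h1
  exact key ξ hξ

end MPadcEP
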