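import Pool.Agent.Lib.MP_adc574_ag_EP.V1

/-!
# LEAF V4: frames over the ultraproduct (medium, 7 short statements; model IP/Q17.lean)

`cl x = ultMk (hyperfilter ℕ) k x` is a ring homomorphism from the product ring `∀ n, k n` (`ultMk`), `cl x = 0 ↔ ∀ᶠ n in HF, x n = 0` (`ultMk_eq_zero`); `cm M` is the image of the matrix `fun i j n => M n i j` over the product
ring, whose component `n` (`Pi.evalRingHom k n`) is `M n`.
* `cl_eq`: `x - y`. `cm_mul3`: `cm V * cm T * (cm V)ᵀ` is the image of the product over the product ring, its component `n` is `V n * T n * (V n)ᵀ` (`Matrix.map_mul`, `Matrix.transpose_map`); an entry is zero because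
  it is zero for almost all `n`.
* `cm_li`: choose `V n * R n = 1` for almost all `n` (`LinearIndependent` of the rows gives a right inverse: `li_inv` in IP/Q7.lean is for `Nx g`; copy its proof, or
  `Matrix.exists_right_inverse_iff`/`Matrix.linearIndependent_rows_iff..`), then `cm V * cm R = 1`, so the rows of `cm V` are independent.
* `cm_det`: `det` commutes with ring homomorphisms (`RingHom.map_det`): `det (cm T) = cl (fun n => det (T n))`. `cm_symm`: entries, `cl_eq`.
* `cm_evp`: `evp (pl (cm V)) (fun s => cl ..) = cl (fun n => evp (pl (V n)) (a n))` (`evp_map`, `pl_map'` for the homomorphism `ultMk` and for `Pi.evalRingHom k n`).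
* `cm_eval`: entries: `rp_eval` (OA/N_U2.lean): `(G' i j).eval (cl α) = cl (fun n => (rp (G' i j) n).eval (α n))`, and `rp (G' i j) n = G n i j` for almost all `n` (`mq`), `cl_eq`.
-/

set_option autoImplicit false

namespace MPadcEP

open Polynomial Matrix MPadcGM MPadcOA MPadcEO

/-- the family as a matrix over the product ring -/
private def V4_p {k : ℕ → Type} {α β : Type} (M : ∀ n, Matrix α β (k n)) : Matrix α β (∀ n, k n) :=
  fun i j n => M n i j

private theorem V4_mul {k : ℕ → Type} [∀ n, Field (k n)] {α β γ : Type} [Fintype β] (A : ∀ n, Matrix α β (k n))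
    (B : ∀ n, Matrix β γ (k n)) : (cm fun n => A n * B n) = cm A * cm B := by
  have h1 : V4_p (fun n => A n * B n) = V4_p A * V4_p B := by
    ext i j n
    rw [Matrix.mul_apply, Finset.sum_apply]
    rfl
  have h2 := congrArg (fun M => Matrix.map M (ultMk (Filter.hyperfilter ℕ) k)) h1
  beta_reduce at h2
  rw [Matrix.map_mul] at h2
  exact h2

private theorem V4_inv {F : Type} [Field F] {ι : Type} [Fintype ι] {r : ℕ} (U : Matrix (Fin r) ι F) :
    (LinearIndependent F fun i => U i) ↔ ∃ V : Matrix ι (Fin r) F, U * V = 1 := by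
  classical
  constructor
  · intro h
    have hinj : Function.Injective (Matrix.vecMulLinear U) := by
      rw [injective_iff_map_eq_zero]
      intro c hc
      funext i
      refine Fintype.linearIndependent_iff.mp h c ?_ i
      rw [Matrix.vecMulLinear_apply, Matrix.vecMul_eq_sum] at hc
      exact hc
    obtain ⟨G, hG⟩ := LinearMap.exists_leftInverse_of_injective (Matrix.vecMulLinear U) (LinearMap.ker_eq_bot.mpr hinj)
    refine ⟨fun l i => G (Pi.single l 1) i, ?_⟩
    ext i j
    have h1 : G (U i) = Pi.single i 1 := by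
      have h2 := LinearMap.congr_fun hG (Pi.single i (1 : F))
      rw [LinearMap.comp_apply, Matrix.vecMulLinear_apply, Matrix.single_one_vecMul, LinearMap.id_apply] at h2
      exact h2
    have h3 : U i = ∑ l, U i l • (Pi.single l (1 : F) : ι → F) := by
      funext l
      rw [Finset.sum_apply, Finset.sum_eq_single l]
      · rw [Pi.smul_apply, Pi.single_eq_same, smul_eq_mul, mul_one]
      · intro l' _ hl'
        rw [Pi.smul_apply, Pi.single_eq_of_ne (Ne.symm hl'), smul_zero]
      · intro hl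
        exact absurd (Finset.mem_univ l) hl
    rw [Matrix.mul_apply, Matrix.one_apply]
    have h4 : ∑ l, U i l * G (Pi.single l 1) j = G (U i) j := by
      conv_rhs => rw [h3]
      rw [map_sum, Finset.sum_apply]
      refine Finset.sum_congr rfl fun l _ => ?_
      rw [map_smul, Pi.smul_apply, smul_eq_mul]
    rw [h4, h1, Pi.single_apply]
    simp only [eq_comm]
  · rintro ⟨V, hV⟩
    rw [Fintype.linearIndependent_iff]
    intro c hc i
    have h1 : c ᵥ* U = 0 := by
      rw [Matrix.vecMul_eq_sum]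
      exact hc
    have h2 : c = 0 := by
      rw [← Matrix.vecMul_one c, ← hV, ← Matrix.vecMul_vecMul, h1, Matrix.zero_vecMul]
    rw [h2, Pi.zero_apply]

theorem cl_eq {k : ℕ → Type} [∀ n, Field (k n)] (x y : ∀ n, k n) : cl x = cl y ↔ ∀ᶠ n in HF, x n = y n :=
  ultMk_eq _ _

theorem cm_mul3 {k : ℕ → Type} [∀ n, Field (k n)] {ι : Type} [Fintype ι] {r : ℕ} (V : ∀ n, Matrix (Fin r) ι (k n))
    (T : ∀ n, Matrix ι ι (k n)) (h : ∀ᶠ n in HF, V n * T n * (V n)ᵀ = 0) : cm V * cm T * (cm V)ᵀ = 0 := by
  have h1 : (cm V)ᵀ = cm fun n => (V n)ᵀ := rfl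
  rw [h1, ← V4_mul, ← V4_mul]
  ext i j
  refine (ultMk_eq_zero (Filter.hyperfilter ℕ) k _).2 ?_
  filter_upwards [h] with n hn
  exact congrFun (congrFun hn i) j

theorem cm_li {k : ℕ → Type} [∀ n, Field (k n)] {ι : Type} [Fintype ι] {r : ℕ} (V : ∀ n, Matrix (Fin r) ι (k n))
    (h : ∀ᶠ n in HF, LinearIndependent (k n) fun i => V n i) : LinearIndependent (LL k) fun i => cm V i := by
  classical
  obtain ⟨R, hR⟩ : ∃ R : ∀ n, Matrix ι (Fin r) (k n), ∀ n, (LinearIndependent (k n) fun i => V n i) → V n * R n = 1 := by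
    refine ⟨fun n => if hn : ∃ W : Matrix ι (Fin r) (k n), V n * W = 1 then hn.choose else 0, fun n hn => ?_⟩
    have h1 := (V4_inv (V n)).1 hn
    beta_reduce
    rw [dif_pos h1]
    exact h1.choose_spec
  refine (V4_inv _).2 ⟨cm R, ?_⟩
  rw [← V4_mul]
  ext i j
  have h2 : ((1 : Matrix (Fin r) (Fin r) (LL k)) i j) = cl fun n => (1 : Matrix (Fin r) (Fin r) (k n)) i j := by
    rcases eq_or_ne i j with h3 | h3
    · subst h3
      rw [Matrix.one_apply_eq]
      have h4 : (fun n => (1 : Matrix (Fin r) (Fin r) (k n)) i i) = (1 : ∀ n, k n) := funext fun n => Matrix.one_apply_eq i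
      rw [h4]
      exact (map_one (ultMk (Filter.hyperfilter ℕ) k)).symm
    · rw [Matrix.one_apply_ne h3]
      have h4 : (fun n => (1 : Matrix (Fin r) (Fin r) (k n)) i j) = (0 : ∀ n, k n) := funext fun n => Matrix.one_apply_ne h3
      rw [h4]
      exact (map_zero (ultMk (Filter.hyperfilter ℕ) k)).symm
  rw [h2]
  refine (cl_eq _ _).2 ?_
  filter_upwards [h] with n hn
  exact congrFun (congrFun (hR n hn) i) j

theorem cm_det {k : ℕ → Type} [∀ n, Field (k n)] {ι : Type} [Fintype ι] [DecidableEq ι] (T : ∀ n, Matrix ι ι (k n))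
    (h : ∀ᶠ n in HF, (T n).det ≠ 0) : (cm T).det ≠ 0 := by
  have h1 : (V4_p T).det = fun n => (T n).det := by
    funext n
    exact RingHom.map_det (Pi.evalRingHom k n) (V4_p T)
  have h2 : ultMk (Filter.hyperfilter ℕ) k (V4_p T).det = (cm T).det := RingHom.map_det (ultMk (Filter.hyperfilter ℕ) k) (V4_p T)
  intro h3
  rw [← h2, h1, ultMk_eq_zero] at h3
  obtain ⟨n, hn, hn'⟩ := (h3.and h).exists
  exact hn' hn

theorem cm_symm {k : ℕ → Type} [∀ n, Field (k n)] {ι : Type} (T : ∀ n, Matrix ι ι (k n))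
    (h : ∀ᶠ n in HF, (T n)ᵀ = T n) : (cm T)ᵀ = cm T := by
  ext i j
  refine (cl_eq (fun n => T n j i) (fun n => T n i j)).2 ?_
  filter_upwards [h] with n hn
  exact congrFun (congrFun hn i) j

theorem cm_evp {k : ℕ → Type} [∀ n, Field (k n)] {ι : Type} [Fintype ι] {r m : ℕ} (V : ∀ n, Matrix (Fin r) ι (k n))
    (a : ∀ n, (Fin m → Pq r ι) → k n) :
    evp (pl (cm V)) (fun s => cl fun n => a n s) = 0 ↔ ∀ᶠ n in HF, evp (pl (V n)) (a n) = 0 := by
  have h1 : ultMk (Filter.hyperfilter ℕ) k (evp (pl (V4_p V)) fun s => fun n => a n s) =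
      evp (pl (cm V)) fun s => cl fun n => a n s := by
    have h2 := pl_map' (ultMk (Filter.hyperfilter ℕ) k) (V4_p V)
    have h3 := evp_map (ultMk (Filter.hyperfilter ℕ) k) (pl (V4_p V)) (fun s => fun n => a n s)
    rw [← h2] at h3
    exact h3
  have h4 : ∀ n, (evp (pl (V4_p V)) fun s => fun n => a n s) n = evp (pl (V n)) (a n) := by
    intro n
    have h2 := pl_map' (Pi.evalRingHom k n) (V4_p V)
    have h3 := evp_map (Pi.evalRingHom k n) (pl (V4_p V)) (fun s => fun n => a n s)
    rw [← h2] at h3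
    exact h3
  rw [← h1, ultMk_eq_zero]
  simp only [h4]

theorem cm_eval {k : ℕ → Type} [∀ n, Field (k n)] {ι : Type} (G' : Matrix ι ι (LL k)[X]) (G : ∀ n, Matrix ι ι (k n)[X])
    (h : ∀ᶠ n in HF, mq G' n = G n) (α : ∀ n, k n) :
    Matrix.map G' (eval (cl α)) = cm fun n => Matrix.map (G n) (eval (α n)) := by
  ext i j
  have h1 : (G' i j).eval (cl α) = cl fun n => (rp (G' i j) n).eval (α n) := (rp_eval (G' i j) α).symm
  refine h1.trans ((cl_eq _ _).2 ?_)
  filter_upwards [h] with n hn
  have h2 : rp (G' i j) n = G n i j := congrFun (congrFun hn i) j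
  rw [h2]
  rfl

end MPadcEP
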