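import Pool.Agent.Lib.MP_adc574_ag_EP.Defs

/-!
# LEAF V5: big monodromy on the forms on tensors of degree `r` (medium-, reindexing; model IP/Q4.lean)

`Fin m → Fin r → ι` and `Fin (m * r) → ι` are in bijection by `finProdFinEquiv` (`t ↦ fun i => t (finProdFinEquiv.symm i).1 (finProdFinEquiv.symm i).2`). Let `sl x t = x (fun i => t (..).1 (..).2)` for
`x : (Fin (m * r) → ι) → F[X]`, and `W' = {x | sl x ∈ W}`, a submodule. `sl (actT A x) = actP A (sl x)` (the sum over `i : Fin (m * r)` is the sum over `(b, j)`, `Equiv.sum_comp finProdFinEquiv`,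
`Fintype.sum_prod_type`; the updated index is the index of `update t b (update (t b) j c)`: `Q4_upd` in IP/Q4.lean, simpler here), so `sl (opT Δ G x) = opP Δ G (sl x)`. `W'` is saturated and stable under
`opT`, so `hBig` applies (`n = m * r`); `sl` is surjective: `x = sl x'` with `x' s = x (fun b j => s (finProdFinEquiv (b, j)))`.
-/

set_option autoImplicit false

namespace MPadcEP

open Polynomial Matrix MPadcGM MPadcOA

/-- The form with the indices numbered by pairs. -/
private def V5_sl {F : Type} [Field F] {ι : Type} {m r : ℕ} (x : (Fin (m * r) → ι) → F[X]) : (Fin m → Pq r ι) → F[X] :=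
  fun t => x fun i => t (finProdFinEquiv.symm i).1 (finProdFinEquiv.symm i).2

private theorem V5_upd {ι : Type} {m r : ℕ} (t : Fin m → Pq r ι) (b : Fin m) (j : Fin r) (c : ι) :
    (fun i : Fin (m * r) => (Function.update t b (Function.update (t b) j c)) (finProdFinEquiv.symm i).1
      (finProdFinEquiv.symm i).2) =
    Function.update (fun i : Fin (m * r) => t (finProdFinEquiv.symm i).1 (finProdFinEquiv.symm i).2)
      (finProdFinEquiv (b, j)) c := by
  funext i
  obtain ⟨⟨b', j'⟩, rfl⟩ := (finProdFinEquiv : Fin m × Fin r ≃ Fin (m * r)).surjective i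
  by_cases h : (b', j') = (b, j)
  · rw [h, Function.update_self, Equiv.symm_apply_apply, Function.update_self, Function.update_self]
  · rw [Function.update_of_ne (fun h1 => h (finProdFinEquiv.injective h1)), Equiv.symm_apply_apply]
    by_cases hb : b' = b
    · subst hb
      have hj : j' ≠ j := fun hj => h (by rw [hj])
      rw [Function.update_self, Function.update_of_ne hj]
    · rw [Function.update_of_ne hb]

private theorem V5_act {F : Type} [Field F] {ι : Type} [Fintype ι] [DecidableEq ι] {m r : ℕ} (A : Matrix ι ι F[X])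
    (x : (Fin (m * r) → ι) → F[X]) : V5_sl (MPadcOE.actT A x) = actP A (V5_sl x) := by
  funext t
  unfold V5_sl actP MPadcOE.actT
  rw [← Equiv.sum_comp finProdFinEquiv, Fintype.sum_prod_type]
  refine Finset.sum_congr rfl fun b _ => Finset.sum_congr rfl fun j _ => Finset.sum_congr rfl fun c _ => ?_
  rw [← V5_upd t b j c]
  simp only [Equiv.symm_apply_apply]

private theorem V5_op {F : Type} [Field F] {ι : Type} [Fintype ι] [DecidableEq ι] {m r : ℕ} (Δ : F[X]) (G : Matrix ι ι F[X])
    (x : (Fin (m * r) → ι) → F[X]) : V5_sl (MPadcOE.opT Δ G x) = opP Δ G (V5_sl x) := by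
  funext t
  have h := congrFun (V5_act G x) t
  unfold opP
  rw [← h]
  rfl

theorem bigO_act {F : Type} [Field F] {ι : Type} [Fintype ι] [DecidableEq ι] {r m : ℕ} (Δ : F[X]) (G S : Matrix ι ι F[X])
    (hBig : MPadcOE.BigO Δ G S) (W : Submodule F[X] ((Fin m → Pq r ι) → F[X]))
    (hsat : ∀ d : F[X], d ≠ 0 → ∀ x : (Fin m → Pq r ι) → F[X], d • x ∈ W → x ∈ W) (hop : ∀ x ∈ W, opP Δ G x ∈ W)
    (u v : ι → F) : ∀ x ∈ W, actP (MPadcOE.wd S (fun l => C (u l)) (fun l => C (v l))) x ∈ W := by
  let W' : Submodule F[X] ((Fin (m * r) → ι) → F[X]) :=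
    { carrier := {y | V5_sl y ∈ W}
      add_mem' := fun {y z} hy hz => W.add_mem hy hz
      zero_mem' := W.zero_mem
      smul_mem' := fun c y hy => W.smul_mem c hy }
  have hW' : ∀ y, y ∈ W' ↔ V5_sl y ∈ W := fun _ => Iff.rfl
  intro x hx
  let x' : (Fin (m * r) → ι) → F[X] := fun s => x fun b j => s (finProdFinEquiv (b, j))
  have hx' : V5_sl x' = x := by
    funext t
    change x (fun b j => t (finProdFinEquiv.symm (finProdFinEquiv (b, j))).1
      (finProdFinEquiv.symm (finProdFinEquiv (b, j))).2) = x t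
    simp only [Equiv.symm_apply_apply]
  have h1 := hBig (m * r) W' (fun d hd y hy => hsat d hd _ hy)
    (fun y hy => (hW' _).2 (by rw [V5_op]; exact hop _ hy)) u v x'
    ((hW' _).2 (by rw [hx']; exact hx))
  have h2 := (hW' _).1 h1
  rwa [V5_act, hx'] at h2

end MPadcEP
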