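import Pool.Agent.Lib.MP_adc574_ag_EP.M7

/-!
# LEAF V6: a stable module at one fibre (easy+; model `all_vanP` in IP/Q14.lean)

Let `T = S.map (eval α)` and `W_α = {fun s => (x s).eval α | x ∈ W}`, an `F`-subspace (`Submodule.map` over `F` of `W.restrictScalars F` under the evaluation, or a structure as `Q14_W` in IP/Q14.lean).
It is stable under `actP (wd T u v)`: the value at `α` of `actP (wd S (C u) (C v)) x` is `actP (wd T u v) (x(α))` (`actP_map` (V1) for `evalRingHom α`; `wd` commutes with ring homomorphisms: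
`Matrix.map_mul`, `vecMulVec` entrywise). All its elements vanish at `U` (`h0`). `van_all` (M7).
-/

set_option autoImplicit false

namespace MPadcEP

open Polynomial Matrix MPadcGM MPadcOA

private def V6_W {F : Type} [Field F] {ι : Type} {r m : ℕ} (W : Submodule F[X] ((Fin m → Pq r ι) → F[X])) (α : F) :
    Submodule F ((Fin m → Pq r ι) → F) where
  carrier := {φ | ∃ ξ ∈ W, φ = fun s => (ξ s).eval α}
  add_mem' := by
    rintro _ _ ⟨ξ, hξ, rfl⟩ ⟨ξ', hξ', rfl⟩
    refine ⟨ξ + ξ', W.add_mem hξ hξ', ?_⟩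
    funext s
    rw [Pi.add_apply, Pi.add_apply, eval_add]
  zero_mem' := ⟨0, W.zero_mem, by funext s; rw [Pi.zero_apply, Pi.zero_apply, eval_zero]⟩
  smul_mem' := by
    rintro c _ ⟨ξ, hξ, rfl⟩
    refine ⟨C c • ξ, W.smul_mem _ hξ, ?_⟩
    funext s
    rw [Pi.smul_apply, Pi.smul_apply, smul_eq_mul, smul_eq_mul, eval_mul, eval_C]

private theorem V6_wd {F : Type} [Field F] {ι : Type} [Fintype ι] (S : Matrix ι ι F[X]) (α : F) (u v : ι → F) :
    (MPadcOE.wd S (fun l => C (u l)) (fun l => C (v l))).map (evalRingHom α) = MPadcOE.wd (Matrix.map S (eval α)) u v := by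
  ext a b
  rw [Matrix.map_apply, MPadcOE.wd, MPadcOE.wd, Matrix.mul_apply, Matrix.mul_apply, map_sum]
  refine Finset.sum_congr rfl fun c _ => ?_
  rw [map_mul, Matrix.sub_apply, Matrix.sub_apply, map_sub, vecMulVec_apply, vecMulVec_apply, vecMulVec_apply, vecMulVec_apply,
    map_mul, map_mul, Matrix.map_apply, coe_evalRingHom, eval_C, eval_C, eval_C, eval_C]

theorem van_fibre {F : Type} [Field F] [CharZero F] {ι : Type} [Fintype ι] [DecidableEq ι] {r m : ℕ} (hr : 2 * r < Fintype.card ι)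
    (S : Matrix ι ι F[X]) (W : Submodule F[X] ((Fin m → Pq r ι) → F[X]))
    (hst : ∀ u v : ι → F, ∀ x ∈ W, actP (MPadcOE.wd S (fun l => C (u l)) (fun l => C (v l))) x ∈ W) (α : F)
    (hS : (Matrix.map S (eval α))ᵀ = Matrix.map S (eval α)) (hd : (Matrix.map S (eval α)).det ≠ 0) (U : Matrix (Fin r) ι F)
    (hU : U * Matrix.map S (eval α) * Uᵀ = 0) (liU : LinearIndependent F fun i => U i)
    (h0 : ∀ x ∈ W, evp (pl U) (fun s => (x s).eval α) = 0) : ∀ x ∈ W, VanI (Matrix.map S (eval α)) fun s => (x s).eval α := by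
  have hc : ∀ ξ ∈ W, (fun s => (ξ s).eval α) ∈ V6_W W α := fun ξ hξ => ⟨ξ, hξ, rfl⟩
  have hfin := van_all hr (Matrix.map S (eval α)) hS hd (V6_W W α) ?_ U hU liU ?_
  · exact fun ξ hξ => hfin _ (hc ξ hξ)
  · rintro u v _ ⟨ξ, hξ, rfl⟩
    refine ⟨actP (MPadcOE.wd S (fun l => C (u l)) (fun l => C (v l))) ξ, hst u v ξ hξ, ?_⟩
    funext s
    have h1 := actP_map (evalRingHom α) (MPadcOE.wd S (fun l => C (u l)) (fun l => C (v l))) ξ s
    rw [V6_wd] at h1
    exact h1.symm
  · rintro _ ⟨ξ, hξ, rfl⟩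
    exact h0 ξ hξ

end MPadcEP
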