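import Pool.Agent.Lib.MP_adc574_ag_EP.V3
import Pool.Agent.Lib.MP_adc574_ag_EP.V4
import Pool.Agent.Lib.MP_adc574_ag_EP.V5
import Pool.Agent.Lib.MP_adc574_ag_EP.V6

/-!
# LEAF V7: forms which vanish to high order vanish at all isotropic frames (medium, assembly; model `nvP_ev` in IP/Q22.lean)

`CharZero (LL k)` by `charZero_LL p hp`. `exists_rp` gives `Δ'` with `rp Δ' n = (D n).Δ` for almost all `n`, `G'`, `S'` entrywise in the same way (`mq G' n = (D n).G`, `mq S' n = (D n).S`; `Filter.eventually_all`; model `exists_mr`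
in OA/N_Z2.lean), and `Φ'` with `rp (Φ' s) n = Φ n s`. `W = WSO Δ' G' Φ'` is saturated (`WSO_sat`), stable under `opP` (`WSO_opP`), so stable under `actP (wd S' ..)` (`bigO_act` (V5) with `hBig`).
Let `U = cm (fun n => (D n).U.map (eval (α n)))`, `T n = (D n).S.map (eval (α n))`; `S'.map (eval (cl α)) = cm T` (`cm_eval`). `U` is isotropic (`cm_mul3`; `evalRingHom (α n)` of `isoU`) with independent
rows (`cm_li`, `rkU`), `cm T` symmetric with nonzero determinant (`cm_symm`, `cm_det`, `detS`). For `x ∈ W`: by `vanish_ordO` (V3) `(X - C (α n)) ^ (p n - e)` divides `evp (pl (D n).U) (rp (x s) n)`, and `e < p n` for almost all `n`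
(`ev_large`), so its value at `α n` is zero: `evp (pl U) (fun s => (x s).eval (cl α)) = 0` (`cm_evp`, `rp_eval`; model `evp_UbP` in IP/Q17.lean). So `van_fibre` (V6) gives `VanI (cm T) (Φ'(cl α))`.
Suppose that the conclusion is false; as `HF` is an ultrafilter (`Ultrafilter.eventually_not`) for almost all `n` there is an isotropic frame `V n` with independent rows and `evp (pl (V n)) (Φ n (α n)) ≠ 0`
(choose `V n = 0` for the others). `cm V` is isotropic with independent rows, so `evp (pl (cm V)) (Φ'(cl α)) = 0`, so by `cm_evp`, `rp_eval` `evp (pl (V n)) (Φ n (α n)) = 0` for almost all `n`: contradiction.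
-/

set_option autoImplicit false

namespace MPadcEP

open Polynomial Matrix MPadcGM MPadcOA MPadcEO

private theorem V7_mq {k : ℕ → Type} [∀ n, Field (k n)] {ι : Type} [Fintype ι] (G : ∀ n, Matrix ι ι (k n)[X]) (c : ℕ)
    (h : ∀ᶠ n in HF, ∀ i j, (G n i j).natDegree ≤ c) : ∃ G' : Matrix ι ι (LL k)[X], ∀ᶠ n in HF, mq G' n = G n := by
  classical
  have h1 : ∀ i j, ∃ P : (LL k)[X], P.natDegree ≤ c ∧ ∀ᶠ n in HF, rp P n = G n i j := fun i j =>
    exists_rp (fun n => G n i j) c (by
      filter_upwards [h] with n hn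
      exact hn i j)
  choose P hP using h1
  refine ⟨fun i j => P i j, ?_⟩
  have h2 : ∀ᶠ n in HF, ∀ i j, rp (P i j) n = G n i j :=
    Filter.eventually_all.2 fun i => Filter.eventually_all.2 fun j => (hP i j).2
  filter_upwards [h2] with n hn
  funext i j
  exact hn i j

private theorem V7_cl {k : ℕ → Type} [∀ n, Field (k n)] {ι : Type} {r m : ℕ} (x : (Fin m → Pq r ι) → (LL k)[X]) (α : ∀ n, k n) :
    (fun s => (x s).eval (cl α)) = fun s => cl fun n => (fun (n : ℕ) (s : Fin m → Pq r ι) => (rp (x s) n).eval (α n)) n s := by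
  funext s
  exact (rp_eval (x s) α).symm

theorem nvO_ev {k : ℕ → Type} [∀ n, Field (k n)] {ι : Type} [Fintype ι] [DecidableEq ι] {r m A c : ℕ} (hr : 2 * r < Fintype.card ι)
    (p : ℕ → ℕ) [∀ n, CharP (k n) (p n)] (hp : ∀ n, n ≤ p n) (D : ∀ n, FrR r ι (k n)) (hD : ∀ᶠ n in HF, (D n).Ok c)
    (hBig : ∀ (Δ' : (LL k)[X]) (G' S' : Matrix ι ι (LL k)[X]), (∀ᶠ n in HF, rp Δ' n = (D n).Δ) →
      (∀ᶠ n in HF, mq G' n = (D n).G) → (∀ᶠ n in HF, mq S' n = (D n).S) → MPadcOE.BigO Δ' G' S')
    (Φ : ∀ n, (Fin m → Pq r ι) → (k n)[X]) (hA : ∀ᶠ n in HF, ∀ s, (Φ n s).natDegree ≤ A) (α : ∀ n, k n)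
    (hα : ∀ᶠ n in HF, (D n).Δ.eval (α n) ≠ 0)
    (hdvd : ∀ᶠ n in HF, (X - C (α n)) ^ p n ∣ evp (pl (D n).U) (Φ n)) :
    ∀ᶠ n in HF, VanI (Matrix.map (D n).S (eval (α n))) fun s => (Φ n s).eval (α n) := by
  classical
  have : CharZero (LL k) := charZero_LL p hp
  obtain ⟨Δ', -, hΔ⟩ := exists_rp (k := k) (fun n => (D n).Δ) c (by
    filter_upwards [hD] with n hn
    exact hn.degD)
  obtain ⟨G', hG⟩ := V7_mq (fun n => (D n).G) c (by
    filter_upwards [hD] with n hn
    exact hn.degG)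
  obtain ⟨S', hS⟩ := V7_mq (fun n => (D n).S) c (by
    filter_upwards [hD] with n hn
    exact hn.degS)
  have hex : ∀ s, ∃ P : (LL k)[X], P.natDegree ≤ A ∧ ∀ᶠ n in HF, rp P n = Φ n s := fun s =>
    exists_rp (fun n => Φ n s) A (by
      filter_upwards [hA] with n hn
      exact hn s)
  choose Φ' _ hΦ' using hex
  have hΦ : ∀ᶠ n in HF, (fun s => rp (Φ' s) n) = Φ n := by
    filter_upwards [Filter.eventually_all.2 hΦ'] with n hn
    exact funext hn
  have hBig' := hBig Δ' G' S' hΔ hG hS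
  have hST : Matrix.map S' (eval (cl α)) = cm fun n => Matrix.map (D n).S (eval (α n)) :=
    cm_eval S' (fun n => (D n).S) hS α
  have hvan : ∀ x ∈ WSO Δ' G' Φ', VanI (Matrix.map S' (eval (cl α))) fun s => (x s).eval (cl α) := by
    refine van_fibre hr S' (WSO Δ' G' Φ') (fun u v x hx => bigO_act Δ' G' S' hBig' (WSO Δ' G' Φ')
      (fun d hd x hx => WSO_sat d hd x hx) (fun x hx => WSO_opP hx) u v x hx) (cl α) ?_ ?_
      (cm fun n => Matrix.map (D n).U (eval (α n))) ?_ ?_ ?_
    · rw [hST]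
      refine cm_symm _ ?_
      filter_upwards [hD] with n hn
      rw [← Matrix.transpose_map, hn.symm]
    · rw [hST]
      refine cm_det _ ?_
      filter_upwards [hD, hα] with n hn hn'
      exact hn.detS (α n) hn'
    · rw [hST]
      refine cm_mul3 _ _ ?_
      filter_upwards [hD] with n hn
      have h1 : Matrix.map ((D n).U * (D n).S * (D n).Uᵀ) (evalRingHom (α n)) = 0 := by
        rw [hn.isoU]
        exact Matrix.map_zero _ (map_zero _)
      rw [Matrix.map_mul, Matrix.map_mul, Matrix.transpose_map] at h1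
      exact h1
    · refine cm_li _ ?_
      filter_upwards [hD, hα] with n hn hn'
      exact hn.rkU (α n) hn'
    · intro x hx
      obtain ⟨e, he⟩ := vanish_ordO p D hD Φ α hdvd Δ' G' Φ' hΔ hG hΦ x hx
      rw [V7_cl, cm_evp]
      filter_upwards [he, ev_large p hp e] with n hn hn'
      have h2 := evp_map (evalRingHom (α n)) (pl (D n).U) fun s => rp (x s) n
      rw [← pl_map'] at h2
      refine h2.symm.trans ?_
      have h4 : (X - C (α n)) ∣ evp (pl (D n).U) (fun s => rp (x s) n) :=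
        (dvd_pow_self _ (by omega)).trans hn
      exact dvd_iff_isRoot.1 h4
  by_contra hcon
  have hcon' := (Ultrafilter.eventually_not (f := Filter.hyperfilter ℕ)).2 hcon
  have hex : ∀ n, ∃ V : Matrix (Fin r) ι (k n), (¬ VanI (Matrix.map (D n).S (eval (α n))) fun s => (Φ n s).eval (α n)) →
      V * Matrix.map (D n).S (eval (α n)) * Vᵀ = 0 ∧ (LinearIndependent (k n) fun i => V i) ∧
        evp (pl V) (fun s => (Φ n s).eval (α n)) ≠ 0 := by
    intro n
    by_cases h : VanI (Matrix.map (D n).S (eval (α n))) fun s => (Φ n s).eval (α n)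
    · exact ⟨0, fun h' => absurd h h'⟩
    · have h' := h
      unfold VanI at h'
      push Not at h'
      obtain ⟨V, h1, h2, h3⟩ := h'
      exact ⟨V, fun _ => ⟨h1, h2, h3⟩⟩
  choose V hV using hex
  have h1 := hvan Φ' WSO_self (cm V) (by
    rw [hST]
    refine cm_mul3 _ _ ?_
    filter_upwards [hcon'] with n hn
    exact (hV n hn).1) (cm_li _ (by
    filter_upwards [hcon'] with n hn
    exact (hV n hn).2.1))
  rw [V7_cl, cm_evp] at h1
  obtain ⟨n, ⟨hn1, hn2⟩, hn3⟩ := ((h1.and hcon').and hΦ).exists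
  refine (hV n hn2).2.2 ?_
  rw [← hn3]
  exact hn1

end MPadcEP
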