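import Pool.Agent.Lib.MP_adc574_ag_EP.V7

/-!
# LEAF V8: the non-vanishing theorem for a sequence of systems (easy+; copy of `nv_seq` in IP/Q22.lean)

Copy of `nv_seq` (IP/Q22.lean) with `nvO_ev` (V7): if the statement is false then (`Ultrafilter.eventually_not`) for almost all `n` there are `Φ n`, `α n` which violate it; choose them (`Φ n = 0`, `α n = 0` for the
other `n`), and apply `nvO_ev`, whose hypotheses have to hold for almost all `n` only.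
-/

set_option autoImplicit false

namespace MPadcEP

open Polynomial Matrix MPadcGM MPadcOA MPadcEO

theorem nvO_seq {k : ℕ → Type} [∀ n, Field (k n)] {ι : Type} [Fintype ι] [DecidableEq ι] {r c : ℕ} (hr : 2 * r < Fintype.card ι)
    (p : ℕ → ℕ) [∀ n, CharP (k n) (p n)] (hp : ∀ n, n ≤ p n) (D : ∀ n, FrR r ι (k n)) (hD : ∀ᶠ n in HF, (D n).Ok c)
    (hBig : ∀ (Δ' : (LL k)[X]) (G' S' : Matrix ι ι (LL k)[X]), (∀ᶠ n in HF, rp Δ' n = (D n).Δ) →
      (∀ᶠ n in HF, mq G' n = (D n).G) → (∀ᶠ n in HF, mq S' n = (D n).S) → MPadcOE.BigO Δ' G' S') (m L : ℕ) :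
    ∀ᶠ n in HF, ∀ Φ : (Fin m → Pq r ι) → (k n)[X], (∀ s, (Φ s).natDegree ≤ L) → ∀ α : k n, (D n).Δ.eval α ≠ 0 →
      (X - C α) ^ p n ∣ evp (pl (D n).U) Φ → VanI (Matrix.map (D n).S (eval α)) fun s => (Φ s).eval α := by
  classical
  by_contra hcon
  have hcon' := (Ultrafilter.eventually_not (f := Filter.hyperfilter ℕ)).2 hcon
  have hex : ∀ n, ∃ (Φ : (Fin m → Pq r ι) → (k n)[X]) (α : k n),
      (¬ ∀ Φ : (Fin m → Pq r ι) → (k n)[X], (∀ s, (Φ s).natDegree ≤ L) → ∀ α : k n, (D n).Δ.eval α ≠ 0 →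
        (X - C α) ^ p n ∣ evp (pl (D n).U) Φ → VanI (Matrix.map (D n).S (eval α)) fun s => (Φ s).eval α) →
      (∀ s, (Φ s).natDegree ≤ L) ∧ (D n).Δ.eval α ≠ 0 ∧ (X - C α) ^ p n ∣ evp (pl (D n).U) Φ ∧
        ¬ VanI (Matrix.map (D n).S (eval α)) fun s => (Φ s).eval α := by
    intro n
    by_cases hn : ∀ Φ : (Fin m → Pq r ι) → (k n)[X], (∀ s, (Φ s).natDegree ≤ L) → ∀ α : k n, (D n).Δ.eval α ≠ 0 →
        (X - C α) ^ p n ∣ evp (pl (D n).U) Φ → VanI (Matrix.map (D n).S (eval α)) fun s => (Φ s).eval α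
    · exact ⟨0, 0, fun h' => absurd hn h'⟩
    · have hn' := hn
      push Not at hn'
      obtain ⟨Φ, h1, α, h2, h3, h4⟩ := hn'
      exact ⟨Φ, α, fun _ => ⟨h1, h2, h3, h4⟩⟩
  choose Φ α h using hex
  have hev := nvO_ev (A := L) hr p hp D hD hBig Φ (hcon'.mono fun n hn => (h n hn).1) α
    (hcon'.mono fun n hn => (h n hn).2.1) (hcon'.mono fun n hn => (h n hn).2.2.1)
  obtain ⟨n, hn1, hn2⟩ := (hev.and hcon').exists
  exact (h n hn2).2.2.2 hn1

end MPadcEP
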